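import Pool.Agent.P.MP_b8021b_nt.CU.St

/-! Shared algebraic lemmas. -/

namespace Pool.Agent.P.MP_b8021b_nt.CU

open MvPolynomial
open Pool.Agent.P.MP_b8021b_nt.CH (Qf dl)

section Alg

variable {O : Type} [CommRing O] {R R' : Type} [CommRing R] [Algebra O R] [CommRing R']
  [Algebra O R'] {n : ℕ}

theorem aeval_smul {f : MvPolynomial (Fin n) O} {d : ℕ} (h : f.IsHomogeneous d) (a : R)
    (x : Fin n → R) : aeval (a • x) f = a ^ d * aeval x f := by
  rw [aeval_def, aeval_def, eval₂_eq, eval₂_eq, Finset.mul_sum]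
  refine Finset.sum_congr rfl fun m hm => ?_
  have := h (mem_support_iff.mp hm)
  rw [Finsupp.weight_apply, Finsupp.sum] at this
  simp only [Pi.smul_apply, smul_eq_mul, mul_pow, Finset.prod_mul_distrib,
    Finset.prod_pow_eq_pow_sum]
  simp only [Pi.one_apply, smul_eq_mul, mul_one] at this
  rw [this]; ring

theorem aeval_hom (j : R →ₐ[O] R') (x : Fin n → R) (f : MvPolynomial (Fin n) O) :
    aeval (fun i => j (x i)) f = j (aeval x f) := (comp_aeval_apply x j f).symm

theorem aeval_alg [Algebra R R'] [IsScalarTower O R R'] (x : Fin n → R)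
    (f : MvPolynomial (Fin n) O) :
    aeval (fun i => algebraMap R R' (x i)) f = algebraMap R R' (aeval x f) :=
  aeval_hom (IsScalarTower.toAlgHom O R R') x f

theorem pol_hom (j : R →ₐ[O] R') (x u : Fin n → R) (f : MvPolynomial (Fin n) O) :
    pol f (fun i => j (x i)) (fun i => j (u i)) = j (pol f x u) := by
  simp only [pol, aeval_hom, map_sum, map_mul]

theorem hs_hom (j : R →ₐ[O] R') (x u u' : Fin n → R) (f : MvPolynomial (Fin n) O) :
    hs f (fun i => j (x i)) (fun i => j (u i)) (fun i => j (u' i)) = j (hs f x u u') := by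
  simp only [hs, aeval_hom, map_sum, map_mul]

theorem Dat.Q_hom (D : Dat O) (j : R →ₐ[O] R') (b y : Fin 3 → R) :
    D.Q (fun i => j (b i)) (fun i => j (y i)) = j (D.Q b y) := by
  simp only [Dat.Q, Qf, aeval_hom, map_add, map_mul, map_pow]

theorem Dat.B_eq (D : Dat O) (b y y' : Fin 3 → R) : D.B b y y' =
    2 * aeval b D.l₁ * y 0 * y' 0 + aeval b D.l₂ * (y 0 * y' 1 + y 1 * y' 0)
      + 2 * aeval b D.l₃ * y 1 * y' 1 + aeval b D.q₁ * (y 0 * y' 2 + y 2 * y' 0)
      + aeval b D.q₂ * (y 1 * y' 2 + y 2 * y' 1) + 2 * aeval b D.c * y 2 * y' 2 := by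
  simp only [Dat.B, Dat.Q, Qf, Pi.add_apply]; ring

theorem Dat.B_hom (D : Dat O) (j : R →ₐ[O] R') (b y y' : Fin 3 → R) :
    D.B (fun i => j (b i)) (fun i => j (y i)) (fun i => j (y' i)) = j (D.B b y y') := by
  simp only [Dat.B_eq, aeval_hom, map_add, map_mul, map_ofNat]

theorem Dat.Q_lin (D : Dat O) (b y y' : Fin 3 → R) (s t : R) :
    D.Q b (s • y + t • y') = s ^ 2 * D.Q b y + s * t * D.B b y y' + t ^ 2 * D.Q b y' := by
  simp only [Dat.B_eq, Dat.Q, Qf, Pi.add_apply, Pi.smul_apply, smul_eq_mul]; ring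

theorem Dat.δ_eq (D : Dat O) (b : Fin 3 → R) : aeval b D.δ =
    dl (aeval b D.l₁) (aeval b D.l₂) (aeval b D.l₃) (aeval b D.q₁) (aeval b D.q₂) (aeval b D.c) := by
  simp only [Dat.δ, dl, map_add, map_sub, map_mul, map_pow, map_ofNat]

theorem Dat.e0 (D : Dat O) (b : Fin 3 → R) :
    aeval b (D.e 0) = aeval b D.q₂ ^ 2 - 4 * aeval b D.l₃ * aeval b D.c := by
  simp [Dat.e, map_ofNat]

theorem Dat.e1 (D : Dat O) (b : Fin 3 → R) :
    aeval b (D.e 1) = aeval b D.q₁ ^ 2 - 4 * aeval b D.l₁ * aeval b D.c := by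
  simp [Dat.e, map_ofNat]

theorem Dat.e2 (D : Dat O) (b : Fin 3 → R) :
    aeval b (D.e 2) = aeval b D.l₂ ^ 2 - 4 * aeval b D.l₁ * aeval b D.l₃ := by
  simp [Dat.e, map_ofNat]

theorem hom_four : (4 : MvPolynomial (Fin n) O).IsHomogeneous 0 := by
  rw [← map_ofNat (C : O →+* MvPolynomial (Fin n) O) 4]
  exact isHomogeneous_C (Fin n) (4 : O)

theorem Dat.hδ (D : Dat O) : D.δ.IsHomogeneous 5 :=
  (((((((hom_four.mul D.hl₁).mul D.hl₃).mul D.hc).add ((D.hl₂.mul D.hq₁).mul D.hq₂)).sub
    (D.hl₁.mul (D.hq₂.pow 2))).sub (D.hl₃.mul (D.hq₁.pow 2))).sub (D.hc.mul (D.hl₂.pow 2)))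

theorem Dat.he (D : Dat O) (i : Fin 3) : (D.e i).IsHomogeneous (2 * ![2, 2, 1] i) := by
  fin_cases i
  · exact (D.hq₂.pow 2).sub ((hom_four.mul D.hl₃).mul D.hc)
  · exact (D.hq₁.pow 2).sub ((hom_four.mul D.hl₁).mul D.hc)
  · exact (D.hl₂.pow 2).sub ((hom_four.mul D.hl₁).mul D.hl₃)

theorem Dat.hF (D : Dat O) : D.F.IsHomogeneous 3 := by
  have h : ∀ {f : MvPolynomial (Fin 3) O} {d : ℕ}, f.IsHomogeneous d → (up f).IsHomogeneous d :=
    fun h => h.rename_isHomogeneous
  have x := isHomogeneous_X O (σ := Fin 5)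
  exact ((((((h D.hl₁).mul ((x 3).pow 2)).add (((h D.hl₂).mul (x 3)).mul (x 4))).add
    ((h D.hl₃).mul ((x 4).pow 2))).add ((h D.hq₁).mul (x 3))).add ((h D.hq₂).mul (x 4))).add
    (h D.hc)

theorem aeval_up (ξ : Fin 5 → R) (f : MvPolynomial (Fin 3) O) :
    aeval ξ (up f) = aeval (bs ξ) f := by
  rw [up, aeval_rename]
  congr 2
  funext i
  fin_cases i <;> rfl

theorem Dat.F_eq (D : Dat O) (ξ : Fin 5 → R) : aeval ξ D.F = D.Q (bs ξ) (fb ξ) := by
  simp [Dat.F, Dat.Q, Qf, aeval_up, fb]

theorem pt_bs_fb (ξ : Fin 5 → R) : pt (bs ξ) (fb ξ) = ξ := by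
  funext i
  fin_cases i <;> simp [pt, bs, fb]

theorem bs_pt (b y : Fin 3 → R) : bs (pt b y) = y 2 • b := by
  funext i
  fin_cases i <;> simp [pt, bs]

theorem Dat.Q_smul (D : Dat O) (a : R) (b : Fin 3 → R) (y₁ y₂ z : R) :
    D.Q (a • b) ![y₁, y₂, z] = a * D.Q b ![y₁, y₂, a * z] := by
  simp only [Dat.Q, Qf, aeval_smul D.hl₁, aeval_smul D.hl₂, aeval_smul D.hl₃, aeval_smul D.hq₁,
    aeval_smul D.hq₂, aeval_smul D.hc]
  simp; ring

theorem vec3 {α : Type} (y : Fin 3 → α) : ![y 0, y 1, y 2] = y := by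
  funext i
  fin_cases i <;> rfl

theorem Dat.F_pt (D : Dat O) (b y : Fin 3 → R) : aeval (pt b y) D.F = y 2 * D.Q b y := by
  rw [D.F_eq, bs_pt, fb, D.Q_smul, mul_one]
  exact congrArg (fun u => y 2 * D.Q b u) (vec3 y)

theorem pt_smul (a : R) (b y : Fin 3 → R) : pt b (a • y) = a • pt b y := by
  funext i
  fin_cases i <;> simp [pt, mul_assoc]

theorem pt_smul_left (a : R) (b : Fin 3 → R) (y₁ y₂ z : R) :
    pt (a • b) ![y₁, y₂, z] = pt b ![y₁, y₂, a * z] := by
  funext i
  fin_cases i <;> simp [pt] <;> ring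

theorem pt_add (b y y' : Fin 3 → R) : pt b (y + y') = pt b y + pt b y' := by
  funext i
  fin_cases i <;> simp [pt, add_mul]

theorem pt_hom {S S' : Type} [CommRing S] [CommRing S'] (j : S →+* S') (b y : Fin 3 → S) :
    pt (fun i => j (b i)) (fun i => j (y i)) = fun i => j (pt b y i) := by
  funext i
  fin_cases i <;> simp [pt]

theorem pt_ne_zero [NoZeroDivisors R] {b y : Fin 3 → R} (hb : b ≠ 0) (hy : y ≠ 0) : pt b y ≠ 0 := by
  intro h
  have h0 : y 0 = 0 := congrFun h 3
  have h1 : y 1 = 0 := congrFun h 4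
  have h2 : y 2 • b = 0 := by
    rw [← bs_pt, h]
    funext i
    fin_cases i <;> rfl
  obtain ⟨i, hi⟩ := Function.ne_iff.mp hb
  have h3 : y 2 = 0 := (mul_eq_zero.mp (congrFun h2 i)).resolve_right hi
  exact hy (by rw [← vec3 y, h0, h1, h3]; simp)

theorem Dat.on_pt [NoZeroDivisors R] (D : Dat O) {b y : Fin 3 → R} (hb : b ≠ 0) (hy : y ≠ 0)
    (h : D.Q b y = 0) : D.On (pt b y) := ⟨pt_ne_zero hb hy, by rw [D.F_pt, h, mul_zero]⟩

/-! ### change of the coefficient ring -/

section Map

variable {O' O'' : Type} [CommRing O'] [CommRing O'']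

theorem Dat.map_δ (D : Dat O) (f : O →+* O') : (D.map f).δ = MvPolynomial.map f D.δ := by
  simp only [Dat.δ, Dat.map, map_add, map_sub, map_mul, map_pow, map_ofNat]

theorem Dat.map_e (D : Dat O) (f : O →+* O') (i : Fin 3) :
    (D.map f).e i = MvPolynomial.map f (D.e i) := by
  fin_cases i <;> simp [Dat.e, Dat.map, map_ofNat]

theorem Dat.map_F (D : Dat O) (f : O →+* O') : (D.map f).F = MvPolynomial.map f D.F := by
  simp only [Dat.F, Dat.map, up, map_add, map_mul, map_pow, map_rename, map_X]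

theorem Dat.map_map (D : Dat O) (f : O →+* O') (g : O' →+* O'') :
    (D.map f).map g = D.map (g.comp f) := by
  simp only [Dat.map, MvPolynomial.map_map]

variable [Algebra O O'] [Algebra O' R] [IsScalarTower O O' R]

theorem aeval_map' (x : Fin n → R) (f : MvPolynomial (Fin n) O) :
    aeval x (MvPolynomial.map (algebraMap O O') f) = aeval x f := aeval_map_algebraMap O' x f

theorem Dat.δ_map (D : Dat O) (b : Fin 3 → R) :
    aeval b (D.map (algebraMap O O')).δ = aeval b D.δ := by rw [D.map_δ, aeval_map']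

theorem Dat.F_map (D : Dat O) (ξ : Fin 5 → R) :
    aeval ξ (D.map (algebraMap O O')).F = aeval ξ D.F := by rw [D.map_F, aeval_map']

theorem Dat.Q_map (D : Dat O) (b y : Fin 3 → R) : (D.map (algebraMap O O')).Q b y = D.Q b y := by
  simp only [Dat.Q, Dat.map, aeval_map']

theorem Dat.On_map (D : Dat O) (ξ : Fin 5 → R) : (D.map (algebraMap O O')).On ξ ↔ D.On ξ := by
  simp only [Dat.On, D.F_map]

theorem Dat.Ani_map (D : Dat O) (b : Fin 3 → R) : (D.map (algebraMap O O')).Ani b ↔ D.Ani b := by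
  simp only [Dat.Ani, D.Q_map]

theorem pol_map (f : MvPolynomial (Fin n) O) (x u : Fin n → R) :
    pol (MvPolynomial.map (algebraMap O O') f) x u = pol f x u := by
  simp only [pol, pderiv_map, aeval_map']

theorem Dat.Dl_map (D : Dat O) (x u : Fin 5 → R) :
    (D.map (algebraMap O O')).Dl x u = D.Dl x u := by
  simp only [Dat.Dl, D.map_F, pol_map, aeval_map']

theorem Dat.res_map (D : Dat O) (x u : Fin 5 → R) (ω : R) :
    (D.map (algebraMap O O')).res x u ω = D.res x u ω := by
  funext i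
  simp only [Dat.res, D.map_F, pol_map, aeval_map']

end Map

/-! ### Taylor expansion -/

theorem pol_C (a : O) (x u : Fin n → R) : pol (C a) x u = 0 := by simp [pol]

theorem pol_add (f g : MvPolynomial (Fin n) O) (x u : Fin n → R) :
    pol (f + g) x u = pol f x u + pol g x u := by
  simp [pol, add_mul, Finset.sum_add_distrib]

theorem pol_mul (f g : MvPolynomial (Fin n) O) (x u : Fin n → R) :
    pol (f * g) x u = pol f x u * aeval x g + aeval x f * pol g x u := by
  simp only [pol, Derivation.leibniz, smul_eq_mul, map_add, map_mul, Finset.sum_mul,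
    Finset.mul_sum, ← Finset.sum_add_distrib]
  exact Finset.sum_congr rfl fun i _ => by ring

theorem pol_X (i : Fin n) (x u : Fin n → R) : pol (X i : MvPolynomial (Fin n) O) x u = u i := by
  simp [pol, pderiv_X, Pi.single_apply, apply_ite]

theorem pol_add_right (f : MvPolynomial (Fin n) O) (x u u' : Fin n → R) :
    pol f x (u + u') = pol f x u + pol f x u' := by
  simp [pol, mul_add, Finset.sum_add_distrib]

theorem pol_smul_right (f : MvPolynomial (Fin n) O) (x u : Fin n → R) (a : R) :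
    pol f x (a • u) = a * pol f x u := by
  simp only [pol, Pi.smul_apply, smul_eq_mul, Finset.mul_sum]
  exact Finset.sum_congr rfl fun i _ => by ring

theorem pol_smul_left {f : MvPolynomial (Fin n) O} {d : ℕ} (h : f.IsHomogeneous d) (x u : Fin n → R)
    (a : R) : pol f (a • x) u = a ^ (d - 1) * pol f x u := by
  simp only [pol, Finset.mul_sum, aeval_smul h.pderiv, mul_assoc]

theorem hs_eq (f : MvPolynomial (Fin n) O) (x u u' : Fin n → R) :
    hs f x u u' = ∑ j, pol (pderiv j f) x u * u' j := by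
  simp only [hs, pol, Finset.sum_mul]
  exact Finset.sum_comm

theorem pderiv_comm' (i j : Fin n) (f : MvPolynomial (Fin n) O) :
    pderiv i (pderiv j f) = pderiv j (pderiv i f) := by
  induction f using MvPolynomial.induction_on with
  | C a => simp
  | add p q hp hq => simp [hp, hq]
  | mul_X p l hp =>
    have h : ∀ a b : Fin n, pderiv a (pderiv b (X l : MvPolynomial (Fin n) O)) = 0 := fun a b => by
      simp [pderiv_X, Pi.single_apply, apply_ite]
    simp only [Derivation.leibniz, smul_eq_mul, map_add, h, hp]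
    ring

theorem hs_comm (f : MvPolynomial (Fin n) O) (x u u' : Fin n → R) : hs f x u u' = hs f x u' u := by
  rw [hs, hs, Finset.sum_comm]
  refine Finset.sum_congr rfl fun i _ => Finset.sum_congr rfl fun j _ => ?_
  rw [pderiv_comm']; ring

theorem hs_add_right (f : MvPolynomial (Fin n) O) (x u u' u'' : Fin n → R) :
    hs f x u (u' + u'') = hs f x u u' + hs f x u u'' := by
  simp [hs_eq, mul_add, Finset.sum_add_distrib]

theorem hs_smul_right (f : MvPolynomial (Fin n) O) (x u u' : Fin n → R) (a : R) :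
    hs f x u (a • u') = a * hs f x u u' := by
  simp only [hs_eq, Pi.smul_apply, smul_eq_mul, Finset.mul_sum]
  exact Finset.sum_congr rfl fun i _ => by ring

theorem hs_add_left (f : MvPolynomial (Fin n) O) (x u u' u'' : Fin n → R) :
    hs f x (u + u') u'' = hs f x u u'' + hs f x u' u'' := by
  rw [hs_comm, hs_add_right, hs_comm f x u'', hs_comm f x u'']

theorem hs_smul_left (f : MvPolynomial (Fin n) O) (x u u' : Fin n → R) (a : R) :
    hs f x (a • u) u' = a * hs f x u u' := by
  rw [hs_comm, hs_smul_right, hs_comm]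

theorem hs_mul_X (f : MvPolynomial (Fin n) O) (l : Fin n) (x u : Fin n → R) :
    hs (f * X l) x u u = hs f x u u * x l + 2 * pol f x u * u l := by
  have h : ∀ j, pol (pderiv j (f * X l)) x u = pol (pderiv j f) x u * x l
      + aeval x (pderiv j f) * u l + if j = l then pol f x u else 0 := fun j => by
    rw [Derivation.leibniz, smul_eq_mul, smul_eq_mul, pol_add, pol_mul, pol_mul, pol_X, pderiv_X]
    by_cases e : j = l
    · subst e
      have : pol (1 : MvPolynomial (Fin n) O) x u = 0 := pol_C 1 x u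
      simp [this]; ring
    · have : pol (0 : MvPolynomial (Fin n) O) x u = 0 := by simp [pol]
      simp [this, e]; ring
  simp only [hs_eq, h, add_mul, Finset.sum_add_distrib, ite_mul, zero_mul, Finset.sum_ite_eq',
    Finset.mem_univ, if_true, Finset.sum_mul]
  have e1 : ∑ j, aeval x (pderiv j f) * u l * u j = pol f x u * u l := by
    rw [pol, Finset.sum_mul]
    exact Finset.sum_congr rfl fun i _ => by ring
  have e2 : ∑ j, pol (pderiv j f) x u * x l * u j = ∑ j, pol (pderiv j f) x u * u j * x l :=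
    Finset.sum_congr rfl fun i _ => by ring
  rw [e1, e2]; ring

theorem aeval_mem (S : Subalgebra O R) {x : Fin n → R} (hx : ∀ i, x i ∈ S)
    (f : MvPolynomial (Fin n) O) : aeval x f ∈ S := by
  induction f using MvPolynomial.induction_on with
  | C a => simp
  | add p q hp hq => simpa using add_mem hp hq
  | mul_X p l hp => simpa using mul_mem hp (hx l)

theorem pol_mem (S : Subalgebra O R) {x u : Fin n → R} (hx : ∀ i, x i ∈ S) (hu : ∀ i, u i ∈ S)
    (f : MvPolynomial (Fin n) O) : pol f x u ∈ S :=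
  sum_mem fun i _ => mul_mem (aeval_mem S hx _) (hu i)

theorem hs_mem (S : Subalgebra O R) {x u u' : Fin n → R} (hx : ∀ i, x i ∈ S) (hu : ∀ i, u i ∈ S)
    (hu' : ∀ i, u' i ∈ S) (f : MvPolynomial (Fin n) O) : hs f x u u' ∈ S :=
  sum_mem fun i _ => sum_mem fun j _ => mul_mem (mul_mem (aeval_mem S hx _) (hu i)) (hu' j)

/-- Taylor expansion up to order two with integral remainders -/
theorem taylor (S : Subalgebra O R) {x u : Fin n → R} {a : R} (hx : ∀ i, x i ∈ S)
    (hu : ∀ i, u i ∈ S) (ha : a ∈ S) (f : MvPolynomial (Fin n) O) :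
    ∃ h ∈ S, ∃ r ∈ S, 2 * h = hs f x u u ∧
      aeval (x + a • u) f = aeval x f + a * pol f x u + a ^ 2 * h + a ^ 3 * r := by
  induction f using MvPolynomial.induction_on with
  | C c => exact ⟨0, zero_mem _, 0, zero_mem _, by simp [hs], by simp [pol_C]⟩
  | add p q hp hq =>
    obtain ⟨h, h1, r, r1, e1, e2⟩ := hp
    obtain ⟨h', h1', r', r1', e1', e2'⟩ := hq
    refine ⟨h + h', add_mem h1 h1', r + r', add_mem r1 r1', ?_, ?_⟩
    · rw [mul_add, e1, e1']
      simp [hs, add_mul, Finset.sum_add_distrib]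
    · rw [map_add, map_add, pol_add, e2, e2']; ring
  | mul_X p l hp =>
    obtain ⟨h, h1, r, r1, e1, e2⟩ := hp
    refine ⟨h * x l + pol p x u * u l, add_mem (mul_mem h1 (hx l)) (mul_mem (pol_mem S hx hu p)
      (hu l)), r * x l + h * u l + a * r * u l, add_mem (add_mem (mul_mem r1 (hx l))
      (mul_mem h1 (hu l))) (mul_mem (mul_mem ha r1) (hu l)), ?_, ?_⟩
    · rw [hs_mul_X, ← e1]; ring
    · rw [map_mul, map_mul, pol_mul, pol_X, aeval_X, aeval_X, e2, Pi.add_apply, Pi.smul_apply,
        smul_eq_mul]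
      ring

/-- Euler's identity -/
theorem pol_self {f : MvPolynomial (Fin n) O} {d : ℕ} (h : f.IsHomogeneous d) (x : Fin n → R) :
    pol f x x = d * aeval x f := by
  have := congrArg (aeval x) h.sum_X_mul_pderiv
  simp only [map_sum, map_mul, aeval_X, nsmul_eq_mul, map_natCast] at this
  rw [← this, pol]
  exact Finset.sum_congr rfl fun i _ => mul_comm _ _

theorem hs_self {f : MvPolynomial (Fin n) O} {d : ℕ} (h : f.IsHomogeneous d) (x u : Fin n → R) :
    hs f x x u = (d - 1 : ℕ) * pol f x u := by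
  simp only [hs_eq, pol_self h.pderiv, mul_assoc]
  rw [pol, Finset.mul_sum]

/-! ### restriction to a line -/

theorem lp_aeval [Algebra R R'] [IsScalarTower O R R'] (f : MvPolynomial (Fin n) O)
    (x u : Fin n → R) (r : R') : Polynomial.aeval r (lp f x u) =
      aeval (fun i => algebraMap R R' (x i) + algebraMap R R' (u i) * r) f := by
  have := aeval_hom ((Polynomial.aeval r : Polynomial R →ₐ[R] R').restrictScalars O)
    (fun i => Polynomial.C (x i) + Polynomial.C (u i) * Polynomial.X) f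
  simpa [lp] using this.symm

theorem lp_eval (f : MvPolynomial (Fin n) O) (x u : Fin n → R) (r : R) :
    (lp f x u).eval r = aeval (x + r • u) f := by
  have := lp_aeval f x u r
  rw [Polynomial.coe_aeval_eq_eval] at this
  rw [this]
  congr 2
  funext i
  simp [mul_comm]

theorem lp_taylor (f : MvPolynomial (Fin n) O) (x u : Fin n → R) :
    (lp f x u).coeff 0 = aeval x f ∧ (lp f x u).coeff 1 = pol f x u := by
  obtain ⟨h, -, r, -, -, e⟩ := taylor (⊤ : Subalgebra O (Polynomial R))
    (x := fun i => Polynomial.C (x i)) (u := fun i => Polynomial.C (u i)) (a := Polynomial.X)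
    (fun _ => trivial) (fun _ => trivial) trivial f
  have e0 : lp f x u = Polynomial.C (aeval x f) + Polynomial.C (pol f x u) * Polynomial.X
      + (h + Polynomial.X * r) * Polynomial.X ^ 2 := by
    have a1 := aeval_hom (Polynomial.CAlgHom : R →ₐ[O] Polynomial R) x f
    have a2 := pol_hom (Polynomial.CAlgHom : R →ₐ[O] Polynomial R) x u f
    simp only [Polynomial.CAlgHom_apply] at a1 a2
    rw [← a1, ← a2, lp]
    refine Eq.trans ?_ (e.trans (by ring))
    congr 2
    funext i
    rw [Pi.add_apply, Pi.smul_apply, smul_eq_mul, mul_comm]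
  rw [e0]
  generalize aeval x f = a
  generalize pol f x u = a'
  constructor <;> simp [Polynomial.coeff_mul_X_pow', Polynomial.coeff_X, Polynomial.coeff_C]

theorem lp_top {f : MvPolynomial (Fin n) O} {d : ℕ} (h : f.IsHomogeneous d) (x u : Fin n → R) :
    (lp f x u).natDegree ≤ d ∧ (lp f x u).coeff d = aeval u f := by
  have key : ∀ (s : Finset (Fin n)) (m : Fin n →₀ ℕ),
      (∏ i ∈ s, (Polynomial.C (x i) + Polynomial.C (u i) * Polynomial.X) ^ m i).natDegree ≤
        ∑ i ∈ s, m i ∧
      (∏ i ∈ s, (Polynomial.C (x i) + Polynomial.C (u i) * Polynomial.X) ^ m i).coeff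
        (∑ i ∈ s, m i) = ∏ i ∈ s, u i ^ m i := by
    intro s m
    have h1 : ∀ i, (Polynomial.C (x i) + Polynomial.C (u i) * Polynomial.X).natDegree ≤ 1 :=
      fun i => by compute_degree
    induction s using Finset.induction_on with
    | empty => simp
    | insert i s hi ih =>
      have h2 : ((Polynomial.C (x i) + Polynomial.C (u i) * Polynomial.X) ^ m i).natDegree ≤ m i :=
        Polynomial.natDegree_pow_le.trans (by simpa using Nat.mul_le_mul_left _ (h1 i))
      rw [Finset.prod_insert hi, Finset.sum_insert hi, Finset.prod_insert hi]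
      refine ⟨Polynomial.natDegree_mul_le.trans (add_le_add h2 ih.1), ?_⟩
      have h3 := Polynomial.coeff_pow_of_natDegree_le (m := m i) (h1 i)
      rw [mul_one] at h3
      rw [Polynomial.coeff_mul_add_eq_of_natDegree_le h2 ih.1, ih.2, h3]
      simp
  have hd : ∀ m ∈ f.support, ∑ i ∈ m.support, m i = d := fun m hm => by
    have := h (mem_support_iff.mp hm)
    rw [Finsupp.weight_apply, Finsupp.sum] at this
    simpa using this
  rw [lp, aeval_def, aeval_def, eval₂_eq, eval₂_eq]
  constructor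
  · refine Polynomial.natDegree_sum_le_of_forall_le _ _ fun m hm => ?_
    rw [Polynomial.algebraMap_apply]
    exact (Polynomial.natDegree_C_mul_le _ _).trans (hd m hm ▸ (key _ m).1)
  · rw [Polynomial.finsetSum_coeff]
    refine Finset.sum_congr rfl fun m hm => ?_
    rw [Polynomial.algebraMap_apply, Polynomial.coeff_C_mul, ← hd m hm, (key _ m).2]

theorem lp_reflect {f : MvPolynomial (Fin n) O} {d : ℕ} (h : f.IsHomogeneous d)
    (x u : Fin n → R) : Polynomial.reflect d (lp f x u) = lp f u x := by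
  have h1 : ∀ i, (Polynomial.C (x i) + Polynomial.C (u i) * Polynomial.X).natDegree ≤ 1 :=
    fun i => by compute_degree
  have h2 : ∀ i m, ((Polynomial.C (x i) + Polynomial.C (u i) * Polynomial.X) ^ m).natDegree ≤ m :=
    fun i m => Polynomial.natDegree_pow_le.trans (by simpa using Nat.mul_le_mul_left _ (h1 i))
  have h3 : ∀ i m, Polynomial.reflect m
      ((Polynomial.C (x i) + Polynomial.C (u i) * Polynomial.X) ^ m) =
      (Polynomial.C (u i) + Polynomial.C (x i) * Polynomial.X) ^ m := fun i m => by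
    induction m with
    | zero => simp
    | succ m ih =>
      rw [pow_succ, pow_succ, Polynomial.reflect_mul _ _ (h2 i m) (h1 i), ih]
      simp [add_comm]
  have key : ∀ (s : Finset (Fin n)) (m : Fin n →₀ ℕ), Polynomial.reflect (∑ i ∈ s, m i)
      (∏ i ∈ s, (Polynomial.C (x i) + Polynomial.C (u i) * Polynomial.X) ^ m i) =
      ∏ i ∈ s, (Polynomial.C (u i) + Polynomial.C (x i) * Polynomial.X) ^ m i := by
    intro s m
    induction s using Finset.induction_on with
    | empty => simp
    | insert i s hi ih =>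
      rw [Finset.prod_insert hi, Finset.sum_insert hi, Finset.prod_insert hi,
        Polynomial.reflect_mul _ _ (h2 i _) ((Polynomial.natDegree_prod_le _ _).trans
          (Finset.sum_le_sum fun j _ => h2 j _)), ih, h3]
  have hd : ∀ m ∈ f.support, ∑ i ∈ m.support, m i = d := fun m hm => by
    have := h (mem_support_iff.mp hm)
    rw [Finsupp.weight_apply, Finsupp.sum] at this
    simpa using this
  rw [lp, lp, aeval_def, aeval_def, eval₂_eq, eval₂_eq]
  ext l
  rw [Polynomial.coeff_reflect, Polynomial.finsetSum_coeff, Polynomial.finsetSum_coeff]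
  refine Finset.sum_congr rfl fun m hm => ?_
  rw [Polynomial.algebraMap_apply, Polynomial.coeff_C_mul, Polynomial.coeff_C_mul, ← key,
    Polynomial.coeff_reflect, hd m hm]

/-- a cubic form on a line -/
theorem cubic_line {f : MvPolynomial (Fin n) O} (h : f.IsHomogeneous 3) (x u : Fin n → R)
    (s t : R) : aeval (s • x + t • u) f =
      s ^ 3 * aeval x f + s ^ 2 * t * pol f x u + s * t ^ 2 * pol f u x + t ^ 3 * aeval u f := by
  have h2 : (lp f (s • x) u).coeff 2 = pol f u (s • x) := by
    rw [← (lp_taylor f u (s • x)).2, ← lp_reflect h (s • x) u, Polynomial.coeff_reflect]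
    rfl
  rw [← lp_eval, Polynomial.eval_eq_sum_range' (Nat.lt_succ_of_le (lp_top h (s • x) u).1)]
  simp only [Finset.sum_range_succ, Finset.sum_range_zero, (lp_taylor f (s • x) u).1,
    (lp_taylor f (s • x) u).2, (lp_top h (s • x) u).2, h2, aeval_smul h, pol_smul_left h,
    pol_smul_right]
  ring

end Alg

end Pool.Agent.P.MP_b8021b_nt.CU
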