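import Pool.Agent.P.MP_b8021b_nt.CU.Basic

/-! Shared lemmas on valuations and residue maps. -/

open scoped WithZero

namespace Pool.Agent.P.MP_b8021b_nt.CU

open MvPolynomial WithZero

section Ord

variable {K : Type} [Field K] (v : Valuation K ℤᵐ⁰)

theorem val_eq_exp {a : K} (ha : a ≠ 0) : v a = exp (-ord v a) := by
  rw [ord, neg_neg, exp_log (by simpa using ha)]

theorem ord_of_val {a : K} {n : ℤ} (h : v a = exp (-n)) : ord v a = n := by simp [ord, h]

theorem ord_zero : ord v 0 = 0 := by simp [ord]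

theorem ord_one : ord v 1 = 0 := by simp [ord]

theorem ord_mul {a b : K} (ha : a ≠ 0) (hb : b ≠ 0) : ord v (a * b) = ord v a + ord v b :=
  ord_of_val v (by rw [map_mul, val_eq_exp v ha, val_eq_exp v hb, ← exp_add, neg_add])

theorem ord_inv' (a : K) : ord v a⁻¹ = -ord v a := by simp [ord]

theorem ord_pow (a : K) (n : ℕ) : ord v (a ^ n) = n * ord v a := by simp [ord]

theorem ord_neg (a : K) : ord v (-a) = ord v a := by simp [ord]

theorem ord_eq_zero_iff {a : K} (ha : a ≠ 0) : ord v a = 0 ↔ v a = 1 :=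
  ⟨fun h => by rw [val_eq_exp v ha, h]; rfl, fun h => by simp [ord, h]⟩

theorem val_lt_one_iff_le {x : ℤᵐ⁰} : x < 1 ↔ x ≤ exp (-1) := by
  rcases eq_or_ne x 0 with rfl | h
  · simp
  · rw [← exp_log h, ← exp_zero, exp_lt_exp, exp_le_exp]; omega

/-- a nonzero vector has a primitive multiple -/
theorem exists_prim {n : ℕ} {x : Fin n → K} (hx : x ≠ 0) :
    ∃ (a : K) (i : Fin n), a ≠ 0 ∧ Int v (a • x) ∧ a * x i = 1 := by
  obtain ⟨j, hj⟩ := Function.ne_iff.mp hx
  obtain ⟨i, -, hi⟩ := Finset.exists_max_image Finset.univ (fun i => v (x i)) ⟨j, Finset.mem_univ j⟩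
  have h0 : x i ≠ 0 := fun h => hj (by simpa [h] using hi j (Finset.mem_univ j))
  refine ⟨(x i)⁻¹, i, inv_ne_zero h0, fun l => ?_, inv_mul_cancel₀ h0⟩
  rw [Pi.smul_apply, smul_eq_mul, map_mul, map_inv₀,
    inv_mul_le_one₀ (zero_lt_iff.mpr (by simpa using h0))]
  exact hi l (Finset.mem_univ l)

variable {v}

theorem Int.add {n : ℕ} {x y : Fin n → K} (hx : Int v x) (hy : Int v y) : Int v (x + y) :=
  fun i => v.map_add_le (hx i) (hy i)

theorem Int.sub {n : ℕ} {x y : Fin n → K} (hx : Int v x) (hy : Int v y) : Int v (x - y) :=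
  fun i => v.map_sub_le (hx i) (hy i)

theorem Int.smul {n : ℕ} {x : Fin n → K} {a : K} (ha : v a ≤ 1) (hx : Int v x) : Int v (a • x) :=
  fun i => by rw [Pi.smul_apply, smul_eq_mul, map_mul]; exact mul_le_one' ha (hx i)

end Ord

section Integers

variable {O K : Type} [CommRing O] [Field K] [Algebra O K] {v : Valuation K ℤᵐ⁰}
  (hv : ∀ c : O, v (algebraMap O K c) ≤ 1) {n : ℕ}

/-- the valuation ring as a subalgebra -/
def vsub : Subalgebra O K where
  carrier := {a | v a ≤ 1}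
  mul_mem' ha hb := by rw [Set.mem_ofPred_eq, map_mul]; exact mul_le_one' ha hb
  add_mem' ha hb := v.map_add_le ha hb
  algebraMap_mem' := hv

include hv

theorem val_aeval_le {x : Fin n → K} (hx : Int v x) (f : MvPolynomial (Fin n) O) :
    v (aeval x f) ≤ 1 := aeval_mem (vsub hv) hx f

theorem val_pol_le {x u : Fin n → K} (hx : Int v x) (hu : Int v u) (f : MvPolynomial (Fin n) O) :
    v (pol f x u) ≤ 1 := pol_mem (vsub hv) hx hu f

theorem val_hs_le {x u u' : Fin n → K} (hx : Int v x) (hu : Int v u) (hu' : Int v u')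
    (f : MvPolynomial (Fin n) O) : v (hs f x u u') ≤ 1 := hs_mem (vsub hv) hx hu hu' f

theorem val_taylor {x u : Fin n → K} {a : K} (hx : Int v x) (hu : Int v u) (ha : v a ≤ 1)
    (f : MvPolynomial (Fin n) O) : ∃ h r : K, v h ≤ 1 ∧ v r ≤ 1 ∧ 2 * h = hs f x u u ∧
      aeval (x + a • u) f = aeval x f + a * pol f x u + a ^ 2 * h + a ^ 3 * r := by
  obtain ⟨h, h1, r, r1, e⟩ := taylor (vsub hv) hx hu ha f
  exact ⟨h, r, h1, r1, e⟩

/-- polynomials are Lipschitz on integral vectors -/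
theorem val_aeval_sub_le {x y : Fin n → K} {g : ℤᵐ⁰} (hx : Int v x) (hy : Int v y)
    (h : ∀ i, v (x i - y i) ≤ g) (f : MvPolynomial (Fin n) O) : v (aeval x f - aeval y f) ≤ g := by
  induction f using MvPolynomial.induction_on with
  | C a => simp
  | add p q hp hq =>
    rw [map_add, map_add, add_sub_add_comm]
    exact v.map_add_le hp hq
  | mul_X p l hp =>
    have e : aeval x (p * X l) - aeval y (p * X l) =
        (aeval x p - aeval y p) * x l + aeval y p * (x l - y l) := by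
      simp only [map_mul, aeval_X]; ring
    rw [e]
    refine v.map_add_le ?_ ?_ <;> rw [map_mul]
    · exact (mul_le_of_le_one_right' (hx l)).trans hp
    · exact (mul_le_of_le_one_left' (val_aeval_le hv hy p)).trans (h l)

theorem val_aeval_sub_lt {x y : Fin n → K} (hx : Int v x) (hy : Int v y)
    (h : ∀ i, v (x i - y i) < 1) (f : MvPolynomial (Fin n) O) : v (aeval x f - aeval y f) < 1 :=
  val_lt_one_iff_le.2 (val_aeval_sub_le hv hx hy (fun i => val_lt_one_iff_le.1 (h i)) f)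

end Integers

namespace Red

variable {O K κ : Type} [CommRing O] [Field K] [Field κ] [Algebra O K] [Algebra O κ]
  {v : Valuation K ℤᵐ⁰} {ρ : K → κ} (h : Red O v ρ) {a b : K} {n : ℕ}

include h

theorem zero : ρ 0 = 0 := by simpa using h.const 0

theorem one : ρ 1 = 1 := by simpa using h.const 1

theorem natCast (m : ℕ) : ρ m = m := by simpa using h.const m

theorem intCast (m : ℤ) : ρ m = m := by simpa using h.const m

theorem neg (ha : v a ≤ 1) : ρ (-a) = -ρ a := by
  have := h.add a (-a) ha (by simpa using ha)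
  rw [add_neg_cancel, h.zero] at this
  exact (neg_eq_of_add_eq_zero_right this.symm).symm

theorem sub (ha : v a ≤ 1) (hb : v b ≤ 1) : ρ (a - b) = ρ a - ρ b := by
  rw [sub_eq_add_neg, h.add a (-b) ha (by simpa using hb), h.neg hb, sub_eq_add_neg]

theorem pow (ha : v a ≤ 1) (m : ℕ) : ρ (a ^ m) = ρ a ^ m := by
  induction m with
  | zero => simpa using h.one
  | succ m ih => rw [pow_succ, h.mul _ _ (by rw [map_pow]; exact pow_le_one' ha m) ha, ih, pow_succ]

theorem eq_iff (ha : v a ≤ 1) (hb : v b ≤ 1) : ρ a = ρ b ↔ v (a - b) < 1 := by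
  rw [← h.ker _ (v.map_sub_le ha hb), h.sub ha hb, sub_eq_zero]

theorem ne_zero_iff (ha : v a ≤ 1) : ρ a ≠ 0 ↔ v a = 1 := by
  rw [Ne, h.ker a ha, not_lt]
  exact ⟨fun e => le_antisymm ha e, fun e => e.ge⟩

theorem inv (ha : v a = 1) : ρ a⁻¹ = (ρ a)⁻¹ := by
  have h0 : a ≠ 0 := fun e => by simp [e] at ha
  have := h.mul a a⁻¹ ha.le (by simp [ha])
  rw [mul_inv_cancel₀ h0, h.one] at this
  exact eq_inv_of_mul_eq_one_right this.symm

/-- the residue map as a homomorphism on the valuation ring -/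
def hom : vsub h.int →ₐ[O] κ where
  toFun a := ρ a
  map_one' := h.one
  map_mul' a b := h.mul _ _ a.2 b.2
  map_zero' := h.zero
  map_add' a b := h.add _ _ a.2 b.2
  commutes' := h.const

theorem aeval {x : Fin n → K} (hx : Int v x) (f : MvPolynomial (Fin n) O) :
    ρ (aeval x f) = MvPolynomial.aeval (fun i => ρ (x i)) f := by
  have a1 := aeval_hom h.hom (fun i => ⟨x i, hx i⟩) f
  have a2 := aeval_hom (vsub h.int).val (fun i => ⟨x i, hx i⟩) f
  exact (congrArg ρ a2).trans a1.symm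

theorem pol {x u : Fin n → K} (hx : Int v x) (hu : Int v u) (f : MvPolynomial (Fin n) O) :
    ρ (pol f x u) = CU.pol f (fun i => ρ (x i)) fun i => ρ (u i) := by
  have a1 := pol_hom h.hom (fun i => ⟨x i, hx i⟩) (fun i => ⟨u i, hu i⟩) f
  have a2 := pol_hom (vsub h.int).val (fun i => ⟨x i, hx i⟩) (fun i => ⟨u i, hu i⟩) f
  exact (congrArg ρ a2).trans a1.symm

theorem hs {x u u' : Fin n → K} (hx : Int v x) (hu : Int v u) (hu' : Int v u')
    (f : MvPolynomial (Fin n) O) :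
    ρ (hs f x u u') = CU.hs f (fun i => ρ (x i)) (fun i => ρ (u i)) fun i => ρ (u' i) := by
  have a1 := hs_hom h.hom (fun i => ⟨x i, hx i⟩) (fun i => ⟨u i, hu i⟩) (fun i => ⟨u' i, hu' i⟩) f
  have a2 := hs_hom (vsub h.int).val (fun i => ⟨x i, hx i⟩) (fun i => ⟨u i, hu i⟩)
    (fun i => ⟨u' i, hu' i⟩) f
  exact (congrArg ρ a2).trans a1.symm

theorem Q (D : Dat O) {c y : Fin 3 → K} (hc : Int v c) (hy : Int v y) :
    ρ (D.Q c y) = D.Q (fun i => ρ (c i)) fun i => ρ (y i) := by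
  have a1 := D.Q_hom h.hom (fun i => ⟨c i, hc i⟩) (fun i => ⟨y i, hy i⟩)
  have a2 := D.Q_hom (vsub h.int).val (fun i => ⟨c i, hc i⟩) (fun i => ⟨y i, hy i⟩)
  exact (congrArg ρ a2).trans a1.symm

theorem B (D : Dat O) {c y y' : Fin 3 → K} (hc : Int v c) (hy : Int v y) (hy' : Int v y') :
    ρ (D.B c y y') = D.B (fun i => ρ (c i)) (fun i => ρ (y i)) fun i => ρ (y' i) := by
  have a1 := D.B_hom h.hom (fun i => ⟨c i, hc i⟩) (fun i => ⟨y i, hy i⟩) (fun i => ⟨y' i, hy' i⟩)
  have a2 := D.B_hom (vsub h.int).val (fun i => ⟨c i, hc i⟩) (fun i => ⟨y i, hy i⟩)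
    (fun i => ⟨y' i, hy' i⟩)
  exact (congrArg ρ a2).trans a1.symm

theorem pt {c y : Fin 3 → K} (hc : Int v c) (hy : Int v y) :
    Int v (pt c y) ∧ (fun i => ρ (pt c y i)) = CU.pt (fun i => ρ (c i)) fun i => ρ (y i) := by
  have m : ∀ i, v (y 2 * c i) ≤ 1 := fun i => by rw [map_mul]; exact mul_le_one' (hy 2) (hc i)
  refine ⟨fun i => ?_, funext fun i => ?_⟩ <;> fin_cases i
  exacts [m 0, m 1, m 2, hy 0, hy 1, h.mul _ _ (hy 2) (hc 0), h.mul _ _ (hy 2) (hc 1),
    h.mul _ _ (hy 2) (hc 2), rfl, rfl]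

theorem exists_unif : ∃ π : K, v π = exp (-1) := h.onto _

theorem lift (y : Fin n → κ) : ∃ x : Fin n → K, Int v x ∧ (fun i => ρ (x i)) = y := by
  choose x h1 h2 using fun i => h.surj (y i)
  exact ⟨x, h1, funext h2⟩

end Red

theorem Red.plc {k K κ : Type} [Field k] [Field K] [Field κ] [Algebra k K] [Algebra k κ]
    {v : Valuation K ℤᵐ⁰} {ρ : K → κ} (h : Red k v ρ) : Plc k v := ⟨h.onto, h.int⟩

end Pool.Agent.P.MP_b8021b_nt.CU
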