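import Pool.Agent.P.MP_b8021b_nt.Defs

/-! Cubic threefolds that contain a line, and their discriminant quintic. -/

open scoped LinearAlgebra.Projectivization

namespace Pool.Agent.P.MP_b8021b_nt.CU

open MvPolynomial NumberField

noncomputable section

/-- Six forms in `x₀, x₁, x₂` of degrees `1, 1, 1, 2, 2, 3`. -/
structure Dat (O : Type) [CommRing O] where
  /-- coefficient of `y₁²` -/
  l₁ : MvPolynomial (Fin 3) O
  /-- coefficient of `y₁y₂` -/
  l₂ : MvPolynomial (Fin 3) O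
  /-- coefficient of `y₂²` -/
  l₃ : MvPolynomial (Fin 3) O
  /-- coefficient of `y₁` -/
  q₁ : MvPolynomial (Fin 3) O
  /-- coefficient of `y₂` -/
  q₂ : MvPolynomial (Fin 3) O
  /-- the part free of `y₁, y₂` -/
  c : MvPolynomial (Fin 3) O
  hl₁ : l₁.IsHomogeneous 1
  hl₂ : l₂.IsHomogeneous 1
  hl₃ : l₃.IsHomogeneous 1
  hq₁ : q₁.IsHomogeneous 2
  hq₂ : q₂.IsHomogeneous 2
  hc : c.IsHomogeneous 3

variable {O : Type} [CommRing O]

/-- A form in `x₀, x₁, x₂` as a form in `x₀, x₁, x₂, y₁, y₂`. -/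
def up (f : MvPolynomial (Fin 3) O) : MvPolynomial (Fin 5) O := rename ![0, 1, 2] f

/-- The cubic form `l₁y₁² + l₂y₁y₂ + l₃y₂² + q₁y₁ + q₂y₂ + c` with `y₁ = X 3`, `y₂ = X 4`. -/
def Dat.F (D : Dat O) : MvPolynomial (Fin 5) O :=
  up D.l₁ * X 3 ^ 2 + up D.l₂ * X 3 * X 4 + up D.l₃ * X 4 ^ 2 + up D.q₁ * X 3 + up D.q₂ * X 4
    + up D.c

/-- The discriminant quintic: half the determinant of the Gram matrix of the residual conic. -/
def Dat.δ (D : Dat O) : MvPolynomial (Fin 3) O :=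
  4 * D.l₁ * D.l₃ * D.c + D.l₂ * D.q₁ * D.q₂ - D.l₁ * D.q₂ ^ 2 - D.l₃ * D.q₁ ^ 2 - D.c * D.l₂ ^ 2

/-- The vector `x` represents a singular point of the plane curve `f = 0` over `Ω`. -/
def IsSing {Ω : Type} [Field Ω] [Algebra O Ω] (f : MvPolynomial (Fin 3) O) (x : Fin 3 → Ω) : Prop :=
  x ≠ 0 ∧ aeval x f = 0 ∧ ∀ i, aeval x (pderiv i f) = 0

/-- Over `Ω` the plane curve `f = 0` has at most `N` singular points, and they are nodes: the
Hessian matrix has rank two there. -/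
def Nodal (f : MvPolynomial (Fin 3) O) (N : ℕ) (Ω : Type) [Field Ω] [Algebra O Ω] : Prop :=
  (∃ S : Finset (Fin 3 → Ω), S.card ≤ N ∧ ∀ x, IsSing f x → ∃ s ∈ S, ∃ a : Ω, x = a • s) ∧
    ∀ x : Fin 3 → Ω, IsSing f x →
      (Matrix.of fun i j => aeval x (pderiv i (pderiv j f))).rank = 2

/-- The geometric points of the cubic threefold `F = 0` in `ℙ⁴`. -/
def Dat.pts {k : IntermediateField ℚ (AlgebraicClosure ℚ)} (D : Dat (𝓞 k)) :
    Set (ℙ (AlgebraicClosure ℚ) (Fin (4 + 1) → AlgebraicClosure ℚ)) :=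
  {x | aeval x.rep D.F = 0}

end

end Pool.Agent.P.MP_b8021b_nt.CU
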