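import Pool.Agent.P.MP_b8021b_nt.CU.Basic

/-! The hypotheses on the quintic in working form. -/

namespace Pool.Agent.P.MP_b8021b_nt.CU

open MvPolynomial

namespace HyP

theorem rank_le {K : Type} [Field K] (A : Matrix (Fin 3) (Fin 3) K)
    (h : ∀ i j i' j', A i j * A i' j' = A i j' * A i' j) : A.rank ≤ 1 := by
  by_cases h0 : ∃ i j, A i j ≠ 0
  · obtain ⟨i, j, hij⟩ := h0
    have e : A = Matrix.vecMulVec (fun a => A a j / A i j) (fun b => A i b) := by
      ext a b
      rw [Matrix.vecMulVec_apply, div_mul_eq_mul_div, eq_div_iff hij, h a b i j]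
    rw [e]
    exact Matrix.rank_vecMulVec_le _ _
  · have e : A = 0 := by
      ext i j
      by_contra h1
      exact h0 ⟨i, j, h1⟩
    rw [e, Matrix.rank_zero]
    exact zero_le_one

theorem sing_map {O κ Ω : Type} [CommRing O] [Field κ] [Field Ω] [Algebra O κ] [Algebra O Ω]
    [Algebra κ Ω] [IsScalarTower O κ Ω] {f : MvPolynomial (Fin 3) O} {x : Fin 3 → κ}
    (h : IsSing f x) : IsSing f fun i => algebraMap κ Ω (x i) :=
  ⟨fun e => h.1 (funext fun i => (algebraMap κ Ω).injective
      ((congrFun e i).trans (map_zero _).symm)),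
    by rw [aeval_alg, h.2.1, map_zero], fun i => by rw [aeval_alg, h.2.2 i, map_zero]⟩

end HyP

theorem p_hy : S_Hy := by
  intro O _ D M N hM h
  refine ⟨hM, fun Ω _ _ _ => ?_, fun κ _ _ x hx => ?_, fun κ _ _ x h0 hx => ?_⟩
  · classical
    obtain ⟨S, h1, h2⟩ := (h Ω).1.1
    refine ⟨S.filter (IsSing D.δ), (Finset.card_filter_le _ _).trans h1,
      fun s hs => (Finset.mem_filter.1 hs).2, fun x hx => ?_⟩
    obtain ⟨s, hs, a, rfl⟩ := h2 x hx
    have ha : a ≠ 0 := left_ne_zero_of_smul hx.1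
    refine ⟨s, Finset.mem_filter.2 ⟨hs, right_ne_zero_of_smul hx.1, ?_, fun i => ?_⟩, a, rfl⟩
    · have := hx.2.1
      rw [aeval_smul D.hδ] at this
      exact (mul_eq_zero.1 this).resolve_left (pow_ne_zero _ ha)
    · have := hx.2.2 i
      rw [aeval_smul D.hδ.pderiv] at this
      exact (mul_eq_zero.1 this).resolve_left (pow_ne_zero _ ha)
  · by_contra hc
    push Not at hc
    have h1 := (h (AlgebraicClosure κ)).1.2 _ (HyP.sing_map hx)
    have h2 := HyP.rank_le (Matrix.of fun i j =>
      aeval (fun i => algebraMap κ (AlgebraicClosure κ) (x i)) (pderiv i (pderiv j D.δ)))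
      fun i j i' j' => by
        simp only [Matrix.of_apply, aeval_alg, ← map_mul, hc i j i' j']
    omega
  · refine (h (AlgebraicClosure κ)).2 (fun e => h0 ?_) _ (HyP.sing_map hx)
    exact (algebraMap κ (AlgebraicClosure κ)).injective (by rw [map_natCast, e, map_zero])

end Pool.Agent.P.MP_b8021b_nt.CU
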