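import Pool.Agent.P.MP_b8021b_nt.CU.POrb
import Pool.Agent.P.MP_b8021b_nt.CU.PHy

/-! From points to cycles. -/

namespace Pool.Agent.P.MP_b8021b_nt.CU

open NumberField

theorem fin (hAll : S_All) (k : IntermediateField ℚ (AlgebraicClosure ℚ)) [FiniteDimensional ℚ k]
    (hk : ∃ (a : k) (n : ℕ), 0 < n ∧ a ^ 2 = -n) (D : Dat (𝓞 k)) (M N : ℕ) (hM : Odd M)
    (h : ∀ (Ω : Type) [Field Ω] [IsAlgClosed Ω] [Algebra (𝓞 k) Ω],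
      Nodal D.δ N Ω ∧ ((M : Ω) ≠ 0 → ∀ x : Fin 3 → Ω, ¬ IsSing D.δ x))
    (Z : D.pts →₀ ℤ) (hZ : GaloisInvariant k Z) (h0 : (Z.sum fun _ m => m) = 0) :
    Z ∈ ratTrivialOver k D.pts := by
  have : NumberField k := ⟨⟩
  obtain ⟨C, o, hC⟩ := p_br k D
  obtain ⟨a, n, hn, ha⟩ := hk
  refine p_orb k D _ o (fun K _ _ _ ξ x h1 h2 => ?_) Z hZ h0
  rw [← QuotientAddGroup.eq_zero_iff, ← hC K ξ x h2]
  exact hAll k K _ D C M N ξ ⟨-n, by omega, a, by simpa using ha⟩ (p_hy _ D M N hM h)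
    ((D.On_map ξ).1 h1)

end Pool.Agent.P.MP_b8021b_nt.CU
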