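import Pool.Agent.P.MP_b8021b_nt.CU.BasicV

/-! Every point has class zero. -/

namespace Pool.Agent.P.MP_b8021b_nt.CU

open NumberField Module Polynomial
open Pool.Agent.P.MP_b8021b_nt.CH (IQc)

namespace AllP

theorem odd_factor {K : Type} [Field K] : ∀ (n : ℕ) (g : K[X]), g.natDegree = n → Odd n →
    ∃ p : K[X], Irreducible p ∧ p ∣ g ∧ Odd p.natDegree := by
  intro n
  induction n using Nat.strong_induction_on with
  | _ n ih =>
    intro g hg hn
    have h0 : g ≠ 0 := fun e => by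
      rw [e, natDegree_zero] at hg
      exact absurd (hg ▸ hn) (by decide)
    obtain ⟨p, hp, q, rfl⟩ := exists_irreducible_of_natDegree_pos (f := g) (hg ▸ hn.pos)
    rw [natDegree_mul (left_ne_zero_of_mul h0) (right_ne_zero_of_mul h0)] at hg
    by_cases h : Odd p.natDegree
    · exact ⟨p, hp, dvd_mul_right _ _, h⟩
    · have := hp.natDegree_pos
      obtain ⟨r, h1, h2, h3⟩ := ih _ (by omega) q rfl (by grind)
      exact ⟨r, h1, h2.mul_left _, h3⟩

theorem exists_big (K : Type) [Field K] (n : ℕ) (hn : 2 ≤ n) :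
    ∃ (L : Type) (_ : Field L) (_ : Algebra K L), Odd (finrank K L) ∧ Big L n := by
  have h2 : Even n.factorial := (Nat.dvd_factorial two_pos hn).elim fun c hc => ⟨c, by omega⟩
  have h1 := n.factorial_pos
  have hd : (X ^ (n.factorial + 1) - X + 1 : K[X]).natDegree = n.factorial + 1 := by
    rw [← C_1, natDegree_add_C, natDegree_sub_eq_left_of_natDegree_lt, natDegree_X_pow]
    rw [natDegree_X, natDegree_X_pow]
    omega
  obtain ⟨p, hp, hq, ho⟩ := odd_factor _ _ hd h2.add_one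
  have : Fact (Irreducible p) := ⟨hp⟩
  refine ⟨AdjoinRoot p, inferInstance, inferInstance, ?_, AdjoinRoot.root p, ?_⟩
  · rwa [(AdjoinRoot.powerBasis hp.ne_zero).finrank, AdjoinRoot.powerBasis_dim]
  · have := aeval_eq_zero_of_dvd_aeval_eq_zero hq (x := AdjoinRoot.root p) (by simp)
    simpa using this

theorem exists_sqrt (L : Type) [Field L] (d : L) (hd : ∀ r : L, r ^ 2 ≠ d) :
    ∃ (F : Type) (_ : Field F) (_ : Algebra L F) (ω : F), finrank L F = 2 ∧
      ω ^ 2 = algebraMap L F d := by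
  have hp : Irreducible (X ^ 2 - C d) := X_pow_sub_C_irreducible_of_prime Nat.prime_two hd
  have : Fact (Irreducible (X ^ 2 - C d)) := ⟨hp⟩
  refine ⟨AdjoinRoot (X ^ 2 - C d), inferInstance, inferInstance, AdjoinRoot.root _, ?_,
    root_X_pow_sub_C_pow 2 d⟩
  rw [(AdjoinRoot.powerBasis hp.ne_zero).finrank, AdjoinRoot.powerBasis_dim, natDegree_X_pow_sub_C]

end AllP

open AllP in
theorem p_all (hMT : S_MT) (hMov : S_Mov) (hLS : S_LS) (hF2 : S_F2) (hF3 : S_F3) (hB : S_Base) :
    S_All := by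
  intro k K A _ _ _ _ _ _ D C M N ξ hq hy hξ
  have base : ∀ (L : Type) [Field L] [Algebra k L] [FiniteDimensional k L],
      ∃ C' : CF (D.map (algebraMap (𝓞 k) L)) A, ∀ (F : Type) [Field F] [Algebra k F] [Algebra L F]
        [IsScalarTower k L F] (η : Fin 5 → F), C'.cl F η = C.cl F η := fun L _ _ _ => by
    have := hB k L A _ C
    rwa [D.map_map, ← IsScalarTower.algebraMap_eq] at this
  by_cases hb : bs ξ = 0
  · exact (hF2 k A _ C K).1 ξ hξ.1 hb
  have hfb : ∀ {L : Type} [Field L] (x : Fin 5 → L), fb x ≠ 0 := fun x e =>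
    one_ne_zero (congrFun e 2)
  have two : 2 • C.cl K ξ = 0 := by
    have : CharZero K := charZero_of_injective_algebraMap (algebraMap k K).injective
    obtain ⟨C', hC⟩ := base K
    have := (hF3 K A _ C' (bs ξ) hb).1 (fb ξ) (hfb ξ) (by rw [D.Q_map, ← D.F_eq]; exact hξ.2)
    rwa [pt_bs_fb, hC] at this
  obtain ⟨L, _, _, ho, hbig⟩ := exists_big K (4 * N + 40) (by omega)
  have : FiniteDimensional K L := Module.finite_of_finrank_pos ho.pos
  let _ : Algebra k L := ((algebraMap K L).comp (algebraMap k K)).toAlgebra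
  have : IsScalarTower k K L := .of_algebraMap_eq fun _ => rfl
  have : FiniteDimensional k L := Module.Finite.trans K L
  have : NumberField L := NumberField.of_module_finite k L
  have e := C.ext K L (IsScalarTower.toAlgHom k K L) (finrank K L) ξ ((D.On_map ξ).2 hξ)
    (by rw [mul_comm, finrank_mul_finrank])
  set x : Fin 5 → L := fun i => IsScalarTower.toAlgHom k K L (ξ i) with hx
  have hon : D.On x := ⟨fun e => hξ.1 (funext fun i => (map_eq_zero _).1 (congrFun e i)), by
    have := aeval_hom ((IsScalarTower.toAlgHom k K L).restrictScalars (𝓞 k)) ξ D.F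
    rw [hξ.2, map_zero] at this
    exact this⟩
  suffices h : C.cl L x = 0 by
    obtain ⟨m, hm⟩ := ho
    rw [h, hm, add_smul, mul_comm, mul_smul, two, smul_zero, zero_add, one_smul] at e
    exact e.symm
  clear_value x
  by_cases hb : bs x = 0
  · exact (hF2 k A _ C L).1 x hon.1 hb
  by_cases ha : D.Ani (bs x)
  swap
  · obtain ⟨y₁, y₂, h1, h2⟩ : ∃ y₁ y₂ : L, D.Q (bs x) ![y₁, y₂, 0] = 0 ∧ ¬ (y₁ = 0 ∧ y₂ = 0) := by
      simpa only [Dat.Ani, not_forall, exists_prop] using ha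
    have h3 : (![y₁, y₂, 0] : Fin 3 → L) ≠ 0 := fun e => h2 ⟨congrFun e 0, congrFun e 1⟩
    have := (hF2 k A _ C L).2 (bs x) (fb x) _ hb (hfb x) h3
      (by rw [D.Q_map, ← D.F_eq]; exact hon.2) (by rw [D.Q_map]; exact h1)
    rw [pt_bs_fb] at this
    rw [this]
    exact (hF2 k A _ C L).1 _ (pt_ne_zero hb h3) (by rw [bs_pt]; simp)
  obtain ⟨u, h1, h2, h3⟩ := hMov k L D M (4 * N + 20) x ⟨hy.odd, fun Ω _ _ _ =>
    (hy.fin Ω).imp fun S h => ⟨h.1.trans (by omega), h.2⟩, hy.mn, hy.sm⟩ hbig hon hb ha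
  obtain ⟨C', hC⟩ := base L
  have hp := hLS L A _ C' x u ((D.On_map x).2 hon) hb ((D.Ani_map _).2 ha)
    (by rwa [D.F_map]) (by rwa [D.Dl_map])
  rw [D.Dl_map, D.res_map, hC] at hp
  by_cases hs : ∃ r : L, r ^ 2 = D.Dl x u
  · obtain ⟨r, hr⟩ := hs
    obtain ⟨a1, a2, a3⟩ := h3 L r hr (D.res x u 0 + r • u) rfl
    obtain ⟨b1, b2, b3⟩ := h3 L (-r) (by rw [neg_sq]; exact hr) (D.res x u 0 - r • u)
      (funext fun i => by simp [sub_eq_add_neg])
    rw [hp.1 r hr, hC, hC, hMT k L A D C M N _ hq hy hbig a1 a2 a3,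
      hMT k L A D C M N _ hq hy hbig b1 b2 b3, add_zero]
  · push Not at hs
    obtain ⟨F, _, _, ω, hF, hω⟩ := exists_sqrt L _ hs
    have : FiniteDimensional L F := Module.finite_of_finrank_pos (by omega)
    let _ : Algebra k F := ((algebraMap L F).comp (algebraMap k L)).toAlgebra
    have : IsScalarTower k L F := .of_algebraMap_eq fun _ => rfl
    have : NumberField F := NumberField.of_module_finite L F
    obtain ⟨a1, a2, a3⟩ := h3 F ω hω _ rfl
    obtain ⟨a, ha⟩ := hbig
    rw [hp.2 F ω hF hω hs, hC]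
    exact hMT k F A D C M N _ hq hy ⟨algebraMap L F a, by
      simpa using congrArg (algebraMap L F) ha⟩ a1 a2 a3

end Pool.Agent.P.MP_b8021b_nt.CU
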