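import Pool.Agent.P.MP_b8021b_nt.CU.BasicV

/-! Change of the base field. -/

open scoped WithZero IntermediateField

namespace Pool.Agent.P.MP_b8021b_nt.CU

open Module

namespace BaseP

variable {k L K : Type} [Field k] [Field L] [Field K] [Algebra k L] [Algebra L K] [Algebra k K]
  [IsScalarTower k L K] [FiniteDimensional k L]

theorem curve (h : CurveField L K) : CurveField k K := by
  obtain ⟨t, ht, hf⟩ := h
  refine ⟨t, ht.of_tower_top k, ?_⟩
  obtain ⟨s, hs⟩ := hf.fg_top
  obtain ⟨b, hb⟩ := (inferInstance : Module.Finite k L).fg_top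
  let E := IntermediateField.adjoin k⟮t⟯ (algebraMap L K '' b)
  have : FiniteDimensional k⟮t⟯ E := IntermediateField.finiteDimensional_adjoin <| by
    rintro _ ⟨c, -, rfl⟩
    exact ((Algebra.IsIntegral.isIntegral (R := k) c).map
      (IsScalarTower.toAlgHom k L K)).tower_top
  have h1 : ∀ c : L, algebraMap L K c ∈ E := fun c => by
    have hc : c ∈ Submodule.span k (b : Set L) := hb ▸ Submodule.mem_top
    induction hc using Submodule.span_induction with
    | mem x hx => exact IntermediateField.subset_adjoin _ _ ⟨x, hx, rfl⟩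
    | zero => simp
    | add x y _ _ hx hy => rw [map_add]; exact add_mem hx hy
    | smul a x _ hx =>
      rw [Algebra.smul_def, map_mul, ← IsScalarTower.algebraMap_apply]
      exact mul_mem (E.algebraMap_mem ⟨_, k⟮t⟯.algebraMap_mem a⟩) hx
  have h2 : L⟮t⟯ ≤ E.toSubfield.toIntermediateField h1 :=
    IntermediateField.adjoin_simple_le_iff.2
      (E.algebraMap_mem ⟨_, IntermediateField.mem_adjoin_simple_self k t⟩)
  have : FiniteDimensional E K := by
    refine ⟨s, eq_top_iff.2 fun x _ => ?_⟩
    have hx : x ∈ Submodule.span L⟮t⟯ (s : Set K) := hs ▸ Submodule.mem_top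
    induction hx using Submodule.span_induction with
    | mem x hx => exact Submodule.subset_span hx
    | zero => exact zero_mem _
    | add x y _ _ hx hy => exact add_mem (hx trivial) (hy trivial)
    | smul a x _ hx => exact Submodule.smul_mem _ (⟨a, h2 a.2⟩ : E) (hx trivial)
  exact Module.Finite.trans E K

theorem plc {v : Valuation K ℤᵐ⁰} (h : Plc k v) : Plc L v := by
  refine ⟨h.1, fun c => ?_⟩
  let _ : Algebra k v.integer := ((algebraMap k K).codRestrict v.integer h.2).toAlgebra
  have : IsScalarTower k v.integer K := .of_algebraMap_eq fun _ => rfl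
  exact (Valuation.integer.integers v).mem_of_integral
    (((Algebra.IsIntegral.isIntegral (R := k) c).map (IsScalarTower.toAlgHom k L K)).tower_top)

/-- the structure over the small field -/
abbrev alg (k L K : Type) [Field k] [Field L] [Field K] [Algebra k L] [Algebra L K] :
    Algebra k K := ((algebraMap L K).comp (algebraMap k L)).toAlgebra

theorem tow (k L K : Type) [Field k] [Field L] [Field K] [Algebra k L] [Algebra L K] :
    letI := alg k L K
    IsScalarTower k L K :=
  letI := alg k L K
  .of_algebraMap_eq fun _ => rfl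

end BaseP

open BaseP in
theorem p_base : S_Base := by
  intro k L A _ _ _ _ _ D C
  refine ⟨⟨fun K _ _ ξ => @C.cl K _ (alg k L K) ξ, fun K K' _ _ _ _ _ j f ξ h hf => ?_,
    fun K _ _ _ a ξ ha h => ?_, ?_, fun K _ _ hK η f S γ h hf hS hγ => ?_⟩,
    fun K _ i _ _ ξ => ?_⟩
  · let _ := alg k L K
    let _ := alg k L K'
    have := tow k L K
    have := tow k L K'
    have : FiniteDimensional k K' := Module.Finite.trans L K'
    exact C.ext K K' (j.restrictScalars k) f ξ ((D.On_map ξ).1 h) (by
      rw [← finrank_mul_finrank k L K', ← finrank_mul_finrank k L K, hf]; ring)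
  · let _ := alg k L K
    have := tow k L K
    have : FiniteDimensional k K := Module.Finite.trans L K
    exact C.smul K a ξ ha ((D.On_map ξ).1 h)
  · have e0 : alg k L L = ‹Algebra k L› := Algebra.algebra_ext _ _ fun _ => rfl
    have e : (![0, 0, 0, 1, 0] : Fin 5 → k) = pt ![1, 0, 0] ![1, 0, 0] := by simp [pt]
    have := C.ext k L (Algebra.ofId k L) (finrank k L) ![0, 0, 0, 1, 0]
      ⟨fun h => one_ne_zero (congrFun h 3), by rw [e, D.F_pt]; simp⟩ (by simp)
    rw [C.base, smul_zero] at this
    rw [← this, e0]
    congr 1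
    funext i
    fin_cases i <;> simp
  · let _ := alg k L K
    have := tow k L K
    refine C.div K (curve hK) η f S γ ((D.On_map η).1 h) hf (fun v hv => hS v (plc hv))
      fun v hv => ?_
    obtain ⟨κ, _, _, ρ, c, _, hr, h1, h2, h3⟩ := hγ v hv
    let _ := alg k L κ
    have := tow k L κ
    exact ⟨κ, _, _, ρ, c, Module.Finite.trans L κ, ⟨hr.onto, fun c => hr.int _,
      fun c => hr.const _, hr.add, hr.mul, hr.ker, hr.surj⟩, h1, h2, h3⟩
  · obtain rfl : i = alg k L K :=
      Algebra.algebra_ext _ _ fun r => IsScalarTower.algebraMap_apply k L K r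
    rfl

end Pool.Agent.P.MP_b8021b_nt.CU
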