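import Pool.Agent.P.MP_b8021b_nt.CU.St

/-! A generic choice on a grid. -/

namespace Pool.Agent.P.MP_b8021b_nt.CU

open MvPolynomial

theorem p_cho : S_Cho := by
  intro Ω _ n d T P A hT hP hd hA
  let l : (Fin n → Ω) × Ω → MvPolynomial (Fin n) Ω := fun a => ∑ i, C (a.1 i) * X i + C a.2
  have ev : ∀ a x, eval x (l a) = a.1 ⬝ᵥ x + a.2 := fun a x => by simp [l, dotProduct]
  have h0 : ∀ a ∈ A, l a ≠ 0 := fun a ha e => by
    have h1 : a.2 = 0 := by simpa [e] using (ev a 0).symm
    refine (hA a ha).elim (fun h => h (funext fun i => ?_)) fun h => h h1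
    simpa [e, h1] using (ev a (Pi.single i 1)).symm
  have h1 : ∀ a, (l a).totalDegree ≤ 1 := fun a =>
    (totalDegree_add _ _).trans (max_le ((totalDegree_finsetSum _ _).trans (Finset.sup_le
      fun i _ => (totalDegree_mul _ _).trans (by simp))) (by simp))
  have h2 : (P * ∏ a ∈ A, l a).totalDegree ≤ d :=
    (totalDegree_mul _ _).trans ((Nat.add_le_add_left ((totalDegree_finsetProd _ _).trans
      ((Finset.sum_le_card_nsmul _ _ 1 fun a _ => h1 a).trans (by simp))) _).trans hd)
  by_contra h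
  push Not at h
  refine mul_ne_zero hP (Finset.prod_ne_zero_iff.2 h0)
    (eq_zero_of_eval_zero_at_prod_finset _ T
      (fun i => ((degreeOf_le_totalDegree _ i).trans h2).trans_lt (hT i)) fun x hx => ?_)
  rw [map_mul, map_prod]
  by_cases e : eval x P = 0
  · rw [e, zero_mul]
  · obtain ⟨a, ha, e'⟩ := h x hx e
    rw [Finset.prod_eq_zero ha ((ev a x).trans e'), mul_zero]

end Pool.Agent.P.MP_b8021b_nt.CU
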