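import Pool.Agent.P.MP_b8021b_nt.CU.Basic

/-! Points of the line, and two points of one conic. -/

namespace Pool.Agent.P.MP_b8021b_nt.CU

open MvPolynomial Module
open Pool.Agent.P.MP_b8021b_nt.CH (Qf)

namespace PF2

variable {k A : Type} [Field k] [CharZero k] [AddCommGroup A] {D : Dat k}

theorem comb (h1 : S_R1) (C : CF D A) {x x' : Fin 5 → k} (x'' : Fin 5 → k) (a b c : Polynomial k)
    (h : ∀ r, aeval (a.eval r • x + b.eval r • x' + c.eval r • x'') D.F = 0)
    (a0 : a.eval 0 ≠ 0) (b0 : b.eval 0 = 0) (c0 : c.eval 0 = 0) (a1 : a.eval 1 = 0)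
    (b1 : b.eval 1 ≠ 0) (c1 : c.eval 1 = 0) (hx : D.On x) (hx' : D.On x') :
    C.cl k x = C.cl k x' := by
  let η : Fin 5 → Polynomial k := fun i =>
    a * Polynomial.C (x i) + b * Polynomial.C (x' i) + c * Polynomial.C (x'' i)
  have e : ∀ r, (fun i => (η i).eval r) = a.eval r • x + b.eval r • x' + c.eval r • x'' :=
    fun r => funext fun i => by simp [η]
  have e0 : (fun i => (η i).eval 0) = a.eval 0 • x := by rw [e, b0, c0]; simp
  have e1 : (fun i => (η i).eval 1) = b.eval 1 • x' := by rw [e, a1, c1]; simp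
  have hF : aeval η D.F = 0 := Polynomial.funext fun r => by
    have := aeval_hom (Polynomial.aeval r : Polynomial k →ₐ[k] k) η D.F
    simp only [Polynomial.coe_aeval_eq_eval] at this
    rw [← this, e, h, Polynomial.eval_zero]
  have := h1 k A D C η hF (by rw [e0]; exact smul_ne_zero a0 hx.1)
    (by rw [e1]; exact smul_ne_zero b1 hx'.1)
  rwa [e0, e1, C.smul k _ _ a0 hx, C.smul k _ _ b1 hx'] at this

theorem seg (h1 : S_R1) (C : CF D A) {x x' : Fin 5 → k}
    (h : ∀ s t : k, aeval (s • x + t • x') D.F = 0) (hx : D.On x) (hx' : D.On x') :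
    C.cl k x = C.cl k x' :=
  comb h1 C 0 (1 - Polynomial.X) Polynomial.X 0 (fun r => by rw [smul_zero, add_zero, h])
    (by simp) (by simp) (by simp) (by simp) (by simp) (by simp) hx hx'

omit [CharZero k] in
theorem F_line {ξ : Fin 5 → k} (h : bs ξ = 0) : aeval ξ D.F = 0 := by
  rw [D.F_eq, h, ← zero_smul k (0 : Fin 3 → k), fb, D.Q_smul, zero_mul]

theorem line (h1 : S_R1) (C : CF D A) {ξ : Fin 5 → k} (h0 : ξ ≠ 0) (h : bs ξ = 0) :
    C.cl k ξ = 0 := by
  have e : bs (![0, 0, 0, 1, 0] : Fin 5 → k) = 0 := by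
    funext i; fin_cases i <;> rfl
  rw [← C.base]
  refine seg h1 C (fun s t => F_line ?_) ⟨h0, F_line h⟩
    ⟨fun e => one_ne_zero (congrFun e 3), F_line e⟩
  have h0 : ξ 0 = 0 := congrFun h 0
  have h1 : ξ 1 = 0 := congrFun h 1
  have h2 : ξ 2 = 0 := congrFun h 2
  funext i
  fin_cases i <;> simp [bs, h0, h1, h2]

theorem perp (h1 : S_R1) (C : CF D A) {b y y' : Fin 3 → k} (hb : b ≠ 0) (hy : y ≠ 0) (hy' : y' ≠ 0)
    (q : D.Q b y = 0) (q' : D.Q b y' = 0) (hB : D.B b y y' = 0) :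
    C.cl k (pt b y) = C.cl k (pt b y') :=
  seg h1 C (fun s t => by
    rw [← pt_smul, ← pt_smul, ← pt_add, D.F_pt, D.Q_lin, q, q', hB]; ring)
    (D.on_pt hb hy q) (D.on_pt hb hy' q')

omit [CharZero k] in
theorem ex_perp (b y y' : Fin 3 → k) : ∃ w, w ≠ 0 ∧ D.B b y w = 0 ∧ D.B b y' w = 0 := by
  let f : (Fin 3 → k) →ₗ[k] (k × k) :=
    { toFun := fun w => (D.B b y w, D.B b y' w)
      map_add' := fun u v => by
        simp only [Dat.B_eq, Pi.add_apply, Prod.mk_add_mk, Prod.mk.injEq]; constructor <;> ring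
      map_smul' := fun c u => by
        simp only [Dat.B_eq, Pi.smul_apply, smul_eq_mul, Prod.smul_mk, Prod.mk.injEq,
          RingHom.id_apply]
        constructor <;> ring }
  obtain ⟨w, h, h0⟩ := (Submodule.ne_bot_iff _).1
    (LinearMap.ker_ne_bot_of_finrank_lt (f := f) (by simp))
  exact ⟨w, h0, congrArg Prod.fst h, congrArg Prod.snd h⟩

theorem conic (h1 : S_R1) (C : CF D A) {b y y' : Fin 3 → k} (hb : b ≠ 0) (hy : y ≠ 0)
    (hy' : y' ≠ 0) (q : D.Q b y = 0) (q' : D.Q b y' = 0) : C.cl k (pt b y) = C.cl k (pt b y') := by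
  by_cases hB : D.B b y y' = 0
  · exact perp h1 C hb hy hy' q q' hB
  obtain ⟨w, w0, w1, w2⟩ := ex_perp (D := D) b y y'
  by_cases hw : D.Q b w = 0
  · exact (perp h1 C hb hy w0 q hw w1).trans (perp h1 C hb hy' w0 q' hw w2).symm
  refine comb h1 C (pt b w) (Polynomial.C (-D.Q b w) * (1 - Polynomial.X) ^ 2)
    (Polynomial.C (D.B b y y') * Polynomial.X ^ 2)
    (Polynomial.C (D.B b y y') * (Polynomial.X * (1 - Polynomial.X))) (fun r => ?_)
    (by simpa using hw) (by simp) (by simp) (by simp) (by simpa using hB) (by simp)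
    (D.on_pt hb hy q) (D.on_pt hb hy' q')
  have e : ∀ s t u : k, D.Q b (s • y + t • y' + u • w) = s ^ 2 * D.Q b y + t ^ 2 * D.Q b y' +
      u ^ 2 * D.Q b w + s * t * D.B b y y' + s * u * D.B b y w + t * u * D.B b y' w :=
    fun s t u => by
      simp only [Dat.B_eq, Dat.Q, Qf, Pi.add_apply, Pi.smul_apply, smul_eq_mul]; ring
  rw [← pt_smul, ← pt_smul, ← pt_smul, ← pt_add, ← pt_add, D.F_pt, e, q, q', w1, w2]
  simp only [Polynomial.eval_mul, Polynomial.eval_C, Polynomial.eval_pow, Polynomial.eval_sub,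
    Polynomial.eval_one, Polynomial.eval_X]
  ring

end PF2

theorem p_f2 (h1 : S_R1) (hB : S_Base) : S_F2 := by
  intro k A _ _ _ D C K _ _ _
  have : CharZero K := charZero_of_injective_algebraMap (algebraMap k K).injective
  obtain ⟨C', hC⟩ := hB k K A D C
  refine ⟨fun ξ h0 h => ?_, fun b y y' hb hy hy' q q' => ?_⟩
  · rw [← hC]; exact PF2.line h1 C' h0 h
  · rw [← hC, ← hC]
    exact PF2.conic h1 C' hb hy hy' ((D.Q_map b y).trans q) ((D.Q_map b y').trans q')

end Pool.Agent.P.MP_b8021b_nt.CU
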