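import Pool.Agent.P.MP_b8021b_nt.CU.Basic

/-! Quadratic points of a conic. -/

namespace Pool.Agent.P.MP_b8021b_nt.CU

open MvPolynomial Module
open Pool.Agent.P.MP_b8021b_nt.CH (Qf)

namespace PF3

section Alg

variable {O : Type} [CommRing O] {R R' : Type} [CommRing R] [Algebra O R] [CommRing R']
  [Algebra O R'] (D : Dat O)

/-- the discriminant of the conic on the line through `u` and `w` -/
noncomputable def dd (b u w : Fin 3 → R) : R := D.B b u w ^ 2 - 4 * D.Q b u * D.Q b w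

/-- the point of that line which is conjugate to `u` -/
noncomputable def zz (b u w : Fin 3 → R) : Fin 3 → R :=
  fun i => 2 * D.Q b u * w i - D.B b u w * u i

theorem Q_zz (b u w : Fin 3 → R) (r : R) :
    D.Q b (fun i => zz D b u w i + r * u i) = D.Q b u * (r ^ 2 - dd D b u w) := by
  simp only [zz, dd, Dat.B_eq, Dat.Q, Qf]; ring

theorem B_zz (b u w : Fin 3 → R) : D.B b (zz D b u w) u = 0 := by
  simp only [zz, Dat.B_eq, Dat.Q, Qf]; ring

theorem dd_hom (j : R →ₐ[O] R') (b u w : Fin 3 → R) :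
    dd D (fun i => j (b i)) (fun i => j (u i)) (fun i => j (w i)) = j (dd D b u w) := by
  simp only [dd, Dat.Q_hom, Dat.B_hom, map_sub, map_mul, map_pow, map_ofNat]

theorem zz_hom (j : R →ₐ[O] R') (b u w : Fin 3 → R) :
    zz D (fun i => j (b i)) (fun i => j (u i)) (fun i => j (w i)) = fun i => j (zz D b u w i) := by
  funext i
  simp only [zz, Dat.Q_hom, Dat.B_hom, map_sub, map_mul, map_ofNat]

theorem Q_root (j : R →ₐ[O] R') (b u w : Fin 3 → R) {r : R'} (h : r ^ 2 = j (dd D b u w)) :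
    D.Q (fun i => j (b i)) (fun i => j (zz D b u w i) + r * j (u i)) = 0 := by
  have := Q_zz D (fun i => j (b i)) (fun i => j (u i)) (fun i => j (w i)) r
  rwa [zz_hom, dd_hom, h, sub_self, mul_zero] at this

theorem pt_alg (j : R →ₐ[O] R') (b y : Fin 3 → R) :
    (fun i => j (pt b y i)) = pt (fun i => j (b i)) fun i => j (y i) :=
  (pt_hom (j : R →+* R') b y).symm

theorem pt_lin (j : R →ₐ[O] R') (b z u : Fin 3 → R) (r : R') :
    (fun i => j (pt b z i) + r * j (pt b u i)) =
      pt (fun i => j (b i)) fun i => j (z i) + r * j (u i) := by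
  funext i
  fin_cases i <;> simp [pt] <;> ring

end Alg

variable {k A : Type} [Field k] [AddCommGroup A] {D : Dat k}

theorem indep [CharZero k] {b u w : Fin 3 → k} (hb : b ≠ 0) (h1 : D.Q b u ≠ 0)
    (h2 : dd D b u w ≠ 0) :
    ∃ i j, pt b (zz D b u w) i * pt b u j ≠ pt b (zz D b u w) j * pt b u i := by
  by_contra h
  push Not at h
  have u0 : u ≠ 0 := by rintro rfl; simp [Dat.Q, Qf] at h1
  obtain ⟨j, hj⟩ := Function.ne_iff.1 (pt_ne_zero hb u0)
  obtain ⟨c, hc⟩ : ∃ c : k, zz D b u w + c • u = 0 := by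
    refine ⟨-(pt b (zz D b u w) j / pt b u j), ?_⟩
    by_contra e
    refine pt_ne_zero hb e (funext fun i => ?_)
    have : pt b u j ≠ 0 := hj
    rw [pt_add, pt_smul, Pi.add_apply, Pi.smul_apply, smul_eq_mul, Pi.zero_apply]
    field_simp
    linear_combination h i j
  have a1 := Q_zz D b u w c
  have a2 := B_zz D b u w
  rw [show (fun i => zz D b u w i + c * u i) = 0 from hc] at a1
  rw [eq_neg_of_add_eq_zero_left hc] at a2
  have a3 : 2 * c * D.Q b u = 0 := by
    simp only [Dat.B_eq, Pi.neg_apply, Pi.smul_apply, smul_eq_mul] at a2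
    simp only [Dat.Q, Qf]
    linear_combination -a2
  have a4 : c = 0 := by simpa [h1] using a3
  have a5 : D.Q b 0 = 0 := by simp [Dat.Q, Qf]
  rw [a5, a4] at a1
  simp [h1, h2] at a1

/-- the pairs cut out by two lines -/
theorem fam [CharZero k] (hQ : S_QF) (C : CF D A) {b u w u' w' : Fin 3 → k} (hb : b ≠ 0)
    (h1 : D.Q b u ≠ 0) (h2 : dd D b u w ≠ 0) (h1' : D.Q b u' ≠ 0) (h2' : dd D b u' w' ≠ 0) :
    ∃ γ, C.Pair (dd D b u w) (pt b (zz D b u w)) (pt b u) γ ∧
      C.Pair (dd D b u' w') (pt b (zz D b u' w')) (pt b u') γ := by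
  let B : Fin 3 → Polynomial k := fun i => Polynomial.C (b i)
  let U : Fin 3 → Polynomial k := fun i =>
    Polynomial.C (u i) + Polynomial.X * Polynomial.C (u' i - u i)
  let W : Fin 3 → Polynomial k := fun i =>
    Polynomial.C (w i) + Polynomial.X * Polynomial.C (w' i - w i)
  have ev : ∀ (a : k) (x y : Fin 3 → k), (∀ i, u i + a * (u' i - u i) = x i) →
      (∀ i, w i + a * (w' i - w i) = y i) → (dd D B U W).eval a = dd D b x y ∧
      (fun i => (pt B (zz D B U W) i).eval a) = pt b (zz D b x y) ∧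
      (fun i => (pt B U i).eval a) = pt b x := fun a x y hx hy => by
    have e1 : (fun i => Polynomial.aeval a (B i)) = b := funext fun i => by simp [B]
    have e2 : (fun i => Polynomial.aeval a (U i)) = x := funext fun i => by simp [U, ← hx]
    have e3 : (fun i => Polynomial.aeval a (W i)) = y := funext fun i => by simp [W, ← hy]
    simp only [← Polynomial.coe_aeval_eq_eval]
    rw [← dd_hom, pt_alg, pt_alg, ← zz_hom, e1, e2, e3]
    exact ⟨rfl, rfl, rfl⟩
  obtain ⟨a1, a2, a3⟩ := ev 0 u w (by simp) (by simp)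
  obtain ⟨b1, b2, b3⟩ := ev 1 u' w' (by simp) (by simp)
  have := hQ k A D C (dd D B U W) (pt B (zz D B U W)) (pt B U) (fun K _ _ τ ω h => by
    rw [pt_lin, D.F_pt, Q_root D _ B U W h, mul_zero]) (by
    rintro a (rfl | rfl)
    · obtain ⟨i, j, e⟩ := indep hb h1 h2
      rw [← a2, ← a3] at e
      exact ⟨a1 ▸ h2, i, j, e⟩
    · obtain ⟨i, j, e⟩ := indep hb h1' h2'
      rw [← b2, ← b3] at e
      exact ⟨b1 ▸ h2', i, j, e⟩)
  rwa [a1, a2, a3, b1, b2, b3] at this

theorem quad {d : k} (h : ∀ r : k, r ^ 2 ≠ d) : ∃ (K : Type) (_ : Field K) (_ : Algebra k K)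
    (ω : K), finrank k K = 2 ∧ ω ^ 2 = algebraMap k K d := by
  have : Fact (∀ r : k, r ^ 2 ≠ d + 0 * r) := ⟨by simpa using h⟩
  refine ⟨QuadraticAlgebra k d 0, inferInstance, inferInstance, QuadraticAlgebra.omega,
    QuadraticAlgebra.finrank_eq_two _ _, ?_⟩
  rw [sq, QuadraticAlgebra.omega_mul_omega_eq_add, Algebra.algebraMap_eq_smul_one]
  simp

theorem basis (K : Type) [Field K] [Algebra k K] (h : finrank k K = 2) : ∃ ω : K,
    (∀ a b : k, algebraMap k K a + ω * algebraMap k K b = 0 → a = 0 ∧ b = 0) ∧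
      ∀ x : K, ∃ a b : k, x = algebraMap k K a + ω * algebraMap k K b := by
  have : FiniteDimensional k K := .of_finrank_pos (by omega)
  obtain ⟨ω, hω⟩ : ∃ ω, ω ∉ (⊥ : Subalgebra k K) := by
    by_contra e
    push Not at e
    have := Subalgebra.bot_eq_top_iff_finrank_eq_one.1 (top_unique fun x _ => e x)
    omega
  have li : LinearIndependent k ![1, ω] := (LinearIndependent.pair_iff' one_ne_zero).2
    fun a e => hω (e ▸ Subalgebra.smul_mem _ (one_mem _) a)
  refine ⟨ω, fun a b e => LinearIndependent.pair_iff.1 li a b ?_, fun x => ?_⟩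
  · rw [← e, Algebra.smul_def, Algebra.smul_def]; ring
  · have : x ∈ Submodule.span k (Set.range ![1, ω]) := by
      rw [li.span_eq_top_of_card_eq_finrank' (by simp [h])]; trivial
    rw [Matrix.range_cons, Matrix.range_cons, Matrix.range_empty, Set.union_empty,
      Set.singleton_union, Submodule.mem_span_pair] at this
    obtain ⟨a, b, e⟩ := this
    exact ⟨a, b, by rw [← e, Algebra.smul_def, Algebra.smul_def]; ring⟩

/-- a conic without rational points on the line gets one over a quadratic field -/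
theorem line [CharZero k] {b : Fin 3 → k} (h : ∀ y : Fin 3 → k, y 2 = 0 → D.Q b y = 0 → y = 0) :
    D.Q b ![1, 0, 0] ≠ 0 ∧ (∀ r, r ^ 2 ≠ dd D b ![1, 0, 0] ![0, 1, 0]) ∧
      ∀ (K : Type) [Field K] (j : k →+* K) (ω : K) (y : Fin 3 → K),
        (y = fun i => j (zz D b ![1, 0, 0] ![0, 1, 0] i) + ω * j (![1, 0, 0] i)) →
        y ≠ 0 ∧ y 2 = 0 := by
  have h1 : D.Q b ![1, 0, 0] ≠ 0 := fun e => by simpa using congrFun (h _ rfl e) 0
  refine ⟨h1, fun r e => ?_, ?_⟩
  · have := h _ (by simp [zz]) ((Q_zz D b ![1, 0, 0] ![0, 1, 0] r).trans (by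
      rw [e, sub_self, mul_zero]))
    simpa [zz, h1] using congrFun this 1
  · rintro K _ j ω y rfl
    refine ⟨fun e => ?_, by simp [zz]⟩
    have : j (2 * D.Q b ![1, 0, 0]) = 0 := by simpa [zz] using congrFun e 1
    simp only [map_eq_zero, mul_eq_zero, h1, or_false] at this
    exact two_ne_zero this

end PF3

open PF3 in
theorem p_f3 (hQ : S_QF) (h2 : S_F2) : S_F3 := by
  intro k A _ _ _ D C b hb
  have hbK : ∀ (K : Type) [Field K] [Algebra k K] {x : Fin 3 → k}, x ≠ 0 →
      (fun i => algebraMap k K (x i)) ≠ 0 := fun K _ _ x hx e =>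
    hx (funext fun i => (map_eq_zero (algebraMap k K)).1 (congrFun e i))
  have ext : ∀ (K : Type) [Field K] [Algebra k K], finrank k K = 2 → ∀ x y, x ≠ 0 → y ≠ 0 →
      D.Q b x = 0 → D.Q (fun i => algebraMap k K (b i)) y = 0 →
      C.cl K (pt (fun i => algebraMap k K (b i)) y) = 2 • C.cl k (pt b x) := by
    intro K _ _ hK x y hx hy e e'
    have : FiniteDimensional k K := .of_finrank_pos (by omega)
    rw [← C.ext k K (Algebra.ofId k K) 2 _ (D.on_pt hb hx e) (by simp [hK]), pt_alg]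
    exact (h2 k A D C K).2 _ _ _ (hbK K hb) hy (hbK K hx) e'
      ((D.Q_hom (Algebra.ofId k K) b x).trans (by rw [e, map_zero]))
  have p1 : ∀ y : Fin 3 → k, y ≠ 0 → D.Q b y = 0 → 2 • C.cl k (pt b y) = 0 := by
    intro y hy e
    by_cases h : ∀ y : Fin 3 → k, y 2 = 0 → D.Q b y = 0 → y = 0
    · obtain ⟨-, a2, a3⟩ := line h
      obtain ⟨K, _, _, ω, hK, hω⟩ := quad a2
      have : FiniteDimensional k K := .of_finrank_pos (by omega)
      obtain ⟨a4, a5⟩ := a3 K (algebraMap k K) ω _ rfl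
      rw [← ext K hK y _ hy a4 e]
      · exact (h2 k A D C K).1 _ (pt_ne_zero (hbK K hb) a4) (by rw [bs_pt, a5, zero_smul])
      · exact Q_root D (Algebra.ofId k K) b _ _ hω
    · push Not at h
      obtain ⟨x, a1, a2, a3⟩ := h
      rw [(h2 k A D C k).2 b y x hb hy a3 e a2,
        (h2 k A D C k).1 _ (pt_ne_zero hb a3) (by rw [bs_pt, a1, zero_smul]), smul_zero]
  refine ⟨p1, fun K _ _ y hK hy e => ?_⟩
  by_cases h : ∀ x : Fin 3 → k, D.Q b x = 0 → x = 0
  swap
  · push Not at h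
    obtain ⟨x, a1, a2⟩ := h
    rw [ext K hK x y a2 hy a1 e, p1 x a2 a1]
  have : FiniteDimensional k K := .of_finrank_pos (by omega)
  obtain ⟨ω, li, sp⟩ := basis K hK
  obtain ⟨p, q, hω⟩ := sp (ω ^ 2)
  choose w u hwu using fun i => sp (y i)
  have e1 : D.Q (fun i => algebraMap k K (b i)) y = algebraMap k K (D.Q b w) +
      ω * algebraMap k K (D.B b u w) + ω ^ 2 * algebraMap k K (D.Q b u) := by
    simp only [Dat.B_eq, Dat.Q, Qf, aeval_alg, hwu, map_add, map_mul, map_pow, map_ofNat]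
    ring
  obtain ⟨e2, e3⟩ := li (D.Q b w + p * D.Q b u) (D.B b u w + q * D.Q b u) (by
    rw [e, hω] at e1
    simp only [map_add, map_mul]
    linear_combination -e1)
  have u0 : D.Q b u ≠ 0 := fun e4 => hy (funext fun i => by
    rw [e4, mul_zero, add_zero] at e2
    rw [hwu, h u e4, h w e2]
    simp)
  have e4 : ((2 * ω - algebraMap k K q) * algebraMap k K (D.Q b u)) ^ 2 =
      algebraMap k K (dd D b u w) := by
    rw [dd, eq_neg_of_add_eq_zero_left e2, eq_neg_of_add_eq_zero_left e3]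
    simp only [map_sub, map_mul, map_pow, map_neg, map_ofNat]
    linear_combination 4 * algebraMap k K (D.Q b u) ^ 2 * hω
  have e5 : ∀ r : k, r ^ 2 ≠ dd D b u w := fun r hr => by
    rw [← hr, map_pow, sq_eq_sq_iff_eq_or_eq_neg] at e4
    obtain ⟨s, hs⟩ : ∃ s : k, (2 * ω - algebraMap k K q) * algebraMap k K (D.Q b u) =
        algebraMap k K s := e4.elim (fun e => ⟨r, e⟩) fun e => ⟨-r, by rw [map_neg, e]⟩
    have := (li (-(q * D.Q b u) - s) (2 * D.Q b u) (by
      simp only [map_sub, map_mul, map_neg, map_ofNat]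
      linear_combination hs)).2
    simp [u0] at this
  obtain ⟨a1, a2, a3⟩ := line fun x _ => h x
  obtain ⟨γ, g1, g2⟩ := fam hQ C hb u0 (fun h0 => e5 0 (by rw [h0, sq, mul_zero])) a1
    fun h0 => a2 0 (by rw [h0, sq, mul_zero])
  obtain ⟨K', _, _, ω', hK', hω'⟩ := quad a2
  have : FiniteDimensional k K' := .of_finrank_pos (by omega)
  obtain ⟨a4, a5⟩ := a3 K' (algebraMap k K') ω' _ rfl
  have g3 := (g1.2 K _ hK e4 e5).trans (congrArg _ (pt_lin (Algebra.ofId k K) b _ u _))
  have g4 := (g2.2 K' ω' hK' hω' a2).trans (congrArg _ (pt_lin (Algebra.ofId k K') b _ _ _))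
  have e6 : (fun i => Algebra.ofId k K (zz D b u w i) + (2 * ω - algebraMap k K q) *
      algebraMap k K (D.Q b u) * Algebra.ofId k K (u i)) = algebraMap k K (2 * D.Q b u) • y := by
    funext i
    rw [Pi.smul_apply, hwu, zz, eq_neg_of_add_eq_zero_left e3]
    simp only [Algebra.ofId_apply, map_sub, map_mul, map_neg, map_ofNat, smul_eq_mul]
    ring
  rw [e6, pt_smul] at g3
  exact (g3.trans (C.smul K _ _ ((map_ne_zero _).2 (mul_ne_zero two_ne_zero u0))
    (D.on_pt (hbK K hb) hy e))).symm.trans (g4.trans ((h2 k A D C K').1 _ (pt_ne_zero (hbK K' hb) a4)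
    (by rw [bs_pt]; exact (congrArg (· • _) a5).trans (zero_smul _ _))))

end Pool.Agent.P.MP_b8021b_nt.CU
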