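import Pool.Agent.P.MP_b8021b_nt.CU.Basic

/-! The class of a fibre. -/

namespace Pool.Agent.P.MP_b8021b_nt.CU

open MvPolynomial Module

theorem p_fib (hF2 : S_F2) (hF3 : S_F3) (hB : S_Base) : S_Fib := by
  intro k A _ _ _ D C κ _ _ _ b hb
  have : CharZero κ := charZero_of_injective_algebraMap (algebraMap k κ).injective
  obtain ⟨C', hC⟩ := hB k κ A D C
  obtain ⟨f1, f2⟩ := hF3 κ A (D.map (algebraMap k κ)) C' b hb
  have two : ∀ y : Fin 3 → κ, y ≠ 0 → D.Q b y = 0 → C.Fib κ b (C.cl κ (pt b y)) := by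
    intro y hy hq
    refine ⟨hC κ _ ▸ f1 y hy ((D.Q_map b y).trans hq), fun K _ _ _ j f y' _ hf hy' hq' => ?_⟩
    have ne : ∀ {x : Fin 3 → κ}, x ≠ 0 → (fun i => j (x i)) ≠ 0 := fun hx e =>
      hx (funext fun i => j.injective ((congrFun e i).trans (map_zero j).symm))
    rw [(hF2 k A D C K).2 _ y' (fun i => j (y i)) (ne hb) hy' (ne hy) hq'
      (by rw [D.Q_hom, hq, map_zero]), ← C.ext κ K j f _ (D.on_pt hb hy hq) hf]
    exact congrArg _ (pt_hom (j : κ →+* K) b y)
  refine ⟨?_, two⟩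
  by_cases h : ∃ y : Fin 3 → κ, y ≠ 0 ∧ D.Q b y = 0
  · obtain ⟨y, hy, hq⟩ := h
    exact ⟨_, two y hy hq⟩
  refine ⟨0, smul_zero _, fun K _ _ _ j f y hf hr hy hq => ?_⟩
  have p1 : 0 < finrank k K := finrank_pos
  have p2 : 0 < finrank k κ := finrank_pos
  rw [smul_zero]
  interval_cases f
  · omega
  · have hs : Function.Surjective j :=
      (LinearMap.injective_iff_surjective_of_finrank_eq_finrank (f := j.toLinearMap)
        (by omega)).1 j.injective
    choose x hx using fun i => hs (y i)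
    obtain rfl : (fun i => j (x i)) = y := funext hx
    rw [D.Q_hom] at hq
    exact absurd ⟨x, fun e => hy (funext fun i => by simp [e]),
      j.injective (hq.trans (map_zero j).symm)⟩ h
  · let : Algebra κ K := (j : κ →+* K).toAlgebra
    have : IsScalarTower k κ K := IsScalarTower.of_algebraMap_eq fun c => (j.commutes c).symm
    have e := finrank_mul_finrank k κ K
    have e2 : finrank κ K = 2 := Nat.eq_of_mul_eq_mul_left p2 (by omega)
    exact hC K _ ▸ f2 K y e2 hy ((D.Q_map _ y).trans hq)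

end Pool.Agent.P.MP_b8021b_nt.CU
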