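import Pool.Agent.P.MP_b8021b_nt.CU.BasicV

/-! The two ends of the curve. -/

open scoped WithZero

namespace Pool.Agent.P.MP_b8021b_nt.CU

open WithZero Module MvPolynomial
open Pool.Agent.P.MP_b8021b_nt.CH (Qf dl Nf)

theorem p_gt (hX : S_ThX) (hFib : S_Fib) (hF2 : S_F2) (hRat : S_Rat) : S_GT := by
  classical
  intro k A _ _ _ D C φ m y p x x' hm y0 hy δ0 t0 p0 p2 hp hx h
  obtain ⟨r1, -, r3, s₁, ρ₁, b1, b2, b3, b4⟩ := hRat k
  obtain ⟨s₀, ρ₀, a1, a2, a3, a4⟩ := r3 0
  rw [map_zero, sub_zero] at a3 a4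
  let j := IsScalarTower.toAlgHom k (Polynomial k) (RatFunc k)
  have hj : Function.Injective j := IsFractionRing.injective _ _
  have φ0 : (fun i => (φ i).eval 0) ≠ 0 := fun e => δ0 (by
    rw [e, ← zero_smul k (0 : Fin 3 → k), aeval_smul D.hδ]; simp)
  have δ1 : aeval (fun i => j (φ i)) D.δ ≠ 0 := fun e => δ0 (by
    rw [aeval_hom, map_eq_zero_iff _ hj] at e
    have := aeval_hom (Polynomial.aeval (0 : k) : Polynomial k →ₐ[k] k) φ D.δ
    rw [e, map_zero] at this
    simpa only [Polynomial.coe_aeval_eq_eval] using this)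
  have hne : s₀ ≠ s₁ := fun e => by
    rw [e, b3, exp_inj] at a3
    omega
  have key : ∀ s, Plc k s → ∃ a, C.FibAt (fun i => j (φ i)) s a ∧
      (s = s₀ → a = C.cl k (pt (fun i => (φ i).eval 0) y)) ∧ (s = s₁ → a = 0) := fun s hs => by
    by_cases e0 : s = s₀
    · have e : (fun i => ρ₀ (1 * j (φ i))) = fun i => (φ i).eval 0 :=
        funext fun i => by rw [one_mul]; exact (a2 _).2
      refine ⟨_, ⟨k, _, _, ρ₀, 1, inferInstance, e0 ▸ a1, fun i => ?_, e ▸ φ0, ?_⟩, fun _ => rfl,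
        fun e1 => absurd (e0.symm.trans e1) hne⟩
      · rw [one_smul, e0]; exact (a2 _).1
      · rw [e]; exact (hFib k A D C k _ φ0).2 y y0 hy
    by_cases e1 : s = s₁
    · have e : (fun i => ρ₁ ((RatFunc.X ^ m)⁻¹ * j (φ i))) = fun i => (φ i).coeff m :=
        funext fun i => by rw [← div_eq_inv_mul]; exact (b2 m _ (hm i)).2
      refine ⟨0, ⟨k, _, _, ρ₁, (RatFunc.X ^ m)⁻¹, inferInstance, e1 ▸ b1, fun i => ?_, e ▸ t0, ?_⟩,
        fun e => absurd e e0, fun _ => rfl⟩
      · rw [Pi.smul_apply, smul_eq_mul, ← div_eq_inv_mul, e1]; exact (b2 m _ (hm i)).1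
      · rw [e, ← (hF2 k A D C k).1 _ (pt_ne_zero t0 p0) (by rw [bs_pt, p2, zero_smul])]
        exact (hFib k A D C k _ t0).2 p p0 hp
    obtain ⟨κ, _, _, ρ, _, hr⟩ := r1 s hs
    obtain ⟨c, i, -, hc, hi⟩ := exists_prim s (x := fun i => j (φ i)) fun e => δ1 (by
      rw [e, ← zero_smul (RatFunc k) (0 : Fin 3 → RatFunc k), aeval_smul D.hδ]; simp)
    have z0 : (fun i => ρ (c * j (φ i))) ≠ 0 := fun e => by
      have := congrFun e i
      rw [hi, hr.one] at this
      exact one_ne_zero this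
    obtain ⟨a, ha⟩ := (hFib k A D C κ _ z0).1
    exact ⟨a, ⟨κ, _, _, ρ, c, inferInstance, hr, hc, z0, ha⟩, fun e => absurd e e0,
      fun e => absurd e e1⟩
  choose! γ g1 g2 g3 using key
  have nz : ∀ x : Fin 4 → Polynomial k, x ≠ 0 →
      ![j (x 0), j (x 1), j (x 2)] ≠ 0 ∨ j (x 3) ≠ 0 := fun x hx => by
    by_contra hc
    push Not at hc
    refine hx (funext fun i => hj ?_)
    rw [Pi.zero_apply, map_zero]
    fin_cases i
    exacts [congrFun hc.1 0, congrFun hc.1 1, congrFun hc.1 2, hc.2]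
  have hT := hX k A D C _ γ ![j (x 0), j (x 1), j (x 2)] ![j (x' 0), j (x' 1), j (x' 2)] (j (x 3))
    (j (x' 3)) RatFunc.X g1 δ1 RatFunc.X_ne_zero
    (by
      rcases hx with hx | hx
      · have := nz _ hx; tauto
      · have := nz _ hx; tauto)
    (by
      have := congrArg j h
      have e : j Polynomial.X = RatFunc.X := RatFunc.algebraMap_X
      rw [Nf, Nf, ← D.δ_eq] at this
      simpa only [Dat.Q, Qf, aeval_hom, map_add, map_mul, map_pow, e, Matrix.cons_val] using this)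
  rw [Th, finsum_eq_sum_of_support_subset (s := {s₀, s₁}) _ fun s hs => by
    by_contra e
    simp only [Finset.coe_insert, Finset.coe_singleton, Set.mem_insert_iff, Set.mem_singleton_iff,
      not_or] at e
    refine hs ?_
    beta_reduce
    split_ifs with hp
    · rw [(ord_eq_zero_iff s RatFunc.X_ne_zero).2 (le_antisymm
        (not_lt.1 fun a => e.2 (b4 s hp a)) (not_lt.1 fun a => e.1 (a4 s hp a))), zero_smul]
    · rfl, Finset.sum_pair hne, if_pos a1.plc, if_pos b1.plc, g3 _ b1.plc rfl, smul_zero, add_zero,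
    ord_of_val s₀ a3, one_smul, g2 _ a1.plc rfl] at hT
  exact hT

end Pool.Agent.P.MP_b8021b_nt.CU
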