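import Pool.Agent.P.MP_b8021b_nt.CU.PNF

/-! Residue fields of number fields, extension of places, approximation. -/

open scoped WithZero

namespace Pool.Agent.P.MP_b8021b_nt.CU

open IsDedekindDomain NumberField WithZero

namespace PLF

theorem ov {L L' : Type} [Field L] [NumberField L] [Field L'] [NumberField L'] [Algebra L L']
    (w : Pl L) (w' : Pl L') [w'.asIdeal.LiesOver w.asIdeal] :
    Ov (w.valuation L) (w'.valuation L') :=
  ⟨_, Nat.pos_of_ne_zero (Ideal.IsDedekindDomain.ramificationIdx'_ne_zero_of_liesOver w'.asIdeal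
    w.ne_bot), fun x => (HeightOneSpectrum.valuation_liesOver L' w w' x).symm⟩

end PLF

theorem p_lf : S_LF := by
  intro k L _ _ _ _ _
  refine ⟨fun w => ?_, fun L' _ _ _ => ⟨fun w' => ?_, fun w => ?_⟩, fun a ha => ?_,
    fun S x n hx => ?_⟩
  · have := w.isMaximal
    let _ := Ideal.Quotient.field w.asIdeal
    obtain ⟨σ, hσ, -⟩ := NFP.red_of_prime (𝓞 k) (K := L) w (Ideal.Quotient.mkₐ (𝓞 k) w.asIdeal)
      Ideal.Quotient.mk_surjective fun _ => Ideal.Quotient.eq_zero_iff_mem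
    exact ⟨_, _, Ideal.finiteQuotientOfFreeOfNeBot w.asIdeal w.ne_bot, _, σ, hσ⟩
  · have : w'.asIdeal.LiesOver (w'.under (𝓞 L)).asIdeal := ⟨rfl⟩
    exact ⟨w'.under (𝓞 L), PLF.ov _ _⟩
  · have := w.isMaximal
    obtain ⟨P, h1, h2⟩ := Ideal.exists_maximal_ideal_liesOver_of_isIntegral (S := 𝓞 L') w.asIdeal
    exact ⟨⟨P, h1.isPrime, Ideal.ne_bot_of_liesOver_of_ne_bot w.ne_bot P⟩, PLF.ov _ _⟩
  · refine ((HeightOneSpectrum.Support.finite (𝓞 L) a).union
      (HeightOneSpectrum.Support.finite (𝓞 L) a⁻¹)).subset fun w h => ?_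
    rcases lt_or_gt_of_ne h with e | e
    · refine Or.inr ?_
      change 1 < w.valuation _ a⁻¹
      rwa [map_inv₀, one_lt_inv₀ (zero_lt_iff.2 (by simpa using ha))]
    · exact Or.inl e
  · choose y hy using fun w : S => w.1.exists_valuation_sub_lt_of_integer (hx w w.2)
      (Units.mk0 (exp (-(n : ℤ))) exp_ne_zero)
    obtain ⟨a, ha⟩ := IsDedekindDomain.exists_forall_sub_mem_ideal (s := S)
      (fun w : Pl L => w.asIdeal) (fun _ => n) (fun w _ => w.prime)
      (fun _ _ _ _ h e => h (HeightOneSpectrum.ext e)) y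
    refine ⟨a, fun w hw => ?_⟩
    have h1 := (w.intValuation_le_pow_iff_mem _ n).2 (ha w hw)
    rw [← w.valuation_of_algebraMap (K := L)] at h1
    have := (w.valuation L).map_add_le h1 (hy ⟨w, hw⟩).le
    simpa [Algebra.cast] using this

end Pool.Agent.P.MP_b8021b_nt.CU
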