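import Pool.Agent.P.MP_b8021b_nt.CU.Basic

/-! A point is equivalent to the residual pair of a line through it. -/

namespace Pool.Agent.P.MP_b8021b_nt.CU

open MvPolynomial

namespace LSP

section

variable {O R R' : Type} [CommRing O] [CommRing R] [Algebra O R] [CommRing R'] [Algebra O R']

theorem Dl_hom (D : Dat O) (j : R →ₐ[O] R') (x u : Fin 5 → R) :
    D.Dl (fun i => j (x i)) (fun i => j (u i)) = j (D.Dl x u) := by
  simp only [Dat.Dl, pol_hom, aeval_hom, map_sub, map_mul, map_pow, map_ofNat]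

theorem res_hom (D : Dat O) (j : R →ₐ[O] R') (x u : Fin 5 → R) (i : Fin 5) :
    D.res (fun i => j (x i)) (fun i => j (u i)) 0 i = j (D.res x u 0 i) := by
  simp only [Dat.res, pol_hom, aeval_hom, map_sub, map_mul, map_add, map_ofNat, map_zero]

theorem res_eq (D : Dat O) (x u : Fin 5 → R) (ω : R) :
    (fun i => D.res x u 0 i + ω * u i) = (2 * aeval u D.F) • x + (ω - pol D.F u x) • u := by
  funext i
  simp only [Dat.res, Pi.add_apply, Pi.smul_apply, smul_eq_mul]
  ring

theorem on (D : Dat O) {x u : Fin 5 → R} {ω : R} (hx : aeval x D.F = 0) (hω : ω ^ 2 = D.Dl x u) :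
    aeval (fun i => D.res x u 0 i + ω * u i) D.F = 0 := by
  rw [res_eq, cubic_line D.hF, hx]
  rw [Dat.Dl] at hω
  linear_combination (ω - pol D.F u x) * aeval u D.F * hω

end

variable {k A : Type} [Field k] [CharZero k] [AddCommGroup A] {D : Dat k}

theorem minor {x u : Fin 5 → k} (hx : D.On x) (hu : aeval u D.F ≠ 0) :
    ∃ i j, D.res x u 0 i * u j ≠ D.res x u 0 j * u i := by
  by_contra hc
  push Not at hc
  obtain ⟨i, hi⟩ := Function.ne_iff.1 hx.1
  have hi' : x i ≠ 0 := hi
  have e : u = (u i / x i) • x := funext fun j => by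
    have h := hc i j
    simp only [Dat.res] at h
    have h2 : x i * u j = x j * u i :=
      mul_left_cancel₀ (mul_ne_zero two_ne_zero hu) (by linear_combination h)
    rw [Pi.smul_apply, smul_eq_mul, div_mul_eq_mul_div, eq_div_iff hi']
    linear_combination h2
  exact hu (by rw [e, aeval_smul D.hF, hx.2, mul_zero])

theorem ends (hQF : S_QF) (C : CF D A) {x u u' : Fin 5 → k} (hx : D.On x) (h1 : aeval u D.F ≠ 0)
    (h2 : D.Dl x u ≠ 0) (h3 : aeval u' D.F ≠ 0) (h4 : D.Dl x u' ≠ 0) :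
    ∃ γ : A, C.Pair (D.Dl x u) (D.res x u 0) u γ ∧ C.Pair (D.Dl x u') (D.res x u' 0) u' γ := by
  set X' : Fin 5 → Polynomial k := fun i => Polynomial.C (x i) with hX
  set U : Fin 5 → Polynomial k := fun i =>
    Polynomial.C (u i) + Polynomial.C (u' i - u i) * Polynomial.X with hU
  have ex : ∀ a : k, (fun i => Polynomial.aeval a (X' i)) = x := fun a => funext fun i => by
    simp [hX]
  have d : ∀ (a : k) (w : Fin 5 → k), (fun i => Polynomial.aeval a (U i)) = w →
      (D.Dl X' U).eval a = D.Dl x w ∧ (fun i => (D.res X' U 0 i).eval a) = D.res x w 0 ∧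
        (fun i => (U i).eval a) = w := fun a w hw => by
    refine ⟨?_, funext fun i => ?_, ?_⟩
    · rw [← Polynomial.coe_aeval_eq_eval, ← hw, ← ex a, Dl_hom]
    · rw [← Polynomial.coe_aeval_eq_eval, ← hw, ← ex a, res_hom]
    · simpa only [Polynomial.coe_aeval_eq_eval] using hw
  obtain ⟨a1, a2, a3⟩ := d 0 u (funext fun i => by simp [hU])
  obtain ⟨b1, b2, b3⟩ := d 1 u' (funext fun i => by simp [hU])
  have h := hQF k A D C (D.Dl X' U) (D.res X' U 0) U (fun K _ _ τ ω hω => by
    simp only [← res_hom]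
    refine on D ?_ (by rw [hω, Dl_hom])
    have e : (fun i => Polynomial.aeval τ (X' i)) = fun i => algebraMap k K (x i) :=
      funext fun i => by simp [hX]
    rw [e, aeval_alg, hx.2, map_zero]) (by
    rintro a (rfl | rfl)
    · obtain ⟨i, j, h⟩ := minor hx h1
      exact ⟨a1 ▸ h2, i, j, by rwa [congrFun a2, congrFun a2, congrFun a3, congrFun a3]⟩
    · obtain ⟨i, j, h⟩ := minor hx h3
      exact ⟨b1 ▸ h4, i, j, by rwa [congrFun b2, congrFun b2, congrFun b3, congrFun b3]⟩)
  rwa [a1, a2, a3, b1, b2, b3] at h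

/-- a point of the line -/
def e₃ (k : Type) [Field k] : Fin 5 → k := ![0, 0, 0, 1, 0]

omit [CharZero k] in
theorem F_shift (x : Fin 5 → k) (t : k) : aeval (x + t • e₃ k) D.F =
    aeval x D.F + t * D.B (bs x) (fb x) ![1, 0, 0] + t ^ 2 * D.Q (bs x) ![1, 0, 0] := by
  have e1 : bs (x + t • e₃ k) = bs x := by
    funext i
    fin_cases i <;> simp [bs, e₃]
  have e2 : fb (x + t • e₃ k) = (1 : k) • fb x + t • ![1, 0, 0] := by
    funext i
    fin_cases i <;> simp [fb, e₃]
  rw [D.F_eq, D.F_eq, e1, e2, D.Q_lin]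
  ring

omit [CharZero k] in
theorem F_e : aeval (e₃ k) D.F = 0 := by
  have e : e₃ k = pt (0 : Fin 3 → k) ![1, 0, 0] := by
    funext i
    fin_cases i <;> simp [pt, e₃]
  rw [e, D.F_pt]
  simp

end LSP

open LSP in
theorem p_ls (hQF : S_QF) (hF2 : S_F2) : S_LS := by
  intro k A _ _ _ D C x u hx hb hani h1 h2
  set a := pol D.F x (e₃ k) with ha
  set b := pol D.F (e₃ k) x with hb'
  have line : ∀ s t : k, aeval (s • x + t • e₃ k) D.F = s * t * (s * a + t * b) := fun s t => by
    rw [cubic_line D.hF, hx.2, F_e]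
    ring
  have b0 : b ≠ 0 := fun e => by
    have p := line 1 1
    have q := line 1 (-1)
    rw [one_smul k x, F_shift, hx.2, e] at p q
    refine one_ne_zero (hani 1 0 (mul_left_cancel₀ (two_ne_zero (α := k)) ?_)).1
    linear_combination p + q
  obtain ⟨l, l0, l1⟩ : ∃ l : k, l ≠ 0 ∧ l * a + b ≠ 0 := by
    by_cases h : 1 * a + b = 0
    · exact ⟨2, two_ne_zero, fun h' => b0 (by linear_combination 2 * h - h')⟩
    · exact ⟨1, one_ne_zero, h⟩
  set w : Fin 5 → k := l • x + (1 : k) • e₃ k with hw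
  have f1 : aeval w D.F = l * (l * a + b) := by rw [hw, line]; ring
  have f2 : pol D.F x w = a := by
    rw [hw, pol_add_right, pol_smul_right, pol_smul_right, pol_self D.hF, hx.2]
    ring
  have f3 : pol D.F w x = 2 * l * a + b := by
    have p := cubic_line D.hF x w 1 1
    have e : (1 : k) • x + (1 : k) • w = (1 + l) • x + (1 : k) • e₃ k := by
      rw [hw, add_smul, one_smul k (l • x + _), add_assoc]
    rw [e, line, hx.2, f1, f2] at p
    linear_combination -p
  have f4 : D.Dl x w = b ^ 2 := by rw [Dat.Dl, f1, f2, f3]; ring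
  obtain ⟨γ, g1, g2⟩ := ends hQF C hx h1 h2 (f1 ▸ mul_ne_zero l0 l1) (f4 ▸ pow_ne_zero 2 b0)
  have g3 := g2.1 b f4.symm
  have c0 : 2 * l * b ≠ 0 := mul_ne_zero (mul_ne_zero two_ne_zero l0) b0
  have e1 : D.res x w 0 + b • w =
      pt (bs x) ![2 * l * (b * x 3 - a), 2 * l * b * x 4, 2 * l * b] := by
    funext i
    simp only [Dat.res, Pi.add_apply, Pi.smul_apply, smul_eq_mul, f1, f3]
    simp only [hw, Pi.add_apply, Pi.smul_apply, smul_eq_mul]
    fin_cases i <;> simp [pt, bs, e₃] <;> ring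
  have e2 : D.res x w 0 - b • w = (-2 * (l * a + b)) • e₃ k := by
    funext i
    simp only [Dat.res, Pi.sub_apply, Pi.smul_apply, smul_eq_mul, f1, f3]
    simp only [hw, Pi.add_apply, Pi.smul_apply, smul_eq_mul]
    ring
  have z1 : C.cl k (D.res x w 0 - b • w) = 0 := by
    rw [e2]
    refine (hF2 k A D C k).1 _ (fun e => l1 ?_) ?_
    · simpa [e₃] using congrFun e 3
    · funext i
      fin_cases i <;> simp [bs, e₃]
  have z2 : C.cl k (D.res x w 0 + b • w) = C.cl k x := by
    have p : aeval (D.res x w 0 + b • w) D.F = 0 := on D hx.2 f4.symm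
    rw [e1, D.F_pt] at p
    rw [e1]
    refine ((hF2 k A D C k).2 (bs x) _ (fb x) hb (fun e => c0 (congrFun e 2))
      (fun e => one_ne_zero (congrFun e 2)) ((mul_eq_zero.1 p).resolve_left c0)
      (D.F_eq x ▸ hx.2)).trans (by rw [pt_bs_fb])
  rw [z1, z2, add_zero] at g3
  exact g3 ▸ g1

end Pool.Agent.P.MP_b8021b_nt.CU
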