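import Pool.Agent.P.MP_b8021b_nt.CU.BasicV

/-! Moving, one place. -/

open scoped WithZero Matrix Classical

namespace Pool.Agent.P.MP_b8021b_nt.CU

open MvPolynomial WithZero

namespace MLP

variable {O : Type} [CommRing O]

theorem xi_smul {κ : Type} [Field κ] [Algebra O κ] (D : Dat O) {a : κ} (ha : a ≠ 0)
    {b : Fin 3 → κ} (h : D.Xi (a • b)) : D.Xi b :=
  ⟨by simpa [aeval_smul D.hδ, ha] using h.1,
    fun i => by simpa [aeval_smul (D.he i), ha] using h.2 i⟩

theorem xi_hom {κ κ' : Type} [Field κ] [Algebra O κ] [Field κ'] [Algebra O κ'] (D : Dat O)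
    (j : κ →ₐ[O] κ') (b : Fin 3 → κ) : (D.Xi fun i => j (b i)) ↔ D.Xi b := by
  simp only [Dat.Xi, aeval_hom, map_eq_zero]

theorem exists_cross {κ : Type} [Field κ] {b : Fin 3 → κ} (hb : b ≠ 0) : ∃ s, b ⨯₃ s ≠ 0 := by
  by_contra h
  push Not at h
  have h0 := h ![1, 0, 0]
  have h1 := h ![0, 1, 0]
  simp only [cross_apply] at h0 h1
  refine hb (funext fun i => ?_)
  fin_cases i
  · simpa using congrFun h1 2
  · simpa using congrFun h0 2
  · simpa using congrFun h0 1

/-- the choice of the direction over the residue field -/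
theorem choice (hC : S_Cho) (hR : S_Rk) {κ : Type} [Field κ] [Finite κ] [Algebra O κ] (D : Dat O)
    {M N : ℕ} (hy : Hyp D M N) (hq : N + 20 ≤ Nat.card κ) {b y : Fin 3 → κ} (hb : b ≠ 0)
    (hy0 : y ≠ 0) (hQ : D.Q b y = 0) : ∃ u : Fin 5 → κ, (D.Xi b → pol D.F (pt b y) u ≠ 0) ∧
      ∀ (κ' : Type) [Field κ'] [Finite κ'] [Algebra O κ'] (j : κ →ₐ[O] κ') (α β : κ'), β ≠ 0 →
        ¬ D.Xi fun i => α * j (b i) + β * j (bs u i) := by
  let Ω := AlgebraicClosure κ
  let ι : κ →ₐ[O] Ω := IsScalarTower.toAlgHom O κ Ω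
  obtain ⟨S, hS, -, hS'⟩ := hy.fin Ω
  let b' : Fin 3 → Ω := fun i => ι (b i)
  have hb' : b' ≠ 0 := fun e => hb (funext fun i => (map_eq_zero ι).1 (congrFun e i))
  obtain ⟨s₀, hs₀⟩ := exists_cross hb'
  let ex : (Fin 3 → Ω) → (Fin 5 → Ω) × Ω := fun n => (![n 0, n 1, n 2, 0, 0], 0)
  have hex : ∀ n, n ≠ 0 → (ex n).1 ≠ 0 ∨ (ex n).2 ≠ 0 := fun n hn => Or.inl fun e =>
    hn (by rw [← vec3 n]; simp_all [ex])
  have hex' : ∀ n (u : Fin 5 → Ω), (ex n).1 ⬝ᵥ u + (ex n).2 = n ⬝ᵥ bs u := fun n u => by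
    simp [ex, bs, dotProduct, Fin.sum_univ_succ]
  let g : (Fin 5 → Ω) × Ω :=
    if D.Xi b then (fun i => ι (aeval (pt b y) (pderiv i D.F)), 0) else ex (b' ⨯₃ s₀)
  have hg : g.1 ≠ 0 ∨ g.2 ≠ 0 := by
    by_cases h : D.Xi b
    · refine Or.inl fun e => ?_
      simp only [g, if_pos h] at e
      have h1 := (hR O κ D b hb).1 h
      have h2 : (2 : κ) ≠ 0 := fun e2 => hy.sm κ b (by
        obtain ⟨m, rfl⟩ := hy.odd
        simp [e2]) h1
      obtain ⟨i, j, i', j', h3⟩ := hy.mn κ b h1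
      exact h3 ((hR O κ D b hb).2.1 y h2 hy0 hQ h
        (fun i => (map_eq_zero ι).1 (congrFun e i)) i j i' j')
    · simp only [g, if_neg h]
      exact hex _ hs₀
  let fm : (Fin 3 → Ω) → (Fin 5 → Ω) × Ω := fun s => ex (b' ⨯₃ if b' ⨯₃ s = 0 then s₀ else s)
  have := Fintype.ofFinite κ
  obtain ⟨u', h1, -, h2⟩ := hC Ω 5 (N + 2) (fun _ => Finset.univ.image ι) 1
    (insert g (insert (ex (b' ⨯₃ s₀)) (S.image fm))) (fun _ => by
      rw [Finset.card_image_of_injective _ (show Function.Injective ι from ι.injective),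
        Finset.card_univ, ← Nat.card_eq_fintype_card]
      omega) one_ne_zero (by
      have a1 := Finset.card_insert_le g (insert (ex (b' ⨯₃ s₀)) (S.image fm))
      have a2 := Finset.card_insert_le (ex (b' ⨯₃ s₀)) (S.image fm)
      have a3 := Finset.card_image_le (s := S) (f := fm)
      rw [totalDegree_one]
      omega) (fun a ha => by
      rcases Finset.mem_insert.1 ha with rfl | ha
      · exact hg
      rcases Finset.mem_insert.1 ha with rfl | ha
      · exact hex _ hs₀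
      obtain ⟨s, -, rfl⟩ := Finset.mem_image.1 ha
      refine hex _ ?_
      split_ifs with h
      exacts [hs₀, h])
  choose u hu using fun i => (Finset.mem_image.1 (h1 i)).imp fun _ h => h.2
  obtain rfl : (fun i => ι (u i)) = u' := funext hu
  refine ⟨u, fun h e => ?_, fun κ' _ _ _ j α β hβ h => ?_⟩
  · refine h2 g (Finset.mem_insert_self _ _) ?_
    have := congrArg ι e
    simpa [g, if_pos h, pol, dotProduct] using this
  · let _ : Algebra κ κ' := j.toRingHom.toAlgebra
    have : IsScalarTower O κ κ' := .of_algebraMap_eq fun x => (j.commutes x).symm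
    let φ : κ' →ₐ[κ] Ω := IsAlgClosed.lift
    have hφ : ∀ x, φ (j x) = ι x := φ.commutes
    have e : (fun i => φ.restrictScalars O (α * j (b i) + β * j (bs u i))) =
        φ α • b' + φ β • bs fun i => ι (u i) := by
      funext i
      fin_cases i <;> simp [hφ, b', bs]
    have h3 := (xi_hom D (φ.restrictScalars O) _).2 h
    rw [e] at h3
    have hβ' : φ β ≠ 0 := (map_ne_zero φ).2 hβ
    have h4 := h2 _ (Finset.mem_insert_of_mem (Finset.mem_insert_self _ _))
    rw [hex'] at h4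
    set w := bs fun i => ι (u i)
    have key : ∀ s, (b' ⨯₃ s) ⬝ᵥ (φ α • b' + φ β • w) = φ β * ((b' ⨯₃ s) ⬝ᵥ w) := fun s => by
      rw [dotProduct_add, dotProduct_smul, dotProduct_smul, dotProduct_comm _ b', dot_self_cross,
        smul_zero, zero_add, smul_eq_mul]
    have h5 : φ α • b' + φ β • w ≠ 0 := fun e0 =>
      mul_ne_zero hβ' h4 (by rw [← key, e0, dotProduct_zero])
    obtain ⟨s, hs, a, ha⟩ := hS' _ ((hR O Ω D _ h5).1 h3)
    have h6 := h2 _ (Finset.mem_insert_of_mem (Finset.mem_insert_of_mem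
      (Finset.mem_image_of_mem fm hs)))
    rw [hex'] at h6
    refine mul_ne_zero hβ' h6 ?_
    rw [← key, ha, dotProduct_smul]
    split_ifs with h7
    · rw [dotProduct_comm, triple_product_permutation, triple_product_permutation,
        ← cross_anticomm, h7]
      simp
    · rw [dotProduct_comm, dot_cross_self, smul_zero]

theorem exists_j {L κ L' κ' : Type} [Field L] [Field κ] [Algebra O L] [Algebra O κ] [Field L']
    [Field κ'] [Algebra O L'] [Algebra O κ'] [Algebra L L'] [IsScalarTower O L L']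
    {v : Valuation L ℤᵐ⁰} {ρ : L → κ} {v' : Valuation L' ℤᵐ⁰} {ρ' : L' → κ'} (h : Red O v ρ)
    (h' : Red O v' ρ') (ho : Ov v v') : (∀ x, v x ≤ 1 → v' (algebraMap L L' x) ≤ 1) ∧
      ∃ j : κ →ₐ[O] κ', ∀ x, v x ≤ 1 → ρ' (algebraMap L L' x) = j (ρ x) := by
  obtain ⟨e, he, hv⟩ := ho
  have h0 : ∀ x, v x ≤ 1 → v' (algebraMap L L' x) ≤ 1 := fun x hx => by
    rw [hv]; exact pow_le_one' hx e
  choose l h1 h2 using h.surj
  have key : ∀ a, v a ≤ 1 → ρ' (algebraMap L L' (l (ρ a))) = ρ' (algebraMap L L' a) :=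
    fun a ha => by
      rw [h'.eq_iff (h0 _ (h1 _)) (h0 _ ha), ← map_sub, hv]
      exact pow_lt_one' ((h.eq_iff (h1 _) ha).1 (h2 _)) (by omega)
  refine ⟨h0, { toFun := fun y => ρ' (algebraMap L L' (l y))
                map_one' := by rw [← h.one, key 1 (by simp), map_one, h'.one]
                map_mul' := fun a b => ?_
                map_zero' := by rw [← h.zero, key 0 (by simp), map_zero, h'.zero]
                map_add' := fun a b => ?_
                commutes' := fun c => by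
                  rw [← h.const, key _ (h.int c), ← IsScalarTower.algebraMap_apply, h'.const] },
    fun x hx => (key x hx).symm⟩
  · have := key (l a * l b) (by rw [map_mul]; exact mul_le_one' (h1 a) (h1 b))
    rwa [h.mul _ _ (h1 a) (h1 b), h2, h2, map_mul, h'.mul _ _ (h0 _ (h1 a)) (h0 _ (h1 b))] at this
  · have := key (l a + l b) (v.map_add_le (h1 a) (h1 b))
    rwa [h.add _ _ (h1 a) (h1 b), h2, h2, map_add, h'.add _ _ (h0 _ (h1 a)) (h0 _ (h1 b))] at this

end MLP

open MLP in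
theorem p_ml (hC : S_Cho) (hR : S_Rk) : S_ML := by
  intro O L κ _ _ _ _ _ _ v ρ D M N x h hy hq hx hb
  obtain ⟨a, i₀, ha, hx₀, hi₀⟩ := exists_prim v hx.1
  obtain ⟨c, i₁, hc, hb₀, hi₁⟩ := exists_prim v hb
  have hz : v (a / c) ≤ 1 := by
    have : a / c = a * bs x i₁ := by rw [div_eq_iff hc]; linear_combination (-a) * hi₁
    rw [this]
    fin_cases i₁
    exacts [hx₀ 0, hx₀ 1, hx₀ 2]
  let y₀ : Fin 3 → L := ![a * x 3, a * x 4, a / c]
  have hy₀ : Int v y₀ := fun i => by
    fin_cases i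
    exacts [hx₀ 3, hx₀ 4, hz]
  have e : pt (c • bs x) y₀ = a • x := by
    funext i
    fin_cases i <;> simp [pt, y₀, bs] <;> field_simp
  have hQ : D.Q (c • bs x) y₀ = 0 := by
    have := D.F_pt (c • bs x) y₀
    rw [e, aeval_smul D.hF, hx.2, mul_zero] at this
    exact (mul_eq_zero.1 this.symm).resolve_left (div_ne_zero ha hc)
  have e' := (h.pt hb₀ hy₀).2
  rw [e] at e'
  obtain ⟨w, hw, hw'⟩ := choice hC hR D hy hq (b := fun i => ρ ((c • bs x) i))
    (y := fun i => ρ (y₀ i)) (fun e0 => by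
      have := congrFun e0 i₁
      simp [hi₁, h.one] at this) (fun e0 => by
      have := congrFun e' i₀
      rw [e0, Pi.smul_apply, smul_eq_mul, hi₀, h.one] at this
      fin_cases i₀ <;> simp [pt] at this) (by rw [← h.Q D hb₀ hy₀, hQ, h.zero])
  obtain ⟨u₀, hu₀, rfl⟩ := h.lift w
  refine ⟨u₀, hu₀, fun u hu L' κ' _ _ _ _ _ _ _ v' ρ' μ ν h' ho hμ heq => ?_⟩
  have hu' : Int v u := fun i => by
    have := v.map_add_le (hu i).le (hu₀ i)
    rwa [sub_add_cancel] at this
  have eu : (fun i => ρ (u₀ i)) = fun i => ρ (u i) :=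
    funext fun i => ((h.eq_iff (hu' i) (hu₀ i)).2 (hu i)).symm
  rw [eu] at hw hw'
  rw [← e', ← h.pol hx₀ hu'] at hw
  obtain ⟨hle, j, hj⟩ := exists_j h h' ho
  have hc' : algebraMap L L' c ≠ 0 := (map_ne_zero _).2 hc
  obtain ⟨t, i, ht, h1, h2⟩ := exists_prim v' (x := ![μ / algebraMap L L' c, ν]) fun e0 =>
    hμ.elim (fun h => div_ne_zero h hc' (congrFun e0 0)) fun h => h (congrFun e0 1)
  have a1 : v' (t * (μ / algebraMap L L' c)) ≤ 1 := h1 0
  have a2 : v' (t * ν) ≤ 1 := h1 1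
  have hbu : Int v (bs u) := fun i => by
    fin_cases i
    exacts [hu' 0, hu' 1, hu' 2]
  have e2 : (t • fun i => μ * algebraMap L L' (bs x i) + ν * algebraMap L L' (bs u i)) =
      fun i => t * (μ / algebraMap L L' c) * algebraMap L L' ((c • bs x) i)
        + t * ν * algebraMap L L' (bs u i) := by
    funext i
    simp only [Pi.smul_apply, smul_eq_mul, map_mul]
    field_simp
  have m1 : ∀ i, v' (t * (μ / algebraMap L L' c) * algebraMap L L' ((c • bs x) i)) ≤ 1 :=
    fun i => by rw [map_mul]; exact mul_le_one' a1 (hle _ (hb₀ i))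
  have m2 : ∀ i, v' (t * ν * algebraMap L L' (bs u i)) ≤ 1 :=
    fun i => by rw [map_mul]; exact mul_le_one' a2 (hle _ (hbu i))
  have hI : Int v' _ := fun i => v'.map_add_le (m1 i) (m2 i)
  refine ⟨t, ?_⟩
  rw [e2]
  refine ⟨hI, ?_⟩
  by_contra hn
  have hX : D.Xi fun i => ρ' (t * (μ / algebraMap L L' c)) * j (ρ ((c • bs x) i))
      + ρ' (t * ν) * j (bs (fun i => ρ (u i)) i) := by
    have e3 : (fun i => ρ' (t * (μ / algebraMap L L' c)) * j (ρ ((c • bs x) i))
        + ρ' (t * ν) * j (bs (fun i => ρ (u i)) i)) = fun i =>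
        ρ' (t * (μ / algebraMap L L' c) * algebraMap L L' ((c • bs x) i)
          + t * ν * algebraMap L L' (bs u i)) := by
      funext i
      rw [h'.add _ _ (m1 i) (m2 i), h'.mul _ _ a1 (hle _ (hb₀ i)), h'.mul _ _ a2 (hle _ (hbu i)),
        hj _ (hb₀ i), hj _ (hbu i)]
      fin_cases i <;> rfl
    rw [e3]
    push Not at hn
    refine ⟨?_, fun i => ?_⟩ <;> rw [← h'.aeval hI] <;> by_contra e0
    · exact hn.1 ((h'.ne_zero_iff (val_aeval_le h'.int hI _)).1 e0)
    · exact hn.2 i ((h'.ne_zero_iff (val_aeval_le h'.int hI _)).1 e0)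
  by_cases hν : ρ' (t * ν) = 0
  swap
  · exact hw' κ' j _ _ hν hX
  have h3 : t * (μ / algebraMap L L' c) = 1 := by
    fin_cases i
    · exact h2
    · have h2' : t * ν = 1 := h2
      rw [h2', h'.one] at hν
      exact absurd hν one_ne_zero
  simp only [h3, hν, h'.one, one_mul, zero_mul, add_zero] at hX
  have h4 := hw ((xi_hom D j _).1 hX)
  have p1 := val_pol_le h.int hx₀ hu' D.F
  have p2 := hle _ (val_pol_le h.int hu' hx₀ D.F)
  have p3 := hle _ (val_aeval_le h.int hu' D.F)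
  have p4 := hle _ hz
  have e4 : algebraMap L L' (pol D.F (a • x) u) = -(t * ν * algebraMap L L' (a / c)) *
      (algebraMap L L' (pol D.F u (a • x))
        + t * ν * algebraMap L L' (a / c) * algebraMap L L' (aeval u D.F)) := by
    rw [pol_smul_left D.hF, pol_smul_right, map_mul, map_mul, map_pow, map_div₀]
    have h5 : algebraMap L L' c = t * μ := by
      field_simp at h3
      exact h3.symm
    have hμ0 : μ ≠ 0 := fun e0 => hc' (by rw [h5, e0, mul_zero])
    rw [h5]
    field_simp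
    linear_combination (algebraMap L L' a) ^ 2 * heq
  refine (map_ne_zero j).2 h4 ?_
  have q1 : v' (t * ν * algebraMap L L' (a / c)) < 1 := by
    rw [map_mul]
    exact mul_lt_one_of_lt_of_le ((h'.ker _ a2).1 hν) p4
  rw [← hj _ p1, h'.ker _ (hle _ p1), e4, map_mul, Valuation.map_neg]
  refine mul_lt_one_of_lt_of_le q1 (v'.map_add_le p2 ?_)
  rw [map_mul]
  exact mul_le_one' q1.le p3

end Pool.Agent.P.MP_b8021b_nt.CU
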