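import Pool.Agent.P.MP_b8021b_nt.CU.BasicV

/-! A good point has class zero. -/

namespace Pool.Agent.P.MP_b8021b_nt.CU

open MvPolynomial NumberField
open Pool.Agent.P.MP_b8021b_nt.CH (Qf dl Nf OK IQc S_Iso)

theorem p_mt (hPhi : S_Phi) (hIso : S_Iso) (hGT : S_GT) (hB : S_Base) : S_MT := by
  intro k L A _ _ _ _ _ _ D C M N ξ hk hH hbig hF hδ hN
  have : FiniteDimensional k L := Module.Finite.of_restrictScalars_finite ℚ k L
  obtain ⟨m, φ, a, p, hm, a0, h0, t0, p0, p2, hp, hok⟩ := hPhi k L D M N (bs ξ) (fb ξ) hH hbig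
    (fun e => one_ne_zero (congrFun e 2)) (D.F_eq ξ ▸ hF) hδ hN
  obtain ⟨C', hC⟩ := hB k L A _ C
  obtain ⟨D', hD⟩ : ∃ D', D' = (D.map (algebraMap (𝓞 k) k)).map (algebraMap k L) := ⟨_, rfl⟩
  have hQ : ∀ b y : Fin 3 → L, D'.Q b y = D.Q b y := fun b y => by rw [hD, Dat.Q_map, Dat.Q_map]
  have hy : D'.Q (fun i => (φ i).eval 0) ![ξ 3, ξ 4, a⁻¹] = 0 := by
    rw [hQ, h0, D.Q_smul, mul_inv_cancel₀ a0, ← fb, ← D.F_eq, hF, mul_zero]
  have hd : aeval (fun i => (φ i).eval 0) D'.δ ≠ 0 := by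
    rw [hD, Dat.δ_map, Dat.δ_map, h0, aeval_smul D.hδ]
    exact mul_ne_zero (pow_ne_zero _ a0) hδ
  have ev : ∀ f : MvPolynomial (Fin 3) L, (aeval φ f).eval 0 = aeval (fun i => (φ i).eval 0) f :=
    fun f => by
      simpa only [Polynomial.coe_aeval_eq_eval] using
        (aeval_hom (Polynomial.aeval (0 : L) : Polynomial L →ₐ[L] L) φ f).symm
  obtain ⟨x, x', hx, h⟩ := hIso L (aeval φ D'.l₁) (aeval φ D'.l₂) (aeval φ D'.l₃) (aeval φ D'.q₁)
    (aeval φ D'.q₂) (aeval φ D'.c)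
    (by
      obtain ⟨n, hn, z, hz⟩ := hk
      exact ⟨n, hn, algebraMap k L z, by rw [← map_pow, hz, map_intCast]⟩)
    (by rwa [← D'.δ_eq, ev])
    ⟨ξ 3, ξ 4, a⁻¹, .inr (.inr (inv_ne_zero a0)), by simp only [ev]; exact hy⟩
    fun F _ _ _ θ hθ w => by
      let _ : Algebra k F := ((algebraMap L F).comp (algebraMap k L)).toAlgebra
      have : IsScalarTower k L F := .of_algebraMap_eq fun _ => rfl
      have e : ∀ f : MvPolynomial (Fin 3) (𝓞 k), Polynomial.aeval θ (aeval φ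
          (MvPolynomial.map (algebraMap k L) (MvPolynomial.map (algebraMap (𝓞 k) k) f))) =
          aeval (fun i => Polynomial.aeval θ (φ i)) f := fun f => by
        rw [← aeval_hom (Polynomial.aeval θ : Polynomial L →ₐ[L] F), aeval_map', aeval_map']
      rw [← D'.δ_eq, hD, Dat.map_δ, Dat.map_δ, e] at hθ
      obtain ⟨i, hi⟩ := hok F θ hθ w
      rw [← e, ← Dat.map_e, ← Dat.map_e, ← hD] at hi
      refine ⟨_, ?_, hi⟩
      fin_cases i
      exacts [.inr (.inr (D'.e0 φ)), .inr (.inl (D'.e1 φ)), .inl (D'.e2 φ)]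
  subst hD
  have := hGT L A _ C' φ m _ p x x' hm (fun e => inv_ne_zero a0 (congrFun e 2)) hy hd t0 p0 p2
    ((hQ _ _).trans hp) hx h
  rwa [hC, h0, pt_smul_left, mul_inv_cancel₀ a0, ← fb, pt_bs_fb] at this

end Pool.Agent.P.MP_b8021b_nt.CU
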