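import Pool.Agent.P.MP_b8021b_nt.CU.BasicV

/-! Moving a point, assembly. -/

open scoped WithZero

namespace Pool.Agent.P.MP_b8021b_nt.CU

open MvPolynomial NumberField IsDedekindDomain Module WithZero

namespace MovP

theorem big {O L κ : Type} [CommRing O] [Field L] [Field κ] [Finite κ] [Algebra O L] [Algebra O κ]
    {v : Valuation L ℤᵐ⁰} {ρ : L → κ} (h : Red O v ρ) {n : ℕ} (hn : Big L n) :
    n ≤ Nat.card κ := by
  obtain ⟨a, ha⟩ := hn
  have h1 : v a ≤ 1 := by
    by_contra hc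
    have h2 : 1 < v a := not_le.1 hc
    have h3 : v (a ^ (n.factorial + 1)) ≤ v a := by
      rw [show a ^ (n.factorial + 1) = a - 1 by linear_combination ha]
      exact v.map_sub_le le_rfl (by simpa using h2.le)
    rw [map_pow] at h3
    exact absurd h3 (not_le.2 (lt_self_pow₀ h2 (by have := n.factorial_pos; omega)))
  have hp : v (a ^ (n.factorial + 1)) ≤ 1 := by rw [map_pow]; exact pow_le_one' h1 _
  have h4 : ρ a ^ (n.factorial + 1) - ρ a + 1 = 0 := by
    rw [← h.pow h1, ← h.sub hp h1, ← h.one, ← h.add _ _ (v.map_sub_le hp h1) (by simp), ha, h.zero]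
  by_contra hc
  have := Fintype.ofFinite κ
  rw [Nat.card_eq_fintype_card] at hc
  have h5 : 1 < Fintype.card κ := Fintype.one_lt_card
  rcases eq_or_ne (ρ a) 0 with e | e
  · simp [e] at h4
  · obtain ⟨c, hc'⟩ : Fintype.card κ - 1 ∣ n.factorial := Nat.dvd_factorial (by omega) (by omega)
    rw [pow_succ, hc', pow_mul, FiniteField.pow_card_sub_one_eq_one _ e] at h4
    simp at h4

theorem good (hRk : S_Rk) {O K κ : Type} [CommRing O] [Field K] [Field κ] [Algebra O K]
    [Algebra O κ] {v : Valuation K ℤᵐ⁰} {ρ : K → κ} (h : Red O v ρ) {D : Dat O} {M N : ℕ}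
    (hy : Hyp D M N) (hM : v M = 1) {b : Fin 3 → K} (hb : b ≠ 0) : D.NX v b := by
  obtain ⟨a, i, -, h1, h2⟩ := exists_prim v hb
  refine ⟨a, h1, ?_⟩
  by_contra hc
  push Not at hc
  have h0 : (fun i => ρ ((a • b) i)) ≠ 0 := fun e => by
    have := congrFun e i
    simp only [Pi.smul_apply, smul_eq_mul, h2, h.one, Pi.zero_apply] at this
    exact one_ne_zero this
  have z : ∀ f : MvPolynomial (Fin 3) O, v (aeval (a • b) f) ≠ 1 →
      aeval (fun i => ρ ((a • b) i)) f = 0 := fun f hf => by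
    rw [← h.aeval h1]
    by_contra e
    exact hf ((h.ne_zero_iff (val_aeval_le h.int h1 f)).1 e)
  refine hy.sm κ _ ?_ ((hRk O κ D _ h0).1 ⟨z _ hc.1, fun j => z _ (hc.2 j)⟩)
  rw [← h.natCast]
  exact (h.ne_zero_iff hM.le).2 hM

end MovP

theorem p_mov (hML : S_ML) (hMG : S_MG) (hLF : S_LF) (hRk : S_Rk) : S_Mov := by
  intro k L _ _ _ _ _ D M N x hy hbig hx hb hani
  obtain ⟨l1, l2, l3, l4⟩ := hLF k L
  have hM : (M : L) ≠ 0 := Nat.cast_ne_zero.2 (by rintro rfl; exact absurd hy.odd (by decide))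
  have loc : ∀ w : Pl L, ∃ u₀ : Fin 5 → L, Int (w.valuation L) u₀ ∧ ∀ u : Fin 5 → L,
      (∀ i, w.valuation L (u i - u₀ i) < 1) →
      ∀ (L' κ' : Type) [Field L'] [Field κ'] [Finite κ'] [Algebra (𝓞 k) L'] [Algebra (𝓞 k) κ']
        [Algebra L L'] [IsScalarTower (𝓞 k) L L'] (v' : Valuation L' ℤᵐ⁰) (ρ' : L' → κ')
        (μ ν : L'), Red (𝓞 k) v' ρ' → Ov (w.valuation L) v' → (μ ≠ 0 ∨ ν ≠ 0) →
        algebraMap L L' (pol D.F x u) * μ ^ 2 + algebraMap L L' (pol D.F u x) * μ * ν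
          + algebraMap L L' (aeval u D.F) * ν ^ 2 = 0 →
        D.NX v' fun i => μ * algebraMap L L' (bs x i) + ν * algebraMap L L' (bs u i) := fun w => by
    obtain ⟨κ, _, _, _, ρ, hr⟩ := l1 w
    exact hML (𝓞 k) L κ _ ρ D M N x hr hy (MovP.big hr hbig) hx hb
  choose u₀ hu₀ hu₁ using loc
  choose a ha using fun i : Fin 5 =>
    l4 (l3 M hM).toFinset (fun w => u₀ w i) 1 fun w _ => hu₀ w i
  obtain ⟨u, g1, g2, g3, g4⟩ := hMG (𝓞 k) L D M N x (fun i => (a i : L)) hy hx hb hani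
  refine ⟨u, g2, g3, fun F _ _ _ _ _ ω hω ξ hξ => ?_⟩
  have : IsScalarTower (𝓞 k) L F := IsScalarTower.of_algebraMap_eq fun c => by
    rw [IsScalarTower.algebraMap_apply (𝓞 k) k F, IsScalarTower.algebraMap_apply (𝓞 k) k L,
      ← IsScalarTower.algebraMap_apply k L F]
  set μ : F := 2 * algebraMap L F (aeval u D.F) with hμ
  set ν : F := ω - algebraMap L F (pol D.F u x) with hν
  have m0 : μ ≠ 0 ∨ ν ≠ 0 :=
    Or.inl (mul_ne_zero two_ne_zero ((_root_.map_ne_zero _).2 g2))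
  have q : algebraMap L F (pol D.F x u) * μ ^ 2 + algebraMap L F (pol D.F u x) * μ * ν
      + algebraMap L F (aeval u D.F) * ν ^ 2 = 0 := by
    simp only [Dat.Dl, map_sub, map_mul, map_pow, map_ofNat] at hω
    rw [hμ, hν]
    linear_combination algebraMap L F (aeval u D.F) * hω
  have e : ξ = μ • (fun i => algebraMap L F (x i)) + ν • fun i => algebraMap L F (u i) := by
    rw [hξ]
    funext i
    simp only [Dat.res, map_add, map_sub, map_mul, map_ofNat, map_zero, Pi.add_apply,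
      Pi.smul_apply, smul_eq_mul, hμ, hν]
    ring
  have eb : bs ξ = fun i => μ * algebraMap L F (bs x i) + ν * algebraMap L F (bs u i) := by
    rw [e]
    funext i
    fin_cases i <;> rfl
  have hδ : aeval (bs ξ) D.δ ≠ 0 := eb ▸ g4 F μ ν m0 q
  refine ⟨?_, hδ, fun w' => ?_⟩
  · have p1 := pol_hom (IsScalarTower.toAlgHom (𝓞 k) L F) x u D.F
    have p2 := pol_hom (IsScalarTower.toAlgHom (𝓞 k) L F) u x D.F
    simp only [IsScalarTower.toAlgHom_apply] at p1 p2
    rw [e, cubic_line D.hF, aeval_alg, aeval_alg, hx.2, map_zero, p1, p2]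
    linear_combination ν * q
  · obtain ⟨κ, _, _, _, ρ, hr⟩ := (hLF k F).1 w'
    by_cases h1 : w'.valuation F M = 1
    · refine MovP.good hRk hr hy h1 fun e0 => hδ ?_
      have := aeval_smul D.hδ (0 : F) (bs ξ)
      rw [zero_smul, ← e0] at this
      simpa using this
    · obtain ⟨w, hw⟩ := (l2 F).1 w'
      have h2 : w.valuation L M ≠ 1 := fun e1 => h1 (by
        obtain ⟨n, -, hn⟩ := hw
        rw [← map_natCast (algebraMap L F), hn, e1, one_pow])
      obtain ⟨κ₀, _, _, _, ρ₀, hr₀⟩ := l1 w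
      have h3 : w.valuation L M < 1 :=
        lt_of_le_of_ne (by simpa using hr₀.int M) h2
      rw [eb]
      refine hu₁ w u (fun i => ?_) F κ _ ρ μ ν hr hw m0 q
      obtain ⟨z, hz⟩ := g1 i
      rw [hz, add_sub_right_comm]
      refine Valuation.map_add_lt _ (val_lt_one_iff_le.2 ?_) ?_
      · simpa using ha i w ((Set.Finite.mem_toFinset _).2 h2)
      · rw [map_mul]
        exact lt_of_le_of_lt (mul_le_of_le_one_right' (by simpa using hr₀.int z)) h3

end Pool.Agent.P.MP_b8021b_nt.CU
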