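import Pool.Agent.P.MP_b8021b_nt.CU.BasicV
import Pool.Agent.P.MP_b8021b_nt.FF1

/-! The places over a place and the order of a norm. -/

open scoped WithZero

namespace Pool.Agent.P.MP_b8021b_nt.CU

open IsDedekindDomain WithZero Module

set_option linter.unusedSectionVars false

namespace NFP

/-- the residue map at a prime of a Dedekind domain -/
theorem red_of_prime (O : Type) {B K κ : Type} [CommRing O] [CommRing B] [IsDedekindDomain B]
    [Field K] [Field κ] [Algebra B K] [IsFractionRing B K] [Algebra O B] [Algebra O K]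
    [IsScalarTower O B K] [Algebra O κ] (P : HeightOneSpectrum B) (q : B →ₐ[O] κ)
    (hq : Function.Surjective q) (hk : ∀ b, q b = 0 ↔ b ∈ P.asIdeal) :
    ∃ ρ : K → κ, Red O (P.valuation K) ρ ∧ ∀ b, ρ (algebraMap B K b) = q b := by
  classical
  have fr : ∀ x : K, P.valuation K x ≤ 1 → ∃ n d : B, d ∉ P.asIdeal ∧
      x * algebraMap B K d = algebraMap B K n := fun x hx => by
    obtain ⟨n, d, h⟩ := P.exists_primeCompl_mul_eq_of_integer x hx
    exact ⟨n, d, d.2, h⟩
  choose! n d hd e using fr
  have key : ∀ (x : K) (a b : B), b ∉ P.asIdeal → x * algebraMap B K b = algebraMap B K a →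
      P.valuation K x ≤ 1 ∧ q (n x) / q (d x) = q a / q b := fun x a b hb h => by
    have h1 : P.valuation K x ≤ 1 := by
      have := congrArg (P.valuation K) h
      rw [map_mul, (P.valuation_eq_one_iff_notMem (K := K)).2 hb, mul_one] at this
      rw [this]
      exact P.valuation_le_one a
    refine ⟨h1, ?_⟩
    rw [div_eq_div_iff (mt (hk _).1 (hd x h1)) (mt (hk _).1 hb), ← map_mul, ← map_mul]
    congr 1
    refine IsFractionRing.injective B K ?_
    rw [map_mul, map_mul, ← e x h1, ← h]
    ring
  have k1 : ∀ b, q (n (algebraMap B K b)) / q (d (algebraMap B K b)) = q b := fun b => by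
    simpa using (key _ b 1 (P.isPrime.one_notMem) (by simp)).2
  have hm : ∀ {a b}, a ∉ P.asIdeal → b ∉ P.asIdeal → a * b ∉ P.asIdeal := fun ha hb h =>
    (P.isPrime.mem_or_mem h).elim ha hb
  refine ⟨fun x => q (n x) / q (d x), ⟨P.valuation_surjective K, fun c => ?_, fun c => ?_,
    fun a b ha hb => ?_, fun a b ha hb => ?_, fun a ha => ?_, fun y => ?_⟩, k1⟩
  · rw [IsScalarTower.algebraMap_apply O B K]
    exact P.valuation_le_one _
  · rw [IsScalarTower.algebraMap_apply O B K, k1, q.commutes]
  · rw [(key _ (n a * d b + d a * n b) _ (hm (hd a ha) (hd b hb)) (by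
      rw [map_add, map_mul, map_mul, map_mul, ← e a ha, ← e b hb]; ring)).2,
      div_add_div _ _ (mt (hk _).1 (hd a ha)) (mt (hk _).1 (hd b hb))]
    simp
  · rw [(key _ (n a * n b) _ (hm (hd a ha) (hd b hb)) (by
      rw [map_mul, map_mul, ← e a ha, ← e b hb]; ring)).2, div_mul_div_comm]
    simp
  · rw [div_eq_zero_iff, or_iff_left (mt (hk _).1 (hd a ha)), hk,
      ← P.valuation_lt_one_iff_mem (K := K)]
    change P.valuation K (algebraMap B K _) < 1 ↔ _
    rw [← e a ha, map_mul, (P.valuation_eq_one_iff_notMem (K := K)).2 (hd a ha), mul_one]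
  · obtain ⟨b, rfl⟩ := hq y
    exact ⟨_, P.valuation_le_one b, k1 b⟩

theorem ord_int {B : Type} (K : Type) [CommRing B] [IsDedekindDomain B] [Field K] [Algebra B K]
    [IsFractionRing B K] (P : HeightOneSpectrum B) {a : B} (ha : a ≠ 0) :
    ord (P.valuation K) (algebraMap B K a) = multiplicity P.asIdeal (Ideal.span {a}) :=
  ord_of_val _ ((P.valuation_of_algebraMap a).trans (P.intValuation_eq_exp_neg_multiplicity ha))

theorem aux (k R B K₀ K κ₀ : Type) [Field k] [CharZero k] [CommRing R] [IsDedekindDomain R]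
    [CommRing B] [Field K₀] [Field K] [Field κ₀] [Algebra k K₀] [Algebra K₀ K] [Algebra k K]
    [IsScalarTower k K₀ K] [FiniteDimensional K₀ K] [Algebra k κ₀] [FiniteDimensional k κ₀]
    [Algebra R K₀] [IsFractionRing R K₀] [Algebra k R] [IsScalarTower k R K₀] [Algebra R K]
    [IsScalarTower R K₀ K] [Algebra R B] [Algebra B K] [IsScalarTower R B K]
    [IsIntegralClosure B R K] [Algebra k B] [IsScalarTower k R B] [IsScalarTower k B K]
    (p : HeightOneSpectrum R) (ρ₀ : K₀ → κ₀) (h : Red k (p.valuation K₀) ρ₀)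
    (hR : ∀ x, p.valuation K₀ x ≤ 1 → ∃ r : R, algebraMap R K₀ r = x) :
    ∃ (T : Finset (Valuation K ℤᵐ⁰)) (f : Valuation K ℤᵐ⁰ → ℕ),
      (∀ v : Valuation K ℤᵐ⁰, Function.Surjective v → Ov (p.valuation K₀) v → v ∈ T) ∧
      (∀ α : K, α ≠ 0 → ord (p.valuation K₀) (Algebra.norm K₀ α) = ∑ v ∈ T, f v * ord v α) ∧
      ∀ v ∈ T, Ov (p.valuation K₀) v ∧ 1 ≤ f v ∧ ∃ (κ : Type) (_ : Field κ) (_ : Algebra k κ)
        (ρ : K → κ) (j : κ₀ →ₐ[k] κ), FiniteDimensional k κ ∧ Red k v ρ ∧
        (∀ x, p.valuation K₀ x ≤ 1 → ρ (algebraMap K₀ K x) = j (ρ₀ x)) ∧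
        finrank k κ = f v * finrank k κ₀ := by
  classical
  have : CharZero K₀ := charZero_of_injective_algebraMap (algebraMap k K₀).injective
  have : IsDomain B := (IsIntegralClosure.algebraMap_injective B R K).isDomain _
  have : IsDedekindDomain B := IsIntegralClosure.isDedekindDomain R K₀ K B
  have : IsFractionRing B K := IsIntegralClosure.isFractionRing_of_finite_extension R K₀ K B
  have : Module.Finite R B := IsIntegralClosure.finite R K₀ K B
  have hRK : Function.Injective (algebraMap R K) := by
    rw [IsScalarTower.algebraMap_eq R K₀ K]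
    exact (algebraMap K₀ K).injective.comp (IsFractionRing.injective R K₀)
  have hRB : Function.Injective (algebraMap R B) := by
    rw [IsScalarTower.algebraMap_eq R B K] at hRK
    exact Function.Injective.of_comp hRK
  have : FaithfulSMul R B := (faithfulSMul_iff_algebraMap_injective R B).2 hRB
  have : CharZero R := charZero_of_injective_algebraMap (algebraMap k R).injective
  have := p.isMaximal
  have hu : ∀ r : R, r ∉ p.asIdeal → IsUnit r := fun r hr => by
    have h1 := (p.valuation_eq_one_iff_notMem (K := K₀)).2 hr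
    have h0 : algebraMap R K₀ r ≠ 0 := fun e => by simp [e] at h1
    obtain ⟨r', e⟩ := hR (algebraMap R K₀ r)⁻¹ (by rw [map_inv₀, h1, inv_one])
    exact IsUnit.of_mul_eq_one r' (IsFractionRing.injective R K₀ (by
      rw [map_mul, e, mul_inv_cancel₀ h0, map_one]))
  have hl : ∀ P : HeightOneSpectrum B, P.asIdeal.LiesOver p.asIdeal := fun P => by
    have := P.isMaximal
    have h1 : (P.asIdeal.under R).IsMaximal := Ideal.IsMaximal.under R P.asIdeal
    exact ⟨(h1.eq_of_le p.isPrime.ne_top fun r hr => by_contra fun a =>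
      h1.ne_top (Ideal.eq_top_of_isUnit_mem _ hr (hu r a))).symm⟩
  have : Finite (HeightOneSpectrum B) := by
    have := (IsDedekindDomain.primesOver_finite p.asIdeal B).to_subtype
    exact Finite.of_injective (fun P : HeightOneSpectrum B =>
      (⟨P.asIdeal, P.isPrime, hl P⟩ : p.asIdeal.primesOver B)) fun P Q e =>
        HeightOneSpectrum.ext (congrArg Subtype.val e)
  let _ := Fintype.ofFinite (HeightOneSpectrum B)
  have hi : Function.Injective fun P : HeightOneSpectrum B => P.valuation K := fun P Q e =>
    HeightOneSpectrum.eq_of_valuation_isEquiv_valuation (K := K) (Valuation.IsEquiv.of_eq e)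
  refine ⟨Finset.univ.map ⟨_, hi⟩, Function.extend (fun P : HeightOneSpectrum B => P.valuation K)
    (fun P => P.asIdeal.inertiaDeg R) 0, fun v hv ⟨e, he, hv'⟩ => ?_, fun α hα => ?_, ?_⟩
  · obtain ⟨P, hP⟩ := exists_heightOne_of_valuationSubring (R := B) v.valuationSubring
      (fun b => by
        have h1 : IsIntegral R (algebraMap B K b) := IsIntegralClosure.isIntegral_iff.2 ⟨b, rfl⟩
        let φ : R →+* v.valuationSubring := (algebraMap R K).codRestrict _ fun r => by
          rw [Valuation.mem_valuationSubring_iff, IsScalarTower.algebraMap_apply R K₀ K, hv']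
          exact pow_le_one' (p.valuation_le_one r) e
        have h2 : IsIntegral v.valuationSubring (algebraMap B K b) :=
          h1.map_of_comp_eq φ (RingHom.id K) rfl
        obtain ⟨y, hy⟩ := IsIntegrallyClosed.isIntegral_iff.1 h2
        exact hy ▸ y.2)
      (fun a => by
        obtain ⟨x, hx⟩ := hv (exp 1)
        have : x ∈ v.valuationSubring := by rw [a]; trivial
        rw [Valuation.mem_valuationSubring_iff, hx, ← exp_zero, exp_le_exp] at this
        omega)
    exact Finset.mem_map.2 ⟨P, Finset.mem_univ _, val_eq_of_isEquiv (P.valuation_surjective K) hv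
      ((Valuation.isEquiv_iff_valuationSubring _ _).2 hP)⟩
  · rw [Finset.sum_map]
    simp only [Function.Embedding.coeFn_mk, hi.extend_apply]
    have hI : ∀ I : Ideal B, I ≠ ⊥ → multiplicity p.asIdeal (Ideal.relNorm R I) =
        ∑ P : HeightOneSpectrum B, P.asIdeal.inertiaDeg R * multiplicity P.asIdeal I := by
      intro I
      induction I using UniqueFactorizationMonoid.induction_on_prime with
      | h₁ => exact fun e => absurd rfl e
      | h₂ x hx =>
        intro _
        rw [Ideal.isUnit_iff.1 hx, Ideal.relNorm_top, ← Ideal.one_eq_top, ← Ideal.one_eq_top,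
          multiplicity_of_one_right p.prime.not_isUnit]
        exact (Finset.sum_eq_zero fun P _ => by
          rw [multiplicity_of_one_right P.prime.not_isUnit, mul_zero]).symm
      | h₃ a Q ha hQ ih =>
        intro _
        let Q' : HeightOneSpectrum B := ⟨Q, Ideal.isPrime_of_prime hQ, hQ.ne_zero⟩
        have := hl Q'
        have := Q'.isMaximal
        have e1 : Ideal.relNorm R Q = _ := Ideal.relNorm_eq_pow_of_isMaximal Q'.asIdeal p.asIdeal
        rw [map_mul, multiplicity_mul p.prime (FiniteMultiplicity.of_prime_left p.prime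
          (mul_ne_zero (by simpa using hQ.ne_zero) (by simpa using ha))), ih ha, e1,
          multiplicity_pow_self_of_prime p.prime]
        simp only [fun P : HeightOneSpectrum B => multiplicity_mul P.prime
          (FiniteMultiplicity.of_prime_left P.prime (mul_ne_zero hQ.ne_zero ha)), mul_add,
          Finset.sum_add_distrib]
        congr 1
        rw [Finset.sum_eq_single Q' (fun P _ hP => by
          rw [multiplicity_eq_zero.2 fun e => hP (HeightOneSpectrum.ext
            (Q'.isMaximal.eq_of_le P.isPrime.ne_top (Ideal.dvd_iff_le.1 e)).symm), mul_zero])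
          (by simp)]
        rw [show multiplicity Q'.asIdeal Q = 1 from multiplicity_self, mul_one]
    have hb : ∀ b : B, b ≠ 0 → ord (p.valuation K₀) (Algebra.norm K₀ (algebraMap B K b)) =
        ∑ P : HeightOneSpectrum B, (P.asIdeal.inertiaDeg R : ℤ) *
          ord (P.valuation K) (algebraMap B K b) := fun b b0 => by
      rw [← Algebra.algebraMap_intNorm (A := R), ord_int K₀ p (by simpa using b0),
        ← Ideal.relNorm_singleton, hI _ (by simpa using b0)]
      push_cast
      exact Finset.sum_congr rfl fun P _ => by rw [ord_int K P b0]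
    obtain ⟨a, b, hb0, rfl⟩ := IsFractionRing.div_surjective B α
    have b0 := nonZeroDivisors.ne_zero hb0
    have a0 : a ≠ 0 := fun e => hα (by simp [e])
    have a1 : algebraMap B K a ≠ 0 := by simpa using a0
    have b1 : algebraMap B K b ≠ 0 := by simpa using b0
    rw [div_eq_mul_inv, map_mul, Algebra.norm_inv, ord_mul _ (by simpa using a0) (by simpa using b0),
      ord_inv', hb a a0, hb b b0, ← sub_eq_add_neg, ← Finset.sum_sub_distrib]
    exact Finset.sum_congr rfl fun P _ => by rw [ord_mul _ a1 (inv_ne_zero b1), ord_inv']; ring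
  · intro v hv
    obtain ⟨P, -, rfl⟩ := Finset.mem_map.1 hv
    simp only [Function.Embedding.coeFn_mk, hi.extend_apply]
    have := hl P
    have := P.isMaximal
    have := P.isPrime
    let _ := Ideal.Quotient.field p.asIdeal
    let _ := Ideal.Quotient.field P.asIdeal
    obtain ⟨ρ, h1, h2⟩ := red_of_prime (K := K) k P (Ideal.Quotient.mkₐ k P.asIdeal)
      Ideal.Quotient.mk_surjective fun b => Ideal.Quotient.eq_zero_iff_mem
    let φ : R →ₐ[k] κ₀ :=
      { toFun := fun r => ρ₀ (algebraMap R K₀ r)
        map_one' := by rw [map_one, h.one]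
        map_mul' := fun a b => by
          rw [map_mul, h.mul _ _ (p.valuation_le_one a) (p.valuation_le_one b)]
        map_zero' := by rw [map_zero, h.zero]
        map_add' := fun a b => by
          rw [map_add, h.add _ _ (p.valuation_le_one a) (p.valuation_le_one b)]
        commutes' := fun c => by rw [← IsScalarTower.algebraMap_apply, h.const] }
    have hφ : Function.Surjective φ := fun y => by
      obtain ⟨a, ha, rfl⟩ := h.surj y
      obtain ⟨r, rfl⟩ := hR a ha
      exact ⟨r, rfl⟩
    have hker : p.asIdeal = RingHom.ker φ := Ideal.ext fun r =>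
      ((h.ker _ (p.valuation_le_one r)).trans (p.valuation_lt_one_iff_mem r)).symm
    let e : (R ⧸ p.asIdeal) ≃ₐ[k] κ₀ :=
      (Ideal.quotientEquivAlgOfEq k hker).trans (Ideal.quotientKerAlgEquivOfSurjective hφ)
    have : IsScalarTower k (R ⧸ p.asIdeal) (B ⧸ P.asIdeal) := .of_algebraMap_eq fun c => by
      change Ideal.Quotient.mk _ (algebraMap k B c) =
        Ideal.Quotient.mk _ (algebraMap R B (algebraMap k R c))
      rw [← IsScalarTower.algebraMap_apply]
    have : FiniteDimensional k (R ⧸ p.asIdeal) := e.symm.toLinearEquiv.finiteDimensional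
    refine ⟨⟨p.asIdeal.ramificationIdx' P.asIdeal, Nat.one_le_iff_ne_zero.2
      (Ideal.IsDedekindDomain.ramificationIdx'_ne_zero_of_liesOver P.asIdeal p.ne_bot),
      fun x => (HeightOneSpectrum.valuation_liesOver K p P x).symm⟩, Ideal.inertiaDeg_pos _ _,
      B ⧸ P.asIdeal, inferInstance, inferInstance, ρ,
      (IsScalarTower.toAlgHom k (R ⧸ p.asIdeal) _).comp e.symm,
      Module.Finite.trans (R ⧸ p.asIdeal) _, h1, fun x hx => ?_, ?_⟩
    · obtain ⟨r, rfl⟩ := hR x hx
      have e1 : e.symm (ρ₀ (algebraMap R K₀ r)) = Ideal.Quotient.mk _ r :=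
        e.symm_apply_eq.2 rfl
      rw [← IsScalarTower.algebraMap_apply, IsScalarTower.algebraMap_apply R B K, h2]
      change _ = algebraMap _ _ (e.symm _)
      rw [e1]
      rfl
    · rw [Ideal.inertiaDeg_eq_of_isMaximal p.asIdeal, ← e.toLinearEquiv.finrank_eq, mul_comm,
        finrank_mul_finrank]

end NFP

theorem p_nf : S_NF := by
  intro k K₀ K κ₀ _ _ _ _ _ _ _ _ _ _ _ _ s ρ₀ h
  have : s.IsNontrivial := by
    obtain ⟨x, hx⟩ := h.onto (exp 1)
    exact ⟨x, by rw [hx]; simp⟩
  obtain ⟨p, hp⟩ := exists_heightOne_of_valuationSubring (R := s.valuationSubring)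
    s.valuationSubring (fun r => r.2) (fun a => by
      obtain ⟨x, hx⟩ := h.onto (exp 1)
      have : x ∈ s.valuationSubring := by rw [a]; trivial
      rw [Valuation.mem_valuationSubring_iff, hx, ← exp_zero, exp_le_exp] at this
      omega)
  have e := val_eq_of_isEquiv (p.valuation_surjective K₀) h.onto
    ((Valuation.isEquiv_iff_valuationSubring _ _).2 hp)
  let _ : Algebra k s.valuationSubring := ((algebraMap k K₀).codRestrict _ h.int).toAlgebra
  have : IsScalarTower k s.valuationSubring K₀ := .of_algebraMap_eq fun _ => rfl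
  have : IsScalarTower k s.valuationSubring K := .of_algebraMap_eq fun c =>
    IsScalarTower.algebraMap_apply k K₀ K c
  have := NFP.aux k s.valuationSubring (integralClosure s.valuationSubring K) K₀ K κ₀ p ρ₀
    (e.symm ▸ h) fun x hx => ⟨⟨x, e ▸ hx⟩, rfl⟩
  rwa [e] at this

end Pool.Agent.P.MP_b8021b_nt.CU
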