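import Mathlib

/-! Quadratic extensions. -/

namespace Pool.Agent.P.MP_b8021b_nt.CU

open Module

/-- the quadratic extension by the root of a nonsquare -/
theorem quad_ext (k K₀ : Type) [Field k] [Field K₀] [Algebra k K₀] (N : K₀) (h : ∀ r, r ^ 2 ≠ N) :
    ∃ (K : Type) (_ : Field K) (_ : Algebra k K) (_ : Algebra K₀ K) (_ : IsScalarTower k K₀ K)
      (_ : FiniteDimensional K₀ K) (ω : K), finrank K₀ K = 2 ∧ ω ^ 2 = algebraMap K₀ K N ∧
      (∀ x y, Algebra.norm K₀ (algebraMap K₀ K x + algebraMap K₀ K y * ω) = x ^ 2 - N * y ^ 2) ∧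
      ∀ (K' : Type) [Field K'] [Algebra K₀ K'] (ω' : K'), ω' ^ 2 = algebraMap K₀ K' N →
        ∃ j : K →ₐ[K₀] K', j ω = ω' := by
  have : Fact (∀ r, r ^ 2 ≠ N + 0 * r) := ⟨fun r => by simpa using h r⟩
  refine ⟨QuadraticAlgebra K₀ N 0, inferInstance, inferInstance, inferInstance, inferInstance,
    inferInstance, QuadraticAlgebra.omega, QuadraticAlgebra.finrank_eq_two _ _, ?_, fun x y => ?_,
    fun K' _ _ ω' h' => ⟨QuadraticAlgebra.lift ⟨ω', ?_⟩, ?_⟩⟩
  · rw [sq, QuadraticAlgebra.omega_mul_omega_eq_mk]; rfl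
  · refine (QuadraticAlgebra.det_toLinearMap_eq_norm _).trans ?_
    simp [QuadraticAlgebra.norm_def, sq, mul_assoc]
  · rw [← sq, h', zero_smul, add_zero, Algebra.algebraMap_eq_smul_one]
  · simp

theorem dvd_fr {k K K' : Type} [Field k] [Field K] [Field K'] [Algebra k K] [Algebra k K']
    (j : K →ₐ[k] K') : ∃ f, finrank k K' = f * finrank k K := by
  let _ := j.toRingHom.toAlgebra
  have : IsScalarTower k K K' := .of_algebraMap_eq fun c => (j.commutes c).symm
  exact ⟨finrank K K', by rw [mul_comm, finrank_mul_finrank]⟩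

end Pool.Agent.P.MP_b8021b_nt.CU
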