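import Pool.Agent.P.MP_b8021b_nt.CU.BasicV
import Pool.Agent.P.MP_b8021b_nt.CU.Quad

/-! Two fibres of a double cover of the line. -/

open scoped WithZero Polynomial

namespace Pool.Agent.P.MP_b8021b_nt.CU

open WithZero Module Polynomial

set_option linter.unusedSectionVars false

namespace QFP

variable {k A : Type} [Field k] [CharZero k] [AddCommGroup A] {D : Dat k} (C : CF D A)

theorem ne_of_ind {κ : Type} [Field κ] [Algebra k κ] {x y : Fin 5 → k}
    (h : ∃ i j, x i * y j ≠ x j * y i) (ϖ : κ) :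
    (fun i => algebraMap k κ (x i) + ϖ * algebraMap k κ (y i)) ≠ 0 := fun e => by
  obtain ⟨i, j, h⟩ := h
  refine h ((algebraMap k κ).injective ?_)
  have a := congrFun e i
  have b := congrFun e j
  simp only [Pi.zero_apply] at a b
  rw [map_mul, map_mul]
  linear_combination algebraMap k κ (y j) * a - algebraMap k κ (y i) * b

theorem loc (hNF : S_NF) {K : Type} [Field K] [Algebra k K] [Algebra (RatFunc k) K]
    [IsScalarTower k (RatFunc k) K] [FiniteDimensional (RatFunc k) K] {ω : K} {Δ : k[X]}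
    {ξ₀ ξ₁ : Fin 5 → k[X]} (h2 : finrank (RatFunc k) K = 2)
    (hs : ∀ r : RatFunc k, r ^ 2 ≠ algebraMap _ _ Δ)
    (hω : ω ^ 2 = algebraMap (RatFunc k) K (algebraMap _ _ Δ))
    (hN : ∀ x y, Algebra.norm (RatFunc k) (algebraMap (RatFunc k) K x + algebraMap _ K y * ω) =
      x ^ 2 - algebraMap _ _ Δ * y ^ 2)
    (hF : ∀ (K : Type) [Field K] [Algebra k K] (τ ω : K), ω ^ 2 = aeval τ Δ →
      MvPolynomial.aeval (fun i => aeval τ (ξ₀ i) + ω * aeval τ (ξ₁ i)) D.F = 0)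
    {a : k} (h0 : Δ.eval a ≠ 0)
    (hi : ∃ i j, (ξ₀ i).eval a * (ξ₁ j).eval a ≠ (ξ₀ j).eval a * (ξ₁ i).eval a)
    {s : Valuation (RatFunc k) ℤᵐ⁰} {ρ₀ : RatFunc k → k} (hr : Red k s ρ₀)
    (hp : ∀ p : k[X], s (algebraMap _ _ p) ≤ 1 ∧ ρ₀ (algebraMap _ _ p) = p.eval a)
    {π : RatFunc k} (hπ : s π = exp (-1)) :
    ∃ (T : Finset (Valuation K ℤᵐ⁰)) (g : Valuation K ℤᵐ⁰ → A),
      (∀ v : Valuation K ℤᵐ⁰, Function.Surjective v → Ov s v → v ∈ T) ∧
      (∀ v ∈ T, Ov s v ∧ Sp C.cl v (fun i => algebraMap (RatFunc k) K (algebraMap _ _ (ξ₀ i)) +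
        ω * algebraMap (RatFunc k) K (algebraMap _ _ (ξ₁ i))) (g v)) ∧
      C.Pair (Δ.eval a) (fun i => (ξ₀ i).eval a) (fun i => (ξ₁ i).eval a)
        (∑ v ∈ T, ord v (algebraMap (RatFunc k) K π) • g v) := by
  classical
  obtain ⟨T, f, t1, t2, t3⟩ := hNF k (RatFunc k) K k s ρ₀ hr
  have hOn : ∀ (κ : Type) [Field κ] [Algebra k κ] (ϖ : κ), ϖ ^ 2 = algebraMap k κ (Δ.eval a) →
      D.On fun i => algebraMap k κ ((ξ₀ i).eval a) + ϖ * algebraMap k κ ((ξ₁ i).eval a) :=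
    fun κ _ _ ϖ h => ⟨ne_of_ind hi ϖ, by
      simpa only [aeval_algebraMap_apply_eq_algebraMap_eval] using
        hF κ (algebraMap k κ a) ϖ (by rwa [aeval_algebraMap_apply_eq_algebraMap_eval])⟩
  have key : ∀ v ∈ T, ∃ g : A, Sp C.cl v
      (fun i => algebraMap (RatFunc k) K (algebraMap _ _ (ξ₀ i)) +
        ω * algebraMap (RatFunc k) K (algebraMap _ _ (ξ₁ i))) g ∧ v ω ≤ 1 ∧
      ∃ (κ : Type) (_ : Field κ) (_ : Algebra k κ) (ϖ : κ), FiniteDimensional k κ ∧
        finrank k κ = f v ∧ ϖ ^ 2 = algebraMap k κ (Δ.eval a) ∧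
        (∀ r : k, v (ω - algebraMap k K r) < 1 ↔ ϖ = algebraMap k κ r) ∧
        g = C.cl κ fun i => algebraMap k κ ((ξ₀ i).eval a) + ϖ * algebraMap k κ ((ξ₁ i).eval a) :=
    fun v hv => by
      obtain ⟨⟨e, he, ho⟩, -, κ, _, _, ρ, j, _, hr', hj, hf⟩ := t3 v hv
      have p1 : ∀ p : k[X], v (algebraMap (RatFunc k) K (algebraMap _ _ p)) ≤ 1 := fun p => by
        rw [ho]; exact pow_le_one' (hp p).1 e
      have p2 : ∀ p : k[X], ρ (algebraMap (RatFunc k) K (algebraMap _ _ p)) =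
          algebraMap k κ (p.eval a) := fun p => by
        rw [hj _ (hp p).1, (hp p).2]; exact j.commutes _
      have w1 : v ω ≤ 1 := by
        rw [← pow_le_one_iff two_ne_zero, ← map_pow, hω]; exact p1 _
      have w2 : ρ ω ^ 2 = algebraMap k κ (Δ.eval a) := by rw [← hr'.pow w1, hω, p2]
      have m1 : ∀ i, v (ω * algebraMap (RatFunc k) K (algebraMap _ _ (ξ₁ i))) ≤ 1 := fun i => by
        rw [map_mul]; exact mul_le_one' w1 (p1 _)
      have e1 : (fun i => ρ (1 * (algebraMap (RatFunc k) K (algebraMap _ _ (ξ₀ i)) +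
          ω * algebraMap (RatFunc k) K (algebraMap _ _ (ξ₁ i))))) =
          fun i => algebraMap k κ ((ξ₀ i).eval a) + ρ ω * algebraMap k κ ((ξ₁ i).eval a) :=
        funext fun i => by rw [one_mul, hr'.add _ _ (p1 _) (m1 i), hr'.mul _ _ w1 (p1 _), p2, p2]
      refine ⟨_, ⟨κ, _, _, ρ, 1, inferInstance, hr', fun i => ?_, e1 ▸ (hOn κ _ w2).1, rfl⟩, w1,
        κ, _, _, ρ ω, inferInstance, by simpa using hf, w2, fun r => ?_, congrArg _ e1⟩
      · rw [one_smul]; exact v.map_add_le (p1 _) (m1 i)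
      · rw [← hr'.eq_iff w1 (hr'.int r), hr'.const]
  choose! g g1 g0 g2 using key
  have π0 : π ≠ 0 := fun e => exp_ne_zero (hπ.symm.trans (by rw [e, map_zero]))
  have hsum := t2 (algebraMap _ K π) (by simpa using π0)
  rw [Algebra.norm_algebraMap, ord_pow, ord_of_val s hπ, mul_one, h2] at hsum
  have hn : ∀ v ∈ T, 1 ≤ (f v : ℤ) * ord v (algebraMap (RatFunc k) K π) := fun v hv => by
    obtain ⟨⟨e, he, ho⟩, hf, -⟩ := t3 v hv
    rw [ord_of_val v (n := e) (by rw [ho, hπ, ← exp_nsmul]; simp)]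
    exact_mod_cast Nat.mul_pos hf he
  refine ⟨T, g, t1, fun v hv => ⟨(t3 v hv).1, g1 v hv⟩, fun r hr2 => ?_, fun K' _ _ ω' k2 hω' hns => ?_⟩
  · have r0 : r ≠ 0 := fun e => h0 (by rw [← hr2, e]; simp)
    have ex : ∀ r : k, r ^ 2 = Δ.eval a → ∃ v ∈ T, v (ω - algebraMap k K r) < 1 := fun r hr2 => by
      have e1 : ω - algebraMap k K r = algebraMap (RatFunc k) K (algebraMap _ _ (-Polynomial.C r)) +
          algebraMap (RatFunc k) K 1 * ω := by
        rw [map_neg, map_neg, map_one, one_mul, RatFunc.algebraMap_C,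
          IsScalarTower.algebraMap_apply k (RatFunc k) K, RatFunc.algebraMap_eq_C]
        ring
      have e2 : Algebra.norm (RatFunc k) (ω - algebraMap k K r) =
          algebraMap _ _ ((-Polynomial.C r) ^ 2 - Δ) := by
        rw [e1, hN, map_sub, map_pow, one_pow, mul_one]
      have n0 : Algebra.norm (RatFunc k) (ω - algebraMap k K r) ≠ 0 := by
        rw [e1, hN, one_pow, mul_one]; exact sub_ne_zero.2 (hs _)
      have a0 : ω - algebraMap k K r ≠ 0 := fun e => n0 (by rw [e, Algebra.norm_zero])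
      have lt : s (Algebra.norm (RatFunc k) (ω - algebraMap k K r)) < 1 := by
        rw [e2, ← hr.ker _ (hp _).1, (hp _).2]
        simp [hr2]
      by_contra hc
      push Not at hc
      rw [val_eq_exp s n0, t2 _ a0, Finset.sum_eq_zero fun v hv => by
        obtain ⟨-, -, κ, _, _, ρ, j, _, hr', -⟩ := t3 v hv
        rw [(ord_eq_zero_iff v a0).2 (le_antisymm (v.map_sub_le (g0 v hv) (hr'.int r)) (hc v hv)),
          mul_zero]] at lt
      simp at lt
    have hg : ∀ v ∈ T, ∀ r : k, r ^ 2 = Δ.eval a → v (ω - algebraMap k K r) < 1 →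
        g v = f v • C.cl k ((fun i => (ξ₀ i).eval a) + r • fun i => (ξ₁ i).eval a) :=
      fun v hv r hr2 h => by
        obtain ⟨κ, _, _, ϖ, _, a1, -, a3, a4⟩ := g2 v hv
        rw [a4, (a3 r).1 h]
        refine Eq.trans ?_
          (C.ext k κ (Algebra.ofId k κ) (f v) _ (hOn k r hr2) (by simpa using a1))
        congr 1
        funext i
        simp [Algebra.ofId_apply]
    have hpm : ∀ v ∈ T, ¬ v (ω - algebraMap k K r) < 1 ↔ v (ω - algebraMap k K (-r)) < 1 :=
      fun v hv => by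
        obtain ⟨κ, _, _, ϖ, _, -, a2, a3, -⟩ := g2 v hv
        rw [a3, a3, map_neg]
        rw [← hr2, map_pow, sq_eq_sq_iff_eq_or_eq_neg] at a2
        refine ⟨a2.resolve_left, fun e e' => r0 ((algebraMap k κ).injective ?_)⟩
        have : CharZero κ := charZero_of_injective_algebraMap (algebraMap k κ).injective
        rw [map_zero]
        linear_combination (1 / 2 : κ) * e - (1 / 2 : κ) * e'
    have hr3 : (-r) ^ 2 = Δ.eval a := by rw [neg_sq, hr2]
    obtain ⟨v₁, a1, b1⟩ := ex r hr2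
    obtain ⟨v₂, a2, b2⟩ := ex _ hr3
    rw [← Finset.sum_filter_add_sum_filter_not T fun v => v (ω - algebraMap k K r) < 1] at hsum ⊢
    have c1 := (hn v₁ a1).trans (Finset.single_le_sum (fun v hv => zero_le_one.trans
      (hn v (Finset.mem_filter.1 hv).1)) (Finset.mem_filter.2 ⟨a1, b1⟩ :
        v₁ ∈ T.filter fun v => v (ω - algebraMap k K r) < 1))
    have c2 := (hn v₂ a2).trans (Finset.single_le_sum (fun v hv => zero_le_one.trans
      (hn v (Finset.mem_filter.1 hv).1)) (Finset.mem_filter.2 ⟨a2, (hpm v₂ a2).2 b2⟩ :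
        v₂ ∈ T.filter fun v => ¬ v (ω - algebraMap k K r) < 1))
    have sm : ∀ (U : Finset (Valuation K ℤᵐ⁰)) (c : A), (∀ v ∈ U, g v = f v • c) →
        ∑ v ∈ U, (f v : ℤ) * ord v (algebraMap (RatFunc k) K π) = 1 →
        ∑ v ∈ U, ord v (algebraMap (RatFunc k) K π) • g v = c := fun U c h1 h3 => by
      rw [← one_zsmul c, ← h3, Finset.sum_smul]
      exact Finset.sum_congr rfl fun v hv => by rw [h1 v hv, mul_comm, mul_smul, natCast_zsmul]
    rw [sm _ _ (fun v hv => hg v (Finset.mem_filter.1 hv).1 r hr2 (Finset.mem_filter.1 hv).2)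
      (by push_cast at hsum; omega), sm _ _ (fun v hv => hg v (Finset.mem_filter.1 hv).1 _ hr3
        ((hpm v (Finset.mem_filter.1 hv).1).1 (Finset.mem_filter.1 hv).2))
      (by push_cast at hsum; omega), neg_smul, ← sub_eq_add_neg]
  · obtain ⟨Q, _, _, _, -, _, ϖ₀, q2, q3, -, q5⟩ := quad_ext k k _ hns
    have tr : ∀ (κ : Type) [Field κ] [Algebra k κ] [FiniteDimensional k κ] (ϖ : κ),
        ϖ ^ 2 = algebraMap k κ (Δ.eval a) → ∃ n : ℕ, finrank k κ = n * 2 ∧
        (C.cl κ fun i => algebraMap k κ ((ξ₀ i).eval a) + ϖ * algebraMap k κ ((ξ₁ i).eval a)) =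
          n • C.cl Q fun i => algebraMap k Q ((ξ₀ i).eval a) + ϖ₀ * algebraMap k Q ((ξ₁ i).eval a) :=
      fun κ _ _ _ ϖ h => by
        obtain ⟨j, hj⟩ := q5 κ ϖ h
        obtain ⟨n, hn⟩ := dvd_fr j
        refine ⟨n, q2 ▸ hn, ?_⟩
        rw [← C.ext Q κ j n _ (hOn Q ϖ₀ q3) hn]
        simp [hj]
    have : FiniteDimensional k K' := .of_finrank_pos (by omega)
    obtain ⟨n, n1, n2⟩ := tr K' ω' hω'
    rw [n2, show n = 1 by omega, one_smul]
    have key : ∀ v ∈ T, ∃ n : ℕ, f v = n * 2 ∧ g v = n • C.cl Q fun i =>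
        algebraMap k Q ((ξ₀ i).eval a) + ϖ₀ * algebraMap k Q ((ξ₁ i).eval a) := fun v hv => by
      obtain ⟨κ, _, _, ϖ, _, a1, a2, -, a4⟩ := g2 v hv
      obtain ⟨n, n1, n2⟩ := tr κ ϖ a2
      exact ⟨n, a1 ▸ n1, a4.trans n2⟩
    choose! m m1 m2 using key
    have h1 : ∑ v ∈ T, (m v : ℤ) * ord v (algebraMap (RatFunc k) K π) = 1 := by
      rw [Finset.sum_congr rfl fun v hv => show (f v : ℤ) * ord v (algebraMap (RatFunc k) K π) =
        2 * (m v * ord v (algebraMap (RatFunc k) K π)) by rw [m1 v hv]; push_cast; ring,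
        ← Finset.mul_sum] at hsum
      push_cast at hsum
      omega
    rw [← one_zsmul (C.cl Q _), ← h1, Finset.sum_smul]
    exact Finset.sum_congr rfl fun v hv => by rw [m2 v hv, mul_comm, mul_smul, natCast_zsmul]

end QFP

open QFP in
theorem p_qf (hNF : S_NF) (hRat : S_Rat) (hRst : S_Rst) (hR1 : S_R1) : S_QF := by
  classical
  intro k A _ _ _ D C Δ ξ₀ ξ₁ hF hab
  have hX : ∀ p : k[X], aeval (RatFunc.X : RatFunc k) p = algebraMap _ _ p := fun p => by
    rw [← RatFunc.algebraMap_X, aeval_algebraMap_apply, aeval_X_left_apply]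
  by_cases hs : ∃ r : RatFunc k, r ^ 2 = algebraMap _ _ Δ
  · obtain ⟨r, hr⟩ := hs
    obtain ⟨R, rfl⟩ := IsIntegrallyClosed.isIntegral_iff.1
      (IsIntegral.of_pow two_pos (hr ▸ isIntegral_algebraMap) : IsIntegral k[X] r)
    have hR : R ^ 2 = Δ := IsFractionRing.injective _ (RatFunc k) (by rw [map_pow, hr])
    have h1 : ∀ R : k[X], R ^ 2 = Δ →
        C.cl k ((fun i => (ξ₀ i).eval 0) + R.eval 0 • fun i => (ξ₁ i).eval 0) =
          C.cl k ((fun i => (ξ₀ i).eval 1) + R.eval 1 • fun i => (ξ₁ i).eval 1) := fun R hR => by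
      have e : ∀ a, ((fun i => (ξ₀ i).eval a) + R.eval a • fun i => (ξ₁ i).eval a) =
          fun i => (ξ₀ i + R * ξ₁ i).eval a := fun a => funext fun i => by simp
      rw [e, e]
      refine hR1 k A D C _ (IsFractionRing.injective _ (RatFunc k) ?_) ?_ ?_
      · have := hF (RatFunc k) RatFunc.X (algebraMap _ _ R) (by rw [hX, ← map_pow, hR])
        rw [← aeval_alg, map_zero, ← this]
        simp only [hX, map_add, map_mul]
      · rw [← e]; exact ne_of_ind (κ := k) (hab 0 (.inl rfl)).2 _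
      · rw [← e]; exact ne_of_ind (κ := k) (hab 1 (.inr rfl)).2 _
    have h2 : ∀ a, C.Pair (Δ.eval a) (fun i => (ξ₀ i).eval a) (fun i => (ξ₁ i).eval a)
        (C.cl k ((fun i => (ξ₀ i).eval a) + R.eval a • fun i => (ξ₁ i).eval a) +
          C.cl k ((fun i => (ξ₀ i).eval a) + (-R).eval a • fun i => (ξ₁ i).eval a)) := fun a => by
      refine ⟨fun r hr => ?_, fun K _ _ ω _ _ h => absurd (by rw [← hR, eval_pow]) (h (R.eval a))⟩
      rw [← hR, eval_pow, sq_eq_sq_iff_eq_or_eq_neg] at hr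
      rw [eval_neg, neg_smul, ← sub_eq_add_neg]
      rcases hr with rfl | rfl
      · rfl
      · rw [neg_smul, sub_neg_eq_add, ← sub_eq_add_neg, add_comm]
    refine ⟨_, h2 0, ?_⟩
    rw [h1 R hR, h1 (-R) (by rw [neg_sq, hR])]
    exact h2 1
  push Not at hs
  obtain ⟨K, _, _, _, _, _, ω, h2, hω, hN, -⟩ := quad_ext k (RatFunc k) _ hs
  obtain ⟨-, -, r3, -⟩ := hRat k
  obtain ⟨hcf, hres⟩ := hRst k K
  obtain ⟨s₀, ρ₀, a1, a2, a3, a4⟩ := r3 0
  obtain ⟨s₁, ρ₁, b1, b2, b3, b4⟩ := r3 1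
  rw [map_zero, sub_zero] at a3 a4
  rw [map_one] at b3 b4
  obtain ⟨T₀, g₀, c1, c2, c3⟩ := loc C hNF h2 hs hω hN hF (hab 0 (.inl rfl)).1
    (hab 0 (.inl rfl)).2 a1 a2 a3
  obtain ⟨T₁, g₁, d1, d2, d3⟩ := loc C hNF h2 hs hω hN hF (hab 1 (.inr rfl)).1
    (hab 1 (.inr rfl)).2 b1 b2 b3
  have x0 : algebraMap (RatFunc k) K RatFunc.X ≠ 0 := by simpa using RatFunc.X_ne_zero
  have x1 : algebraMap (RatFunc k) K (RatFunc.X - 1) ≠ 0 := fun e => by
    rw [(map_eq_zero _).1 e] at b3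
    exact exp_ne_zero (b3.symm.trans (map_zero _))
  have lt1 : exp (-1 : ℤ) < 1 := by rw [← exp_zero, exp_lt_exp]; omega
  have u0 : ∀ v ∈ T₀, v (algebraMap (RatFunc k) K (RatFunc.X - 1)) = 1 := fun v hv => by
    obtain ⟨e, -, he⟩ := (c2 v hv).1
    rw [he, s₀.map_sub_swap, s₀.map_one_sub_of_lt (a3 ▸ lt1), one_pow]
  have u1 : ∀ v ∈ T₁, v (algebraMap (RatFunc k) K RatFunc.X) = 1 := fun v hv => by
    obtain ⟨e, -, he⟩ := (d2 v hv).1
    rw [he, ← add_sub_cancel 1 (RatFunc.X : RatFunc k), s₁.map_one_add_of_lt (b3 ▸ lt1), one_pow]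
  have hd : Disjoint T₀ T₁ := Finset.disjoint_left.2 fun v h0 h1 => by
    obtain ⟨e, h, he⟩ := (c2 v h0).1
    exact (pow_lt_one₀ zero_le (a3 ▸ lt1) (by omega : e ≠ 0)).ne (he _ ▸ u1 v h1)
  have ho : ∀ v, ord v (algebraMap (RatFunc k) K RatFunc.X *
      (algebraMap (RatFunc k) K (RatFunc.X - 1))⁻¹) = ord v (algebraMap (RatFunc k) K RatFunc.X) -
      ord v (algebraMap (RatFunc k) K (RatFunc.X - 1)) := fun v => by
    rw [ord_mul v x0 (inv_ne_zero x1), ord_inv', ← sub_eq_add_neg]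
  have h := C.div K hcf _ _ (T₀ ∪ T₁) (fun v => if v ∈ T₀ then g₀ v else g₁ v)
    (show D.On (fun i => algebraMap (RatFunc k) K (algebraMap _ _ (ξ₀ i)) +
        ω * algebraMap (RatFunc k) K (algebraMap _ _ (ξ₁ i))) from ⟨fun e => by
      obtain ⟨i, j, h⟩ := (hab 0 (.inl rfl)).2
      have a := congrFun e i
      have b := congrFun e j
      simp only [Pi.zero_apply] at a b
      have : ξ₀ i * ξ₁ j = ξ₀ j * ξ₁ i := IsFractionRing.injective _ (RatFunc k)
        ((algebraMap (RatFunc k) K).injective (by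
          simp only [map_mul]
          linear_combination algebraMap (RatFunc k) K (algebraMap _ _ (ξ₁ j)) * a -
            algebraMap (RatFunc k) K (algebraMap _ _ (ξ₁ i)) * b))
      exact h (by rw [← eval_mul, this, eval_mul]), by
      simpa only [aeval_algebraMap_apply, hX] using hF K (algebraMap (RatFunc k) K RatFunc.X) ω
        (by rw [aeval_algebraMap_apply, hX, hω])⟩)
    (mul_ne_zero x0 (inv_ne_zero x1))
    (fun v hv h => by
      obtain ⟨s, hs, e, he, ho'⟩ := hres v hv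
      have n0 : ¬ s RatFunc.X < 1 := fun a => h (Finset.mem_union_left _
        (c1 v hv.1 ⟨e, he, a4 s hs a ▸ ho'⟩))
      have n1 : ¬ s (RatFunc.X - 1) < 1 := fun a => h (Finset.mem_union_right _
        (d1 v hv.1 ⟨e, he, b4 s hs a ▸ ho'⟩))
      have : s (RatFunc.X - 1) = s RatFunc.X := by
        rcases (not_lt.1 n0).eq_or_lt with a | a
        · exact (le_antisymm (s.map_sub_le a.ge (map_one s).le) (not_lt.1 n1)).trans a
        · exact s.map_sub_eq_of_lt_left (by rwa [map_one])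
      rw [ho, ord, ord, ho', ho', this, sub_self])
    fun v hv => by
      by_cases h0 : v ∈ T₀
      · rw [if_pos h0]; exact (c2 v h0).2
      · rw [if_neg h0]; exact (d2 v ((Finset.mem_union.1 hv).resolve_left h0)).2
  rw [Finset.sum_union hd, Finset.sum_congr rfl fun v hv => by
    rw [if_pos hv, ho, (ord_eq_zero_iff v x1).2 (u0 v hv), sub_zero],
    Finset.sum_congr (s₁ := T₁) rfl fun v hv => by
      rw [if_neg (Finset.disjoint_right.1 hd hv), ho, (ord_eq_zero_iff v x0).2 (u1 v hv), zero_sub,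
        neg_smul], Finset.sum_neg_distrib, add_neg_eq_zero] at h
  exact ⟨_, c3, h ▸ d3⟩

end Pool.Agent.P.MP_b8021b_nt.CU
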