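import Pool.Agent.P.MP_b8021b_nt.CU.BasicV

/-! Two rational points of a rational curve have the same class. -/

open scoped WithZero

namespace Pool.Agent.P.MP_b8021b_nt.CU

open MvPolynomial WithZero

theorem p_r1 (hRat : S_Rat) (hRst : S_Rst) : S_R1 := by
  classical
  intro k A _ _ _ D C η hF h0 h1
  obtain ⟨s0, ρ0, r0, p0, e0, u0⟩ := (hRat k).2.2.1 0
  obtain ⟨s1, ρ1, r1, p1, e1, u1⟩ := (hRat k).2.2.1 1
  have lin : ∀ c : k, (RatFunc.X - RatFunc.C c : RatFunc k) =
      algebraMap (Polynomial k) _ (Polynomial.X - Polynomial.C c) := fun c => by simp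
  have ne : ∀ c : k, (RatFunc.X - RatFunc.C c : RatFunc k) ≠ 0 := fun c => by
    rw [lin]
    exact RatFunc.algebraMap_ne_zero (Polynomial.X_sub_C_ne_zero c)
  have a1 : s0 (RatFunc.X - RatFunc.C 1) = 1 := by
    rw [lin, ← r0.ne_zero_iff (p0 _).1, (p0 _).2]
    simp
  have a0 : s1 (RatFunc.X - RatFunc.C 0) = 1 := by
    rw [lin, ← r1.ne_zero_iff (p1 _).1, (p1 _).2]
    simp
  have hs : s0 ≠ s1 := fun h => by
    rw [h, a0, ← exp_zero, exp_inj] at e0
    omega
  have od : ∀ v : Valuation (RatFunc k) ℤᵐ⁰,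
      ord v ((RatFunc.X - RatFunc.C 0) * (RatFunc.X - RatFunc.C 1)⁻¹) =
        ord v (RatFunc.X - RatFunc.C 0) - ord v (RatFunc.X - RatFunc.C 1) := fun v => by
    rw [ord_mul v (ne 0) (inv_ne_zero (ne 1)), ord_inv', ← sub_eq_add_neg]
  have sp : ∀ (a : k) (s : Valuation (RatFunc k) ℤᵐ⁰) (ρ : RatFunc k → k), Red k s ρ →
      (∀ p : Polynomial k, s (algebraMap _ _ p) ≤ 1 ∧ ρ (algebraMap _ _ p) = p.eval a) →
      (fun i => (η i).eval a) ≠ 0 →
      Sp C.cl s (fun i => algebraMap _ (RatFunc k) (η i)) (C.cl k fun i => (η i).eval a) := by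
    intro a s ρ r p h
    have e : (fun i => ρ (1 * algebraMap _ (RatFunc k) (η i))) = fun i => (η i).eval a :=
      funext fun i => by rw [one_mul, (p _).2]
    exact ⟨k, inferInstance, inferInstance, ρ, 1, inferInstance, r,
      fun i => by simpa using (p (η i)).1, e ▸ h, by rw [e]⟩
  have := C.div (RatFunc k) (hRst k (RatFunc k)).1 (fun i => algebraMap _ (RatFunc k) (η i))
    ((RatFunc.X - RatFunc.C 0) * (RatFunc.X - RatFunc.C 1)⁻¹) {s0, s1}
    (fun v => if v = s0 then C.cl k fun i => (η i).eval 0 else C.cl k fun i => (η i).eval 1)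
    ⟨fun h => h0 (funext fun i => by
        have := congrFun h i
        simp only [Pi.zero_apply, map_eq_zero_iff _ (RatFunc.algebraMap_injective k)] at this
        simp [this]), by rw [aeval_alg, hF, map_zero]⟩
    (mul_ne_zero (ne 0) (inv_ne_zero (ne 1)))
    (fun v hv hn => by
      simp only [Finset.mem_insert, Finset.mem_singleton, not_or] at hn
      have b0 := not_lt.1 fun h => hn.1 (u0 v hv h)
      have b1 := not_lt.1 fun h => hn.2 (u1 v hv h)
      have c0 : (RatFunc.X - RatFunc.C 0 : RatFunc k) = (RatFunc.X - RatFunc.C 1) + 1 := by simp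
      have c1 : (RatFunc.X - RatFunc.C 1 : RatFunc k) = (RatFunc.X - RatFunc.C 0) - 1 := by simp
      have : v (RatFunc.X - RatFunc.C 0) = v (RatFunc.X - RatFunc.C 1) :=
        le_antisymm (by rw [c0]; exact v.map_add_le le_rfl (by simpa using b1))
          (by rw [c1]; exact v.map_sub_le le_rfl (by simpa using b0))
      rw [od, ord, ord, this, sub_self])
    (fun v hv => by
      by_cases h : v = s0
      · rw [if_pos h, h]
        exact sp 0 s0 ρ0 r0 p0 h0
      · rw [if_neg h, Finset.mem_singleton.1 ((Finset.mem_insert.1 hv).resolve_left h)]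
        exact sp 1 s1 ρ1 r1 p1 h1)
  rw [Finset.sum_pair hs, if_pos rfl, if_neg hs.symm, od, od, ord_of_val s0 e0, ord_of_val s1 e1,
    (ord_eq_zero_iff s0 (ne 1)).2 a1, (ord_eq_zero_iff s1 (ne 0)).2 a0] at this
  simpa [add_neg_eq_zero] using this

end Pool.Agent.P.MP_b8021b_nt.CU
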