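import Pool.Agent.P.MP_b8021b_nt.CU.PNF

/-! The places of the rational function field. -/

open scoped WithZero Polynomial

namespace Pool.Agent.P.MP_b8021b_nt.CU

open IsDedekindDomain WithZero

namespace PRat

variable {k : Type} [Field k]

theorem triv {K : Type} [Field K] [Algebra k K] {s : Valuation K ℤᵐ⁰} (hs : Plc k s) {c : k}
    (hc : c ≠ 0) : s (algebraMap k K c) = 1 := by
  refine le_antisymm (hs.2 c) ?_
  have := hs.2 c⁻¹
  rwa [map_inv₀, map_inv₀, inv_le_one₀ (zero_lt_iff.2 (by simpa using hc))] at this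

/-- the residue map at a place of degree one -/
theorem deg1 {K : Type} [Field K] [Algebra k K] {s : Valuation K ℤᵐ⁰} (hs : Plc k s)
    (h : ∀ f, s f ≤ 1 → ∃ c : k, s (f - algebraMap k K c) < 1) :
    ∃ ρ : K → k, Red k s ρ ∧ ∀ f c, s (f - algebraMap k K c) < 1 → ρ f = c := by
  choose! ρ hρ using h
  have u : ∀ f c, s (f - algebraMap k K c) < 1 → ρ f = c := fun f c e => by
    have f1 : s f ≤ 1 := by simpa using s.map_add_le e.le (hs.2 c)
    by_contra ne
    have := s.map_sub_lt e (hρ f f1)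
    rw [sub_sub_sub_cancel_left, ← map_sub, triv hs (sub_ne_zero.2 ne)] at this
    exact this.false
  refine ⟨ρ, ⟨hs.1, hs.2, fun c => u _ _ (by simp), fun a b ha hb => u _ _ ?_,
    fun a b ha hb => u _ _ ?_, fun a ha => ⟨fun e => ?_, fun e => u _ _ (by simpa using e)⟩,
    fun y => ⟨_, hs.2 y, u _ _ (by simp)⟩⟩, u⟩
  · rw [map_add, add_sub_add_comm]
    exact s.map_add_lt (hρ a ha) (hρ b hb)
  · rw [map_mul, show a * b - algebraMap k K (ρ a) * algebraMap k K (ρ b) =
      (a - algebraMap k K (ρ a)) * b + algebraMap k K (ρ a) * (b - algebraMap k K (ρ b)) by ring]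
    refine s.map_add_lt ?_ ?_ <;> rw [map_mul]
    · exact (mul_le_of_le_one_right' hb).trans_lt (hρ a ha)
    · exact (mul_le_of_le_one_left' (hs.2 _)).trans_lt (hρ b hb)
  · simpa [e] using hρ a ha

theorem cls_fin {s : Valuation (RatFunc k) ℤᵐ⁰} (hs : Plc k s) (h : s RatFunc.X ≤ 1) :
    ∃ P : HeightOneSpectrum k[X], P.valuation (RatFunc k) = s := by
  obtain ⟨P, hP⟩ := exists_heightOne_of_valuationSubring (R := k[X]) s.valuationSubring
    (fun p => by
      rw [← RatFunc.aeval_X_left_eq_algebraMap]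
      exact (Algebra.adjoin_le (S := vsub hs.2) (Set.singleton_subset_iff.2 h))
        (Polynomial.aeval_mem_adjoin_singleton k _))
    fun e => by
      obtain ⟨y, hy⟩ := hs.1 (exp 1)
      have : s y ≤ 1 := (Valuation.mem_valuationSubring_iff _ _).1 (e ▸ ValuationSubring.mem_top y)
      rw [hy, ← exp_zero, exp_le_exp] at this
      omega
  exact ⟨P, val_eq_of_isEquiv (P.valuation_surjective _) hs.1
    ((Valuation.isEquiv_iff_valuationSubring _ _).2 hP)⟩

variable [DecidableEq (RatFunc k)]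

theorem plc_inf : Plc k (RatFunc.inftyValuation k) := by
  refine ⟨fun x => ?_, fun c => ?_⟩
  · rcases eq_or_ne x 0 with rfl | h
    · exact ⟨0, map_zero _⟩
    · exact ⟨_, (RatFunc.inftyValuation.X_zpow k (log x)).trans (exp_log h)⟩
  · rcases eq_or_ne c 0 with rfl | h
    · simp
    · exact (RatFunc.inftyValuation.C k h).le

theorem cls_inf {s : Valuation (RatFunc k) ℤᵐ⁰} (hs : Plc k s) (h : 1 < s RatFunc.X) :
    s = RatFunc.inftyValuation k :=
  have : s.IsTrivialOn k := ⟨fun _ => triv hs⟩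
  val_eq_of_isEquiv hs.1 plc_inf.1
    (RatFunc.valuation_isEquiv_inftyValuation_of_one_lt_valuation_X h)

theorem inf_poly {p : k[X]} (hp : p ≠ 0) :
    RatFunc.inftyValuation k (algebraMap _ _ p) = exp (p.natDegree : ℤ) :=
  RatFunc.inftyValuation.polynomial k hp

theorem inf_lt {p q : k[X]} (hq : q ≠ 0) (h : p.natDegree ≤ q.natDegree) :
    RatFunc.inftyValuation k (algebraMap _ _ p / algebraMap _ _ q -
      algebraMap k _ (p.coeff q.natDegree / q.leadingCoeff)) < 1 := by
  have q0 : algebraMap k[X] (RatFunc k) q ≠ 0 := by simpa using hq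
  set c := p.coeff q.natDegree / q.leadingCoeff with hc
  rw [show algebraMap _ _ p / algebraMap _ _ q - algebraMap k (RatFunc k) c =
      algebraMap _ _ (p - Polynomial.C c * q) / algebraMap _ _ q by
    rw [map_sub, map_mul, sub_div, mul_div_cancel_right₀ _ q0]; rfl]
  rcases eq_or_ne (p - Polynomial.C c * q) 0 with e | e
  · simp [e]
  rw [map_div₀, inf_poly e, inf_poly hq, ← exp_sub, ← exp_zero, exp_lt_exp, sub_neg, Nat.cast_lt,
    Polynomial.natDegree_lt_iff_degree_lt e, Polynomial.degree_lt_iff_coeff_zero]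
  intro m hm
  rw [Polynomial.coeff_sub, Polynomial.coeff_C_mul]
  rcases hm.eq_or_lt with rfl | hm
  · rw [hc, Polynomial.coeff_natDegree,
      div_mul_cancel₀ _ (Polynomial.leadingCoeff_ne_zero.2 hq), sub_self]
  · rw [Polynomial.coeff_eq_zero_of_natDegree_lt hm,
      Polynomial.coeff_eq_zero_of_natDegree_lt (h.trans_lt hm), mul_zero, sub_self]

theorem red_inf : ∃ ρ : RatFunc k → k, Red k (RatFunc.inftyValuation k) ρ ∧
    ∀ f c, RatFunc.inftyValuation k (f - algebraMap k _ c) < 1 → ρ f = c := by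
  refine deg1 plc_inf fun f hf => ?_
  rcases eq_or_ne f 0 with rfl | h
  · exact ⟨0, by simp⟩
  rw [← RatFunc.num_div_denom f] at hf ⊢
  refine ⟨_, inf_lt (RatFunc.denom_ne_zero f) ?_⟩
  rwa [map_div₀, inf_poly (RatFunc.num_ne_zero h), inf_poly (RatFunc.denom_ne_zero f), ← exp_sub,
    ← exp_zero, exp_le_exp, sub_nonpos, Nat.cast_le] at hf

end PRat

open PRat

theorem p_rat : S_Rat := by
  intro k _
  classical
  obtain ⟨ρ, hρ, hu⟩ := red_inf (k := k)
  refine ⟨fun s hs => ?_, fun f hf => ?_, fun a => ?_, _, ρ, hρ, fun m p hp => ?_,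
    RatFunc.inftyValuation.X k, fun s' => cls_inf⟩
  · rcases le_or_gt (s RatFunc.X) 1 with h | h
    · obtain ⟨P, rfl⟩ := cls_fin hs h
      have := P.isMaximal
      let _ := Ideal.Quotient.field P.asIdeal
      obtain ⟨σ, hσ, -⟩ := NFP.red_of_prime k (K := RatFunc k) P (Ideal.Quotient.mkₐ k P.asIdeal)
        Ideal.Quotient.mk_surjective fun _ => Ideal.Quotient.eq_zero_iff_mem
      exact ⟨_, _, _, σ, finite_of_finite_type_of_isJacobsonRing k _, hσ⟩
    · exact ⟨k, _, _, ρ, inferInstance, cls_inf hs h ▸ hρ⟩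
  · refine ((((HeightOneSpectrum.Support.finite k[X] f).union
      (HeightOneSpectrum.Support.finite k[X] f⁻¹)).image fun P => P.valuation (RatFunc k)).insert
        (RatFunc.inftyValuation k)).subset fun s ⟨hs, h0⟩ => ?_
    rcases le_or_gt (s RatFunc.X) 1 with h | h
    · obtain ⟨P, rfl⟩ := cls_fin hs h
      refine Or.inr ⟨P, ?_, rfl⟩
      rcases lt_or_gt_of_ne (mt (ord_eq_zero_iff _ hf).2 h0) with e | e
      · refine Or.inr ?_
        change 1 < P.valuation _ f⁻¹
        rwa [map_inv₀, one_lt_inv₀ (zero_lt_iff.2 (by simpa using hf))]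
      · exact Or.inl e
    · exact Or.inl (cls_inf hs h)
  · have ne := Polynomial.X_sub_C_ne_zero a
    let P : HeightOneSpectrum k[X] := ⟨Ideal.span {Polynomial.X - Polynomial.C a},
      (Ideal.span_singleton_prime ne).2 (Polynomial.prime_X_sub_C a), by simpa using ne⟩
    obtain ⟨σ, hσ, e⟩ := NFP.red_of_prime k (K := RatFunc k) P (Polynomial.aeval a)
      (fun c => ⟨Polynomial.C c, by simp⟩) fun b => by
        rw [Ideal.mem_span_singleton, Polynomial.dvd_iff_isRoot, Polynomial.coe_aeval_eq_eval]; rfl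
    have eX : (RatFunc.X - RatFunc.C a : RatFunc k) =
        algebraMap k[X] _ (Polynomial.X - Polynomial.C a) := by simp
    refine ⟨_, σ, hσ, fun p => ⟨P.valuation_le_one p, by rw [e, Polynomial.coe_aeval_eq_eval]⟩,
      ?_, fun s' hs h => ?_⟩
    · rw [eX]
      exact (P.valuation_of_algebraMap _).trans (P.intValuation_singleton ne rfl)
    · obtain ⟨P', rfl⟩ := cls_fin hs (by simpa using s'.map_add_le h.le (hs.2 a))
      rw [eX] at h
      have : P = P' := HeightOneSpectrum.ext (P.isMaximal.eq_of_le P'.isPrime.ne_top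
        ((Ideal.span_singleton_le_iff_mem _).2 ((P'.valuation_lt_one_iff_mem _).1 h)))
      rw [this]
  · have := inf_lt (p := p) (pow_ne_zero m Polynomial.X_ne_zero) (by simpa using hp)
    rw [map_pow, RatFunc.algebraMap_X, Polynomial.natDegree_X_pow, Polynomial.leadingCoeff_X_pow,
      div_one] at this
    exact ⟨by simpa using (RatFunc.inftyValuation k).map_add_le this.le (hρ.int (p.coeff m)),
      hu _ _ this⟩

end Pool.Agent.P.MP_b8021b_nt.CU
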