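import Pool.Agent.P.MP_b8021b_nt.CU.Basic

/-! Double lines and singular points. -/

namespace Pool.Agent.P.MP_b8021b_nt.CU

open MvPolynomial
open Pool.Agent.P.MP_b8021b_nt.CH (Qf dl)

namespace RkP

section Abstract

variable {κ : Type} [Field κ]

/-- the first derivative of the discriminant -/
def D1 (l1 l2 l3 q1 q2 c a1 a2 a3 a4 a5 a6 : κ) : κ :=
  (4 * l3 * c - q2 ^ 2) * a1 + (q1 * q2 - 2 * c * l2) * a2 + (4 * l1 * c - q1 ^ 2) * a3 +
    (l2 * q2 - 2 * l3 * q1) * a4 + (l2 * q1 - 2 * l1 * q2) * a5 + (4 * l1 * l3 - l2 ^ 2) * a6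

/-- the second derivative of the discriminant -/
def D2 (l1 l2 l3 q1 q2 c a1 a2 a3 a4 a5 a6 b1 b2 b3 b4 b5 b6 : κ) : κ :=
  4 * ((a1 * b3 + a3 * b1) * c + (a1 * b6 + a6 * b1) * l3 + (a3 * b6 + a6 * b3) * l1) +
    ((a2 * b4 + a4 * b2) * q2 + (a2 * b5 + a5 * b2) * q1 + (a4 * b5 + a5 * b4) * l2) -
    2 * ((a1 * b5 + a5 * b1) * q2 + l1 * a5 * b5) - 2 * ((a3 * b4 + a4 * b3) * q1 + l3 * a4 * b4) -
    2 * ((a6 * b2 + a2 * b6) * l2 + c * a2 * b2)

variable {l1 l2 l3 q1 q2 c : κ}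

theorem minors (h : dl l1 l2 l3 q1 q2 c = 0) (e0 : q2 ^ 2 - 4 * l3 * c = 0)
    (e1 : q1 ^ 2 - 4 * l1 * c = 0) :
    q1 * q2 - 2 * c * l2 = 0 ∧ l2 * q2 - 2 * l3 * q1 = 0 ∧ l2 * q1 - 2 * l1 * q2 = 0 := by
  unfold dl at h
  refine ⟨pow_eq_zero_iff two_ne_zero |>.1 ?_, pow_eq_zero_iff two_ne_zero |>.1 ?_,
    pow_eq_zero_iff two_ne_zero |>.1 ?_⟩
  · linear_combination (q1 ^ 2 - 4 * l1 * c) * e0 - 4 * c * h
  · linear_combination (l2 ^ 2 - 4 * l1 * l3) * e0 - 4 * l3 * h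
  · linear_combination (l2 ^ 2 - 4 * l1 * l3) * e1 - 4 * l1 * h

theorem D1_zero (h : dl l1 l2 l3 q1 q2 c = 0) (e0 : q2 ^ 2 - 4 * l3 * c = 0)
    (e1 : q1 ^ 2 - 4 * l1 * c = 0) (e2 : l2 ^ 2 - 4 * l1 * l3 = 0) (a1 a2 a3 a4 a5 a6 : κ) :
    D1 l1 l2 l3 q1 q2 c a1 a2 a3 a4 a5 a6 = 0 := by
  obtain ⟨m1, m2, m3⟩ := minors h e0 e1
  unfold D1
  linear_combination -a1 * e0 + a2 * m1 - a3 * e1 + a4 * m2 + a5 * m3 - a6 * e2

theorem one {y0 y1 : κ} (g0 : 2 * l1 * y0 + l2 * y1 + q1 = 0) (g1 : l2 * y0 + 2 * l3 * y1 + q2 = 0)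
    (hq : Qf l1 l2 l3 q1 q2 c y0 y1 1 = 0) (e2 : l2 ^ 2 - 4 * l1 * l3 = 0)
    {a1 a2 a3 a4 a5 a6 : Fin 3 → κ}
    (ha : ∀ i, Qf (a1 i) (a2 i) (a3 i) (a4 i) (a5 i) (a6 i) y0 y1 1 = 0) (H : Fin 3 → Fin 3 → κ)
    (hH : ∀ i j, H i j = D2 l1 l2 l3 q1 q2 c (a1 i) (a2 i) (a3 i) (a4 i) (a5 i) (a6 i)
      (a1 j) (a2 j) (a3 j) (a4 j) (a5 j) (a6 j)) (i j i' j' : Fin 3) :
    H i j * H i' j' = H i j' * H i' j := by
  set v : Fin 3 → κ := fun i => 2 * a1 i * y0 + a2 i * y1 + a4 i with hv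
  set w : Fin 3 → κ := fun i => a2 i * y0 + 2 * a3 i * y1 + a5 i with hw
  have k : ∀ i j, H i j =
      -(2 * l3 * v i * v j - l2 * (v i * w j + w i * v j) + 2 * l1 * w i * w j) := fun i j => by
    have p1 : q1 = -(2 * l1 * y0 + l2 * y1) := by linear_combination g0
    have p2 : q2 = -(l2 * y0 + 2 * l3 * y1) := by linear_combination g1
    have p3 : c = l1 * y0 ^ 2 + l2 * y0 * y1 + l3 * y1 ^ 2 := by
      unfold Qf at hq
      linear_combination hq - y0 * g0 - y1 * g1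
    have p4 : ∀ i, a6 i =
        -(a1 i * y0 ^ 2 + a2 i * y0 * y1 + a3 i * y1 ^ 2 + a4 i * y0 + a5 i * y1) := fun i => by
      have := ha i
      unfold Qf at this
      linear_combination this
    rw [hH, D2, p4 i, p4 j, p1, p2, p3]
    simp only [hv, hw]
    ring
  rw [k, k, k, k]
  linear_combination -((v i * w i' - w i * v i') * (v j * w j' - w j * v j')) * e2

theorem last {y0 y1 z : κ} (hz : z ≠ 0) (h : dl l1 l2 l3 q1 q2 c = 0)
    (e0 : q2 ^ 2 - 4 * l3 * c = 0) (e1 : q1 ^ 2 - 4 * l1 * c = 0) (e2 : l2 ^ 2 - 4 * l1 * l3 = 0)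
    (hq : Qf l1 l2 l3 q1 q2 c y0 y1 z = 0) {a1 a2 a3 a4 a5 a6 : Fin 3 → κ}
    (ha : ∀ i, Qf (a1 i) (a2 i) (a3 i) (a4 i) (a5 i) (a6 i) y0 y1 z = 0) (H : Fin 3 → Fin 3 → κ)
    (hH : ∀ i j, H i j = D2 l1 l2 l3 q1 q2 c (a1 i) (a2 i) (a3 i) (a4 i) (a5 i) (a6 i)
      (a1 j) (a2 j) (a3 j) (a4 j) (a5 j) (a6 j)) (i j i' j' : Fin 3) :
    H i j * H i' j' = H i j' * H i' j := by
  obtain ⟨m1, m2, m3⟩ := minors h e0 e1
  obtain ⟨s, rfl⟩ : ∃ s, y0 = z * s := ⟨y0 / z, by field_simp⟩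
  obtain ⟨t, rfl⟩ : ∃ t, y1 = z * t := ⟨y1 / z, by field_simp⟩
  have sc : ∀ {b1 b2 b3 b4 b5 b6 : κ}, Qf b1 b2 b3 b4 b5 b6 (z * s) (z * t) z = 0 →
      Qf b1 b2 b3 b4 b5 b6 s t 1 = 0 := fun h => by
    refine mul_left_cancel₀ (pow_ne_zero 2 hz) ?_
    unfold Qf at h ⊢
    linear_combination h
  have hq' := sc hq
  refine one ?_ ?_ hq' e2 (fun i => sc (ha i)) H hH i j i' j' <;> unfold Qf at hq' <;>
    refine (pow_eq_zero_iff two_ne_zero).1 ?_
  · linear_combination 4 * l1 * hq' + t ^ 2 * e2 + e1 + 2 * t * m3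
  · linear_combination 4 * l3 * hq' + s ^ 2 * e2 + e0 + 2 * s * m2

end Abstract

variable {O κ : Type} [CommRing O] [Field κ] [Algebra O κ] (D : Dat O)

theorem pd_δ (i : Fin 3) : pderiv i D.δ =
    (4 * D.l₃ * D.c - D.q₂ ^ 2) * pderiv i D.l₁ + (D.q₁ * D.q₂ - 2 * D.c * D.l₂) * pderiv i D.l₂ +
    (4 * D.l₁ * D.c - D.q₁ ^ 2) * pderiv i D.l₃ + (D.l₂ * D.q₂ - 2 * D.l₃ * D.q₁) * pderiv i D.q₁ +
    (D.l₂ * D.q₁ - 2 * D.l₁ * D.q₂) * pderiv i D.q₂ +
    (4 * D.l₁ * D.l₃ - D.l₂ ^ 2) * pderiv i D.c := by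
  have h4 : pderiv i (4 : MvPolynomial (Fin 3) O) = 0 := Derivation.map_natCast _ 4
  simp only [Dat.δ, sq, map_add, map_sub, Derivation.leibniz, smul_eq_mul, h4]
  ring

theorem d1 (b : Fin 3 → κ) (i : Fin 3) : aeval b (pderiv i D.δ) =
    D1 (aeval b D.l₁) (aeval b D.l₂) (aeval b D.l₃) (aeval b D.q₁) (aeval b D.q₂) (aeval b D.c)
      (aeval b (pderiv i D.l₁)) (aeval b (pderiv i D.l₂)) (aeval b (pderiv i D.l₃))
      (aeval b (pderiv i D.q₁)) (aeval b (pderiv i D.q₂)) (aeval b (pderiv i D.c)) := by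
  simp only [pd_δ, D1, map_add, map_sub, map_mul, map_pow, map_ofNat]

theorem d2 (b : Fin 3 → κ) (i j : Fin 3) : aeval b (pderiv i (pderiv j D.δ)) =
    D2 (aeval b D.l₁) (aeval b D.l₂) (aeval b D.l₃) (aeval b D.q₁) (aeval b D.q₂) (aeval b D.c)
      (aeval b (pderiv i D.l₁)) (aeval b (pderiv i D.l₂)) (aeval b (pderiv i D.l₃))
      (aeval b (pderiv i D.q₁)) (aeval b (pderiv i D.q₂)) (aeval b (pderiv i D.c))
      (aeval b (pderiv j D.l₁)) (aeval b (pderiv j D.l₂)) (aeval b (pderiv j D.l₃))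
      (aeval b (pderiv j D.q₁)) (aeval b (pderiv j D.q₂)) (aeval b (pderiv j D.c)) +
    D1 (aeval b D.l₁) (aeval b D.l₂) (aeval b D.l₃) (aeval b D.q₁) (aeval b D.q₂) (aeval b D.c)
      (aeval b (pderiv i (pderiv j D.l₁))) (aeval b (pderiv i (pderiv j D.l₂)))
      (aeval b (pderiv i (pderiv j D.l₃))) (aeval b (pderiv i (pderiv j D.q₁)))
      (aeval b (pderiv i (pderiv j D.q₂))) (aeval b (pderiv i (pderiv j D.c))) := by
  have h4 : pderiv i (4 : MvPolynomial (Fin 3) O) = 0 := Derivation.map_natCast _ 4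
  have h2 : pderiv i (2 : MvPolynomial (Fin 3) O) = 0 := Derivation.map_natCast _ 2
  simp only [pd_δ, sq, D1, D2, map_add, map_sub, Derivation.leibniz, smul_eq_mul, h4, h2, map_mul,
    map_ofNat, map_zero]
  ring

/-- the inclusion of the indices -/
def ι : Fin 3 → Fin 5 := ![0, 1, 2]

theorem pd_up (i : Fin 3) (f : MvPolynomial (Fin 3) O) :
    pderiv (ι i) (up f) = up (pderiv i f) :=
  pderiv_rename (f := ι) (by decide) i f

theorem pd_up_zero {j : Fin 5} (hj : ∀ i, ι i ≠ j) (f : MvPolynomial (Fin 3) O) :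
    pderiv j (up f) = 0 := by
  induction f using MvPolynomial.induction_on with
  | C a => simp [up]
  | add p q hp hq => rw [up, map_add, map_add]; exact (congrArg₂ _ hp hq).trans (add_zero _)
  | mul_X p l hp =>
    have : pderiv j (X (ι l) : MvPolynomial (Fin 5) O) = 0 := pderiv_X_of_ne (hj l)
    rw [up, map_mul, rename_X, Derivation.leibniz]
    exact (congrArg₂ (fun a b => _ • a + _ • b) this hp).trans (by simp)

theorem f1 (ξ : Fin 5 → κ) (i : Fin 3) : aeval ξ (pderiv (ι i) D.F) =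
    Qf (aeval (bs ξ) (pderiv i D.l₁)) (aeval (bs ξ) (pderiv i D.l₂)) (aeval (bs ξ) (pderiv i D.l₃))
      (aeval (bs ξ) (pderiv i D.q₁)) (aeval (bs ξ) (pderiv i D.q₂)) (aeval (bs ξ) (pderiv i D.c))
      (ξ 3) (ξ 4) 1 := by
  have h3 : pderiv (ι i) (X 3 : MvPolynomial (Fin 5) O) = 0 :=
    pderiv_X_of_ne (by fin_cases i <;> decide)
  have h4 : pderiv (ι i) (X 4 : MvPolynomial (Fin 5) O) = 0 :=
    pderiv_X_of_ne (by clear h3; fin_cases i <;> decide)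
  simp only [Dat.F, Qf, sq, map_add, Derivation.leibniz, smul_eq_mul, h3, h4, pd_up, map_mul,
    aeval_up, aeval_X, map_zero]
  ring

theorem f3 (ξ : Fin 5 → κ) : aeval ξ (pderiv 3 D.F) =
    2 * aeval (bs ξ) D.l₁ * ξ 3 + aeval (bs ξ) D.l₂ * ξ 4 + aeval (bs ξ) D.q₁ := by
  have h4 : pderiv 3 (X 4 : MvPolynomial (Fin 5) O) = 0 := pderiv_X_of_ne (by decide)
  simp only [Dat.F, sq, map_add, Derivation.leibniz, smul_eq_mul, h4, pderiv_X_self,
    pd_up_zero (j := 3) (by decide), map_mul, aeval_up, aeval_X, map_zero, map_one]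
  ring

theorem f4 (ξ : Fin 5 → κ) : aeval ξ (pderiv 4 D.F) =
    aeval (bs ξ) D.l₂ * ξ 3 + 2 * aeval (bs ξ) D.l₃ * ξ 4 + aeval (bs ξ) D.q₂ := by
  have h3 : pderiv 4 (X 3 : MvPolynomial (Fin 5) O) = 0 := pderiv_X_of_ne (by decide)
  simp only [Dat.F, sq, map_add, Derivation.leibniz, smul_eq_mul, h3, pderiv_X_self,
    pd_up_zero (j := 4) (by decide), map_mul, aeval_up, aeval_X, map_zero, map_one]
  ring

end RkP

open RkP in
theorem p_rk : S_Rk := by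
  intro O κ _ _ _ D b hb
  have xi : D.Xi b → dl (aeval b D.l₁) (aeval b D.l₂) (aeval b D.l₃) (aeval b D.q₁) (aeval b D.q₂)
      (aeval b D.c) = 0 ∧ aeval b D.q₂ ^ 2 - 4 * aeval b D.l₃ * aeval b D.c = 0 ∧
      aeval b D.q₁ ^ 2 - 4 * aeval b D.l₁ * aeval b D.c = 0 ∧
      aeval b D.l₂ ^ 2 - 4 * aeval b D.l₁ * aeval b D.l₃ = 0 := fun h =>
    ⟨D.δ_eq b ▸ h.1, D.e0 b ▸ h.2 0, D.e1 b ▸ h.2 1, D.e2 b ▸ h.2 2⟩
  refine ⟨fun h => ⟨hb, h.1, fun i => ?_⟩, fun y _ hy hq h hF => ?_, fun ξ e hξ _ hF => ?_⟩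
  · obtain ⟨h0, e0, e1, e2⟩ := xi h
    rw [d1, D1_zero h0 e0 e1 e2]
  · obtain ⟨h0, e0, e1, e2⟩ := xi h
    have ha : ∀ i, Qf (aeval b (pderiv i D.l₁)) (aeval b (pderiv i D.l₂))
        (aeval b (pderiv i D.l₃)) (aeval b (pderiv i D.q₁)) (aeval b (pderiv i D.q₂))
        (aeval b (pderiv i D.c)) (y 0) (y 1) (y 2) = 0 := fun i => by
      have := hF (ι i)
      rw [f1, bs_pt, aeval_smul D.hl₁.pderiv, aeval_smul D.hl₂.pderiv, aeval_smul D.hl₃.pderiv,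
        aeval_smul D.hq₁.pderiv, aeval_smul D.hq₂.pderiv, aeval_smul D.hc.pderiv] at this
      have p3 : pt b y 3 = y 0 := rfl
      have p4 : pt b y 4 = y 1 := rfl
      rw [p3, p4] at this
      unfold Qf at this ⊢
      norm_num at this
      linear_combination this
    have hH := fun i j => (d2 D b i j).trans (by rw [D1_zero h0 e0 e1 e2, add_zero])
    unfold Dat.Q at hq
    by_cases z2 : y 2 = 0
    · by_cases z1 : y 1 = 0
      · have z0 : y 0 ≠ 0 := fun z0 => hy (by rw [← vec3 y, z0, z1, z2]; simp)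
        refine last (l1 := aeval b D.c) (l2 := aeval b D.q₂) (l3 := aeval b D.l₃)
          (q1 := aeval b D.q₁) (q2 := aeval b D.l₂) (c := aeval b D.l₁) (y0 := y 2) (y1 := y 1) z0
          ?_ (by linear_combination e2) (by linear_combination e1) (by linear_combination e0) ?_
          (a1 := fun i => aeval b (pderiv i D.c)) (a2 := fun i => aeval b (pderiv i D.q₂))
          (a3 := fun i => aeval b (pderiv i D.l₃)) (a4 := fun i => aeval b (pderiv i D.q₁))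
          (a5 := fun i => aeval b (pderiv i D.l₂)) (a6 := fun i => aeval b (pderiv i D.l₁))
          (fun i => ?_) _ fun i j => (hH i j).trans ?_
        · unfold dl at h0 ⊢
          linear_combination h0
        · unfold Qf at hq ⊢
          linear_combination hq
        · have := ha i
          unfold Qf at this ⊢
          linear_combination this
        · unfold D2
          ring
      · refine last (l1 := aeval b D.l₁) (l2 := aeval b D.q₁) (l3 := aeval b D.c)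
          (q1 := aeval b D.l₂) (q2 := aeval b D.q₂) (c := aeval b D.l₃) (y0 := y 0) (y1 := y 2) z1
          ?_ (by linear_combination e0) (by linear_combination e2) (by linear_combination e1) ?_
          (a1 := fun i => aeval b (pderiv i D.l₁)) (a2 := fun i => aeval b (pderiv i D.q₁))
          (a3 := fun i => aeval b (pderiv i D.c)) (a4 := fun i => aeval b (pderiv i D.l₂))
          (a5 := fun i => aeval b (pderiv i D.q₂)) (a6 := fun i => aeval b (pderiv i D.l₃))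
          (fun i => ?_) _ fun i j => (hH i j).trans ?_
        · unfold dl at h0 ⊢
          linear_combination h0
        · unfold Qf at hq ⊢
          linear_combination hq
        · have := ha i
          unfold Qf at this ⊢
          linear_combination this
        · unfold D2
          ring
    · exact last z2 h0 e0 e1 e2 hq ha _ hH
  · subst e
    have g0 := f3 D ξ ▸ hF 3
    have g1 := f4 D ξ ▸ hF 4
    have hq : Qf (aeval (bs ξ) D.l₁) (aeval (bs ξ) D.l₂) (aeval (bs ξ) D.l₃) (aeval (bs ξ) D.q₁)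
      (aeval (bs ξ) D.q₂) (aeval (bs ξ) D.c) (ξ 3) (ξ 4) 1 = 0 := (D.F_eq ξ).symm.trans hξ
    have p1 : aeval (bs ξ) D.q₁ = -(2 * aeval (bs ξ) D.l₁ * ξ 3 + aeval (bs ξ) D.l₂ * ξ 4) := by
      linear_combination g0
    have p2 : aeval (bs ξ) D.q₂ = -(aeval (bs ξ) D.l₂ * ξ 3 + 2 * aeval (bs ξ) D.l₃ * ξ 4) := by
      linear_combination g1
    have p3 : aeval (bs ξ) D.c = aeval (bs ξ) D.l₁ * ξ 3 ^ 2 + aeval (bs ξ) D.l₂ * ξ 3 * ξ 4 +
        aeval (bs ξ) D.l₃ * ξ 4 ^ 2 := by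
      unfold Qf at hq
      linear_combination hq - ξ 3 * g0 - ξ 4 * g1
    refine ⟨hb, ?_, fun i => ?_⟩
    · rw [D.δ_eq, dl, p1, p2, p3]
      ring
    · have := f1 D ξ i ▸ hF (ι i)
      unfold Qf at this
      rw [d1, D1, p1, p2, p3]
      linear_combination (4 * aeval (bs ξ) D.l₁ * aeval (bs ξ) D.l₃ - aeval (bs ξ) D.l₂ ^ 2) * this

end Pool.Agent.P.MP_b8021b_nt.CU
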