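import Pool.Agent.P.MP_b8021b_nt.CU.St

/-! Restriction of a place to the rational function field. -/

open scoped WithZero IntermediateField

namespace Pool.Agent.P.MP_b8021b_nt.CU

open WithZero

namespace PRst

variable {F K : Type} [Field F] [Field K] [Algebra F K]

/-- the restriction to a subfield of finite index is not trivial -/
theorem nontriv [FiniteDimensional F K] {v : Valuation K ℤᵐ⁰} (hv : Function.Surjective v) :
    ∃ x : F, 1 < v (algebraMap F K x) := by
  by_contra h
  push Not at h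
  obtain ⟨y, hy⟩ := hv (exp 1)
  let _ : Algebra F v.integer := ((algebraMap F K).codRestrict v.integer h).toAlgebra
  have : IsScalarTower F v.integer K := .of_algebraMap_eq fun _ => rfl
  have := (Valuation.integer.integers v).mem_of_integral
    ((Algebra.IsIntegral.isIntegral (R := F) y).tower_top)
  rw [Valuation.mem_integer_iff, hy, ← exp_zero, exp_le_exp] at this
  omega

theorem root [FiniteDimensional F K] {v : Valuation K ℤᵐ⁰} (hv : Function.Surjective v) :
    ∃ e : ℕ, 1 ≤ e ∧ (∀ x : F, ∃ a, v (algebraMap F K x) = a ^ e) ∧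
      ∀ a, ∃ x : F, v (algebraMap F K x) = a ^ e := by
  let H : AddSubgroup ℤ :=
    { carrier := {n | ∃ x : F, v (algebraMap F K x) = exp n}
      zero_mem' := ⟨1, by simp⟩
      add_mem' := fun ⟨x, hx⟩ ⟨y, hy⟩ => ⟨x * y, by rw [map_mul, map_mul, hx, hy, exp_add]⟩
      neg_mem' := fun ⟨x, hx⟩ => ⟨x⁻¹, by rw [map_inv₀, map_inv₀, hx, exp_neg]⟩ }
  obtain ⟨g, hg⟩ := Int.subgroup_cyclic H
  have key : ∀ n, (∃ x : F, v (algebraMap F K x) = exp n) ↔ (g.natAbs : ℤ) ∣ n := fun n => by
    rw [Int.natAbs_dvd, ← Int.mem_zmultiples_iff, AddSubgroup.zmultiples_eq_closure, ← hg]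
    rfl
  have g0 : g.natAbs ≠ 0 := fun e => by
    obtain ⟨x, hx⟩ := nontriv (F := F) hv
    have h0 := (zero_lt_one.trans hx).ne'
    have := (key _).1 ⟨x, (exp_log h0).symm⟩
    rw [e, Nat.cast_zero, zero_dvd_iff] at this
    rw [← exp_log h0, this, exp_zero] at hx
    exact hx.false
  refine ⟨g.natAbs, by omega, fun x => ?_, fun a => ?_⟩
  · rcases eq_or_ne (v (algebraMap F K x)) 0 with h | h
    · exact ⟨0, by rw [h, zero_pow g0]⟩
    · obtain ⟨c, hc⟩ := (key _).1 ⟨x, (exp_log h).symm⟩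
      exact ⟨exp c, by rw [← exp_nsmul, nsmul_eq_mul, ← hc, exp_log h]⟩
  · rcases eq_or_ne a 0 with rfl | h
    · exact ⟨0, by simp [zero_pow g0]⟩
    · obtain ⟨x, hx⟩ := (key _).2 (dvd_mul_right _ (log a))
      exact ⟨x, by rw [hx, ← nsmul_eq_mul, exp_nsmul, exp_log h]⟩

theorem restrict [FiniteDimensional F K] {v : Valuation K ℤᵐ⁰} (hv : Function.Surjective v) :
    ∃ (s : Valuation F ℤᵐ⁰) (e : ℕ), Function.Surjective s ∧ 1 ≤ e ∧
      ∀ x, v (algebraMap F K x) = s x ^ e := by
  obtain ⟨e, he, h1, h2⟩ := root (F := F) hv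
  choose f hf using h1
  have e0 : e ≠ 0 := by omega
  have inj : ∀ a b : ℤᵐ⁰, a ^ e = b ^ e → a = b := fun a b h =>
    (pow_left_inj₀ zero_le zero_le e0).1 h
  refine ⟨{ toFun := f
            map_zero' := inj _ _ (by rw [← hf, zero_pow e0, map_zero, map_zero])
            map_one' := inj _ _ (by rw [← hf, one_pow, map_one, map_one])
            map_mul' := fun x y => inj _ _ (by rw [mul_pow, ← hf, ← hf, ← hf, map_mul, map_mul])
            map_add_le_max' := fun x y => ?_ }, e, fun a => ?_, he, hf⟩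
  · have := v.map_add (algebraMap F K x) (algebraMap F K y)
    rw [← map_add, hf, hf, hf, le_max_iff, pow_le_pow_iff_left₀ zero_le zero_le e0,
      pow_le_pow_iff_left₀ zero_le zero_le e0] at this
    exact le_max_iff.2 this
  · obtain ⟨x, hx⟩ := h2 a
    exact ⟨x, inj _ _ ((hf x).symm.trans hx)⟩

end PRst

theorem p_rst : S_Rst := by
  intro k K _ _ _ _ _ _
  refine ⟨⟨algebraMap (RatFunc k) K RatFunc.X, (transcendental_algebraMap_iff
    (algebraMap (RatFunc k) K).injective).2 RatFunc.transcendental_X, ?_⟩, fun v hv => ?_⟩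
  · have h : ∀ p : Polynomial k, algebraMap (RatFunc k) K (algebraMap _ _ p) ∈
        k⟮algebraMap (RatFunc k) K RatFunc.X⟯ := fun p => by
      rw [← RatFunc.aeval_X_left_eq_algebraMap, ← Polynomial.aeval_algebraMap_apply]
      exact IntermediateField.algebra_adjoin_le_adjoin k _ (Polynomial.aeval_mem_adjoin_singleton k _)
    let _ : Algebra (RatFunc k) k⟮algebraMap (RatFunc k) K RatFunc.X⟯ :=
      ((algebraMap (RatFunc k) K).codRestrict _ fun x => by
        rw [← RatFunc.num_div_denom x, map_div₀]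
        exact div_mem (h _) (h _)).toAlgebra
    have : IsScalarTower (RatFunc k) k⟮algebraMap (RatFunc k) K RatFunc.X⟯ K :=
      .of_algebraMap_eq fun _ => rfl
    exact Module.Finite.of_restrictScalars_finite (RatFunc k) _ K
  · obtain ⟨s, e, h1, h2, h3⟩ := PRst.restrict (F := RatFunc k) hv.1
    refine ⟨s, ⟨h1, fun c => ?_⟩, e, h2, h3⟩
    have := hv.2 c
    rwa [IsScalarTower.algebraMap_apply k (RatFunc k) K, h3,
      pow_le_one_iff_of_nonneg zero_le (by omega)] at this

end Pool.Agent.P.MP_b8021b_nt.CU
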