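import Pool.Agent.P.MP_b8021b_nt.CU.BasicV
import Pool.Agent.P.MP_b8021b_nt.FF1

/-! Norms from a field of degree at most two that splits the conic. -/

open scoped WithZero

namespace Pool.Agent.P.MP_b8021b_nt.CU

open WithZero Module

namespace ThP

variable {K₀ K : Type} [Field K₀] [Field K] [Algebra K₀ K]

theorem ov_le {s : Valuation K₀ ℤᵐ⁰} {v : Valuation K ℤᵐ⁰} (h : Ov s v) (x : K₀) :
    v (algebraMap K₀ K x) ≤ 1 ↔ s x ≤ 1 := by
  obtain ⟨e, he, h⟩ := h
  rw [h, pow_le_one_iff (by omega)]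

theorem ov_unique {s s' : Valuation K₀ ℤᵐ⁰} {v : Valuation K ℤᵐ⁰} (hs : Function.Surjective s)
    (hs' : Function.Surjective s') (h : Ov s v) (h' : Ov s' v) : s = s' :=
  val_eq_of_isEquiv hs hs' (Valuation.isEquiv_of_val_le_one fun x =>
    (ov_le h x).symm.trans (ov_le h' x))

theorem le_one_of_monic (v : Valuation K ℤᵐ⁰) {p : Polynomial K₀} (hp : p.Monic) {β : K}
    (h : Polynomial.aeval β p = 0) (hc : ∀ i, v (algebraMap K₀ K (p.coeff i)) ≤ 1) : v β ≤ 1 := by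
  by_contra hl
  rw [not_le] at hl
  rw [hp.as_sum, map_add, map_sum, map_pow, Polynomial.aeval_X, add_eq_zero_iff_eq_neg] at h
  have h1 : v (∑ i ∈ Finset.range p.natDegree,
      Polynomial.aeval β (Polynomial.C (p.coeff i) * Polynomial.X ^ i)) < v β ^ p.natDegree :=
    v.map_sum_lt (pow_ne_zero _ (zero_lt_one.trans hl).ne') fun i hi => by
      rw [map_mul, map_pow, Polynomial.aeval_X, Polynomial.aeval_C, map_mul, map_pow]
      exact (mul_le_of_le_one_left' (hc i)).trans_lt (pow_lt_pow_right₀ hl (Finset.mem_range.1 hi))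
  rw [← v.map_neg, ← h, map_pow] at h1
  exact h1.false

/-- the residue degree is bounded by the degree -/
theorem f_le {s : Valuation K₀ ℤᵐ⁰} (hs : Function.Surjective s) [FiniteDimensional K₀ K]
    {T : Finset (Valuation K ℤᵐ⁰)} {f : Valuation K ℤᵐ⁰ → ℕ}
    (h : ∀ α : K, α ≠ 0 → ord s (Algebra.norm K₀ α) = ∑ v ∈ T, f v * ord v α)
    (ho : ∀ v ∈ T, Ov s v) : ∑ v ∈ T, f v ≤ finrank K₀ K := by
  obtain ⟨π, hπ⟩ := hs (exp (-1))
  have π0 : π ≠ 0 := fun e => exp_ne_zero (hπ.symm.trans (by rw [e, map_zero]))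
  have h1 := h (algebraMap K₀ K π) (by simpa using π0)
  rw [Algebra.norm_algebraMap, ord_pow, ord_of_val s hπ, mul_one] at h1
  zify
  rw [h1]
  refine Finset.sum_le_sum fun v hv => le_mul_of_one_le_right (by positivity) ?_
  obtain ⟨e, he, h2⟩ := ho v hv
  rw [ord_of_val v (n := e) (by rw [h2, hπ, ← exp_nsmul]; simp)]
  exact_mod_cast he

end ThP

open ThP in
theorem p_th (hNF : S_NF) (hRat : S_Rat) (hRst : S_Rst) : S_Th := by
  classical
  intro k A _ _ _ D C φ γ hγ K _ _ _ _ _ y α h2 y0 hQ α0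
  obtain ⟨-, r2, -, s₁, ρ₁, hs₁, -⟩ := hRat k
  obtain ⟨hcf, hres⟩ := hRst k K
  have φ0 : (fun i => algebraMap (RatFunc k) K (φ i)) ≠ 0 := fun e => by
    obtain ⟨κ, _, _, ρ, c, -, hr, -, h0, -⟩ := hγ s₁ hs₁.plc
    refine h0 (funext fun i => ?_)
    have : φ i = 0 := by simpa using congrFun e i
    rw [this, mul_zero, hr.zero, Pi.zero_apply]
  have key : ∀ s, Plc k s → ∃ (T : Finset (Valuation K ℤᵐ⁰)) (f : Valuation K ℤᵐ⁰ → ℕ),
      (∀ v : Valuation K ℤᵐ⁰, Function.Surjective v → Ov s v → v ∈ T) ∧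
      ord s (Algebra.norm (RatFunc k) α) = ∑ v ∈ T, f v * ord v α ∧ ∀ v ∈ T, Ov s v ∧
        Sp C.cl v (pt (fun i => algebraMap (RatFunc k) K (φ i)) y) (f v • γ s) := fun s hs => by
    obtain ⟨κ₀, _, _, ρ₀, c, _, hr, hi, h0, -, hF⟩ := hγ s hs
    obtain ⟨T, f, t1, t2, t3⟩ := hNF k (RatFunc k) K κ₀ s ρ₀ hr
    refine ⟨T, f, t1, t2 α α0, fun v hv => ⟨(t3 v hv).1, ?_⟩⟩
    obtain ⟨ho, -, κ, _, _, ρ, j, _, hr', hj, hf⟩ := t3 v hv
    have hf2 : f v ≤ 2 := ((Finset.single_le_sum (fun _ _ => Nat.zero_le _) hv).trans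
      (f_le hs.1 t2 fun v hv => (t3 v hv).1)).trans h2
    have c0 : algebraMap (RatFunc k) K c ≠ 0 := fun e => h0 (funext fun i => by
      have : c = 0 := by simpa using e
      rw [this, zero_mul, hr.zero, Pi.zero_apply])
    obtain ⟨c', hc'⟩ : ∃ c', c' = algebraMap (RatFunc k) K c := ⟨_, rfl⟩
    obtain ⟨b, hb⟩ : ∃ b : Fin 3 → K, b = fun i => algebraMap (RatFunc k) K (φ i) := ⟨_, rfl⟩
    rw [← hc'] at c0
    rw [← hb] at hQ ⊢
    have hb' : ∀ i, (c' • b) i = algebraMap (RatFunc k) K (c * φ i) := fun i => by simp [hc', hb]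
    have ey : ![y 0, y 1, c' * (y 2 / c')] = y := by rw [mul_div_cancel₀ _ c0, vec3]
    obtain ⟨a, i, -, ha, hai⟩ := exists_prim v (x := ![y 0, y 1, y 2 / c']) fun e => y0 (by
      have e0 : y 0 = 0 := congrFun e 0
      have e1 : y 1 = 0 := congrFun e 1
      have e2 : y 2 / c' = 0 := congrFun e 2
      rw [← ey, e0, e1, e2, mul_zero]
      funext i
      fin_cases i <;> rfl)
    have hbi : Int v (c' • b) := fun i => by rw [hb']; exact (ov_le ho _).2 (hi i)
    have e1 : a • pt b y = pt (c' • b) (a • ![y 0, y 1, y 2 / c']) := by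
      rw [pt_smul, pt_smul_left, ey]
    have e2 : (fun i => ρ ((c' • b) i)) = fun i => j (ρ₀ (c * φ i)) :=
      funext fun i => by rw [hb']; exact hj _ (hi i)
    obtain ⟨p1, p2⟩ := hr'.pt hbi ha
    rw [← e1] at p1 p2
    rw [e2] at p2
    have z0 : (fun i => ρ ((a • ![y 0, y 1, y 2 / c']) i)) ≠ 0 := fun e => by
      have := congrFun e i
      rw [Pi.smul_apply, smul_eq_mul, hai, hr'.one] at this
      exact one_ne_zero this
    have hq : D.Q (fun i => j (ρ₀ (c * φ i))) (fun i => ρ ((a • ![y 0, y 1, y 2 / c']) i)) = 0 := by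
      have := D.Q_lin (c' • b) ![y 0, y 1, y 2 / c'] 0 a 0
      rw [zero_smul, add_zero, D.Q_smul, ey, hQ] at this
      rw [← e2, ← hr'.Q D hbi ha, this]
      simpa using hr'.zero
    refine ⟨κ, _, _, ρ, a, inferInstance, hr', p1, ?_, ?_⟩
    · refine ne_of_eq_of_ne p2 (pt_ne_zero (fun e => h0 (funext fun i => ?_)) z0)
      simpa using congrFun e i
    · exact (hF κ j (f v) _ hf2 hf z0 hq).symm.trans (congrArg _ p2.symm)
  choose! T f t1 t2 t3 using key
  have pole : ∀ β : K, ∃ F : Finset (Valuation (RatFunc k) ℤᵐ⁰), ∀ s, Plc k s → s ∉ F →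
      ∀ v : Valuation K ℤᵐ⁰, Ov s v → v β ≤ 1 := fun β => by
    obtain ⟨p, hp, h⟩ : IsIntegral (RatFunc k) β := Algebra.IsIntegral.isIntegral β
    refine ⟨p.support.attach.biUnion fun i =>
      (r2 _ (Polynomial.mem_support_iff.1 i.2)).toFinset, fun s hs hF v hv =>
      le_one_of_monic v hp h fun i => (ov_le hv _).2 ?_⟩
    by_cases hi : p.coeff i = 0
    · simp [hi]
    · refine ((ord_eq_zero_iff s hi).1 (by_contra fun a => hF ?_)).le
      exact Finset.mem_biUnion.2 ⟨⟨i, Polynomial.mem_support_iff.2 hi⟩, Finset.mem_attach _ _,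
        (Set.Finite.mem_toFinset _).2 ⟨hs, a⟩⟩
  obtain ⟨F, hF⟩ := pole α
  obtain ⟨F', hF'⟩ := pole α⁻¹
  let S := (F ∪ F').filter (Plc k)
  have hS : ∀ s ∈ S, Plc k s := fun s hs => (Finset.mem_filter.1 hs).2
  have hz : ∀ s, Plc k s → s ∉ S → ∀ v : Valuation K ℤᵐ⁰, Ov s v → ord v α = 0 :=
    fun s hs h v hv => by
      have h' : s ∉ F ∪ F' := fun e => h (Finset.mem_filter.2 ⟨e, hs⟩)
      have a1 := hF s hs (fun e => h' (Finset.mem_union_left _ e)) v hv
      have a2 := hF' s hs (fun e => h' (Finset.mem_union_right _ e)) v hv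
      rw [map_inv₀, inv_le_one₀ (zero_lt_iff.2 (by simpa using α0))] at a2
      exact (ord_eq_zero_iff v α0).2 (le_antisymm a1 a2)
  have h := C.div K hcf _ α (S.biUnion T) (fun v => ∑ s ∈ S, if v ∈ T s then f s v • γ s else 0)
    (D.on_pt φ0 y0 hQ) α0
    (fun v hv h => by
      obtain ⟨s, hs, ho⟩ := hres v hv
      exact hz s hs (fun e => h (Finset.mem_biUnion.2 ⟨s, e, t1 s hs v hv.1 ho⟩)) v ho)
    fun v hv => by
      obtain ⟨s, hs, hv⟩ := Finset.mem_biUnion.1 hv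
      rw [Finset.sum_eq_single_of_mem s hs fun s' hs' hne => if_neg fun e => hne
        (ov_unique (hS _ hs').1 (hS _ hs).1 (t3 _ (hS _ hs') v e).1 (t3 _ (hS _ hs) v hv).1),
        if_pos hv]
      exact (t3 s (hS s hs) v hv).2
  rw [Th, finsum_eq_sum_of_support_subset (s := S) _ fun s hs => by
    by_contra e
    refine hs ?_
    beta_reduce
    by_cases hp : Plc k s
    · rw [if_pos hp, t2 s hp, Finset.sum_eq_zero fun v hv => by
        rw [hz s hp e v (t3 s hp v hv).1, mul_zero], zero_smul]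
    · exact if_neg hp, ← h]
  simp only [Finset.smul_sum, smul_ite, smul_zero]
  rw [Finset.sum_comm]
  refine Finset.sum_congr rfl fun s hs => ?_
  rw [if_pos (hS s hs), t2 s (hS s hs), Finset.sum_smul, Finset.sum_ite_mem,
    Finset.inter_eq_right.2 (Finset.subset_biUnion_of_mem T hs)]
  exact Finset.sum_congr rfl fun v _ => by rw [mul_comm, mul_smul, natCast_zsmul]

end Pool.Agent.P.MP_b8021b_nt.CU
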