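import Pool.Agent.P.MP_b8021b_nt.CU.Fin
import Pool.Agent.P.MP_b8021b_nt.CU.PAll
import Pool.Agent.P.MP_b8021b_nt.CU.PBase
import Pool.Agent.P.MP_b8021b_nt.CU.PCho
import Pool.Agent.P.MP_b8021b_nt.CU.PF2
import Pool.Agent.P.MP_b8021b_nt.CU.PF3
import Pool.Agent.P.MP_b8021b_nt.CU.PFib
import Pool.Agent.P.MP_b8021b_nt.CU.PGT
import Pool.Agent.P.MP_b8021b_nt.CU.PLF
import Pool.Agent.P.MP_b8021b_nt.CU.PLS
import Pool.Agent.P.MP_b8021b_nt.CU.PMG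
import Pool.Agent.P.MP_b8021b_nt.CU.PML
import Pool.Agent.P.MP_b8021b_nt.CU.PMov
import Pool.Agent.P.MP_b8021b_nt.CU.PMT
import Pool.Agent.P.MP_b8021b_nt.CU.PNF
import Pool.Agent.P.MP_b8021b_nt.CU.PQF
import Pool.Agent.P.MP_b8021b_nt.CU.PR1
import Pool.Agent.P.MP_b8021b_nt.CU.PRat
import Pool.Agent.P.MP_b8021b_nt.CU.PRk
import Pool.Agent.P.MP_b8021b_nt.CU.PRst
import Pool.Agent.P.MP_b8021b_nt.CU.PTh
import Pool.Agent.P.MP_b8021b_nt.CU.PThX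
import Pool.Agent.P.MP_b8021b_nt.CH.Iso

/-! Assembly of the packages. -/

namespace Pool.Agent.P.MP_b8021b_nt.CU

theorem all_of_phi (hPhi : S_Phi) : S_All :=
  have r1 := p_r1 p_rat p_rst
  have qf := p_qf p_nf p_rat p_rst r1
  have f2 := p_f2 r1 p_base
  have f3 := p_f3 qf f2
  p_all (p_mt hPhi CH.iso (p_gt (p_thx (p_th p_nf p_rat p_rst) p_rat) (p_fib f2 f3 p_base) f2 p_rat)
    p_base) (p_mov (p_ml p_cho p_rk) (p_mg p_cho p_rk) p_lf p_rk) (p_ls qf f2) f2 f3 p_base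

end Pool.Agent.P.MP_b8021b_nt.CU
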