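import Pool.Agent.P.MP_b8021b_nt.CU.BasicV

/-! The class function of the group of zero-cycles. -/

open scoped WithZero LinearAlgebra.Projectivization Classical

namespace Pool.Agent.P.MP_b8021b_nt.CU

open MvPolynomial NumberField Module

namespace BrP

noncomputable section

/-- the algebraic numbers -/
abbrev Qb : Type := AlgebraicClosure ℚ

variable {k : IntermediateField ℚ Qb} (D : Dat (𝓞 k))

theorem mk_mem {ξ : Fin 5 → Qb} (h : D.On ξ) : Projectivization.mk Qb ξ h.1 ∈ D.pts := by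
  obtain ⟨a, ha⟩ := Projectivization.exists_smul_eq_mk_rep Qb ξ h.1
  show aeval (Projectivization.mk Qb ξ h.1).rep D.F = 0
  rw [← ha, Units.smul_def, aeval_smul D.hF, h.2, mul_zero]

theorem on_o (R : Type) [Field R] [Algebra (𝓞 k) R] : D.On (![0, 0, 0, 1, 0] : Fin 5 → R) := by
  have e : (![0, 0, 0, 1, 0] : Fin 5 → R) = pt ![1, 0, 0] ![1, 0, 0] := by simp [pt]
  refine ⟨fun h => one_ne_zero (congrFun h 3), ?_⟩
  rw [e, D.F_pt]
  simp

/-- the base point -/
def o : D.pts := ⟨_, mk_mem D (on_o D Qb)⟩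

/-- the point with given coordinates -/
def ptf (ξ : Fin 5 → Qb) : D.pts := if h : D.On ξ then ⟨_, mk_mem D h⟩ else o D

theorem ptf_eq {ξ : Fin 5 → Qb} {x : D.pts} {a : Qb} (ha : a ≠ 0) (h : ∀ i, x.1.rep i = a * ξ i) :
    ptf D ξ = x := by
  have e : x.1.rep = a • ξ := funext h
  have h1 : D.On ξ := ⟨fun e0 => x.1.rep_nonzero (by rw [e, e0, smul_zero]), by
    have : aeval x.1.rep D.F = 0 := x.2
    rw [e, aeval_smul D.hF] at this
    exact (mul_eq_zero.mp this).resolve_left (pow_ne_zero _ ha)⟩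
  rw [ptf, dif_pos h1]
  refine Subtype.ext ?_
  rw [← x.1.mk_rep]
  exact ((Projectivization.mk_eq_mk_iff' Qb _ _ _ _).2 ⟨a, e.symm⟩).symm

theorem ptf_smul {ξ : Fin 5 → Qb} (h : D.On ξ) {a : Qb} (ha : a ≠ 0) :
    ptf D (a • ξ) = ptf D ξ := by
  obtain ⟨c, hc⟩ := Projectivization.exists_smul_eq_mk_rep Qb ξ h.1
  have e : ptf D ξ = ⟨_, mk_mem D h⟩ := dif_pos h
  rw [e]
  refine ptf_eq D (a := c / a) (div_ne_zero c.ne_zero ha) fun i => ?_
  show (Projectivization.mk Qb ξ h.1).rep i = _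
  rw [← hc]
  simp only [Pi.smul_apply, Units.smul_def, smul_eq_mul]
  field_simp

theorem on_hom {K : Type} [Field K] [Algebra k K] (σ : K →ₐ[k] Qb) {ξ : Fin 5 → K} (h : D.On ξ) :
    D.On fun i => σ (ξ i) :=
  ⟨fun e => h.1 (funext fun i => (map_eq_zero σ).1 (congrFun e i)), by
    have := aeval_hom (σ.restrictScalars (𝓞 k)) ξ D.F
    rw [h.2, map_zero] at this
    exact this⟩

/-- the class of a closed point -/
def cl : Cl k ((D.pts →₀ ℤ) ⧸ ratTrivialOver k D.pts) := fun K _ _ ξ =>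
  QuotientAddGroup.mk (∑ᶠ σ : K →ₐ[k] Qb, Finsupp.single (ptf D fun i => σ (ξ i)) 1
    - (finrank k K : ℤ) • Finsupp.single (o D) 1)

theorem sum_ext {K K' M : Type} [Field K] [Field K'] [Algebra k K] [Algebra k K']
    [FiniteDimensional k K'] [AddCommGroup M] (j : K →ₐ[k] K') (f : ℕ)
    (hf : finrank k K' = f * finrank k K) (g : (K →ₐ[k] Qb) → M) :
    ∑ᶠ σ : K' →ₐ[k] Qb, g (σ.comp j) = f • ∑ᶠ σ, g σ := by
  let _ : Algebra K K' := j.toRingHom.toAlgebra
  have : IsScalarTower k K K' := .of_algebraMap_eq fun x => (j.commutes x).symm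
  have : FiniteDimensional k K := Module.Finite.left k K K'
  have : FiniteDimensional K K' := Module.Finite.right k K K'
  have : CharZero K := charZero_of_injective_algebraMap (algebraMap k K).injective
  have e : f = finrank K K' := by
    rw [← finrank_mul_finrank k K K', mul_comm] at hf
    exact (Nat.eq_of_mul_eq_mul_right finrank_pos hf).symm
  rw [finsum_eq_sum_of_fintype, finsum_eq_sum_of_fintype, Finset.smul_sum,
    ← Finset.sum_fiberwise Finset.univ (fun σ : K' →ₐ[k] Qb => σ.comp j)]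
  refine Finset.sum_congr rfl fun τ _ => ?_
  rw [Finset.sum_congr rfl (g := fun _ => g τ) fun σ hσ => by rw [(Finset.mem_filter.1 hσ).2],
    Finset.sum_const]
  congr 1
  let _ : Algebra K Qb := τ.toRingHom.toAlgebra
  have : IsScalarTower k K Qb := .of_algebraMap_eq fun x => (τ.commutes x).symm
  rw [e, ← AlgHom.card K K' Qb, ← Finset.card_univ]
  refine (Finset.card_bij (fun σ _ => σ.restrictScalars k) (fun σ _ => ?_) (fun σ _ σ' _ h => ?_)
    fun σ hσ => ?_).symm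
  · exact Finset.mem_filter.2 ⟨Finset.mem_univ _, AlgHom.ext fun x => σ.commutes x⟩
  · exact AlgHom.restrictScalars_injective k h
  · exact ⟨⟨σ.toRingHom, fun x => DFunLike.congr_fun (Finset.mem_filter.1 hσ).2 x⟩,
      Finset.mem_univ _, rfl⟩

variable {K : Type} [Field K] [Algebra k K]

theorem gp_ext {p q : GeomPoint k K} (h : p.v = q.v)
    (h' : ∀ a ha hb, p.ρ ⟨a, ha⟩ = q.ρ ⟨a, hb⟩) : p = q := by
  obtain ⟨v, ρ, _, _, _⟩ := p
  obtain ⟨v', ρ', _, _, _⟩ := q
  obtain rfl : v = v' := h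
  obtain rfl : ρ = ρ' := RingHom.ext fun a => h' a.1 a.2 a.2
  rfl

theorem gp_on (p : GeomPoint k K) {η : Fin 5 → K} (hη : aeval η D.F = 0)
    (h : ∀ i, η i ∈ p.v.valuationSubring) : aeval (fun i => p.ρ ⟨η i, h i⟩) D.F = 0 := by
  have hv : ∀ c : 𝓞 k, p.v (algebraMap (𝓞 k) K c) ≤ 1 := fun c => (p.const c).1
  let r : vsub hv →ₐ[𝓞 k] Qb :=
    { toFun := fun a => p.ρ ⟨a.1, a.2⟩
      map_one' := map_one p.ρ
      map_mul' := fun a b => map_mul p.ρ ⟨a.1, a.2⟩ ⟨b.1, b.2⟩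
      map_zero' := map_zero p.ρ
      map_add' := fun a b => map_add p.ρ ⟨a.1, a.2⟩ ⟨b.1, b.2⟩
      commutes' := fun c => (p.const c).2 }
  have a1 := aeval_hom r (fun i => ⟨η i, h i⟩) D.F
  have a2 := aeval_hom (vsub hv).val (fun i => ⟨η i, h i⟩) D.F
  have a3 : aeval (fun i => (⟨η i, h i⟩ : vsub hv)) D.F = 0 := Subtype.ext (a2.symm.trans hη)
  rw [a3, map_zero] at a1
  exact a1

theorem exists_val (p : GeomPoint k K) {η : Fin 5 → K} (hη : D.On η) :
    ∃ x : D.pts, ValueAt p η x.1 ∧ ∀ (c : K) (h : ∀ i, c * η i ∈ p.v.valuationSubring),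
      (fun i => p.ρ ⟨c * η i, h i⟩) ≠ 0 → ptf D (fun i => p.ρ ⟨c * η i, h i⟩) = x := by
  obtain ⟨a, i, -, h1, h2⟩ := exists_prim p.v hη.1
  have h1' : ∀ i, a * η i ∈ p.v.valuationSubring := h1
  have h3 : D.On fun i => p.ρ ⟨a * η i, h1' i⟩ := ⟨fun e => by
    have := congrFun e i
    simp only [h2] at this
    exact one_ne_zero ((map_one p.ρ).symm.trans this),
    gp_on D p (η := a • η) (by rw [aeval_smul D.hF, hη.2, mul_zero]) h1'⟩
  refine ⟨⟨_, mk_mem D h3⟩, ⟨a, h1', h3.1, rfl⟩, fun c h h0 => ?_⟩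
  have e : (fun j => p.ρ ⟨c * η j, h j⟩) = p.ρ ⟨c * η i, h i⟩ • fun j => p.ρ ⟨a * η j, h1' j⟩ := by
    funext j
    rw [Pi.smul_apply, smul_eq_mul, ← map_mul]
    congr 1
    refine Subtype.ext ?_
    show c * η j = c * η i * (a * η j)
    linear_combination (-c * η j) * h2
  rw [e, ptf_smul D h3 fun e0 => h0 (by rw [e, e0, zero_smul])]
  exact dif_pos h3

/-- the geometric point given by an embedding of the residue field -/
def gp {κ : Type} [Field κ] [Algebra k κ] {v : Valuation K ℤᵐ⁰} {ρ : K → κ} (h : Red k v ρ)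
    (σ : κ →ₐ[k] Qb) : GeomPoint k K where
  v := v
  ρ := { toFun := fun a => σ (ρ a)
         map_one' := by simp [h.one]
         map_mul' := fun a b => by rw [← map_mul, ← h.mul _ _ a.2 b.2]; rfl
         map_zero' := by simp [h.zero]
         map_add' := fun a b => by rw [← map_add, ← h.add _ _ a.2 b.2]; rfl }
  surj := h.onto
  const c := ⟨h.int c, by
    show σ (ρ (algebraMap k K c)) = c
    rw [h.const, σ.commutes]; rfl⟩
  ker a := by
    show σ (ρ a) = 0 ↔ _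
    rw [map_eq_zero, h.ker _ a.2]

theorem gp_surj {κ : Type} [Field κ] [Algebra k κ] {ρ : K → κ} (p : GeomPoint k K)
    (h : Red k p.v ρ) : ∃ σ, gp h σ = p := by
  choose l h1 h2 using h.surj
  have key : ∀ a (ha : p.v a ≤ 1), p.ρ ⟨l (ρ a), h1 _⟩ = p.ρ ⟨a, ha⟩ := fun a ha => by
    rw [← sub_eq_zero, ← map_sub, p.ker]
    exact (h.eq_iff (h1 _) ha).1 (h2 _)
  refine ⟨{ toFun := fun y => p.ρ ⟨l y, h1 y⟩
            map_one' := by rw [← h.one, key 1 (by simp)]; exact map_one p.ρ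
            map_mul' := fun a b => ?_
            map_zero' := by rw [← h.zero, key 0 (by simp)]; exact map_zero p.ρ
            map_add' := fun a b => ?_
            commutes' := fun c => by rw [← h.const, key _ (h.int c)]; exact (p.const c).2 },
    gp_ext rfl fun a ha _ => key a ha⟩
  · have := key (l a * l b) (mul_mem (show l a ∈ p.v.valuationSubring from h1 a) (h1 b))
    simp only [h.mul _ _ (h1 a) (h1 b), h2] at this
    exact this.trans (map_mul p.ρ ⟨_, h1 a⟩ ⟨_, h1 b⟩)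
  · have := key (l a + l b) (add_mem (show l a ∈ p.v.valuationSubring from h1 a) (h1 b))
    simp only [h.add _ _ (h1 a) (h1 b), h2] at this
    exact this.trans (map_add p.ρ ⟨_, h1 a⟩ ⟨_, h1 b⟩)

theorem div (hK : CurveField k K) (η : Fin 5 → K) (f : K) (S : Finset (Valuation K ℤᵐ⁰))
    (γ : Valuation K ℤᵐ⁰ → (D.pts →₀ ℤ) ⧸ ratTrivialOver k D.pts) (hη : D.On η) (hf : f ≠ 0)
    (hS : ∀ v, Plc k v → v ∉ S → ord v f = 0) (hγ : ∀ v ∈ S, Sp (cl D) v η (γ v)) :
    ∑ v ∈ S, ord v f • γ v = 0 := by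
  choose φ hφ hφ' using fun p : GeomPoint k K => exists_val D p hη
  have h1 : ∀ v : Valuation K ℤᵐ⁰, ∃ T : Finset (GeomPoint k K), v ∈ S → (∀ p, p ∈ T ↔ p.v = v) ∧
      γ v = QuotientAddGroup.mk (∑ p ∈ T, (Finsupp.single (φ p) 1 - Finsupp.single (o D) 1)) := by
    intro v
    by_cases hv : v ∈ S
    swap
    · exact ⟨∅, fun h => absurd h hv⟩
    obtain ⟨κ, _, _, ρ, c, _, hr, hi, h0, e⟩ := hγ v hv
    have : CharZero κ := charZero_of_injective_algebraMap (algebraMap k κ).injective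
    have hinj : Function.Injective (gp hr) := fun σ τ h => AlgHom.ext fun y => by
      obtain ⟨a, ha, rfl⟩ := hr.surj y
      have : ∀ p q : GeomPoint k K, p = q → ∀ h h', p.ρ ⟨a, h⟩ = q.ρ ⟨a, h'⟩ := by
        rintro p _ rfl _ _; rfl
      exact this _ _ h ha ha
    refine ⟨Finset.univ.image (gp hr), fun _ => ⟨fun p => ⟨fun hp => ?_, ?_⟩, ?_⟩⟩
    · obtain ⟨σ, -, rfl⟩ := Finset.mem_image.1 hp
      rfl
    · rintro rfl
      obtain ⟨σ, hσ⟩ := gp_surj p hr
      exact Finset.mem_image.2 ⟨σ, Finset.mem_univ _, hσ⟩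
    · rw [e, cl, Finset.sum_image fun _ _ _ _ h => hinj h, Finset.sum_sub_distrib,
        Finset.sum_const, Finset.card_univ, AlgHom.card k κ Qb, finsum_eq_sum_of_fintype,
        natCast_zsmul]
      congr 2
      refine Finset.sum_congr rfl fun σ _ => ?_
      rw [← hφ' (gp hr σ) c hi fun e0 =>
        h0 (funext fun i => (map_eq_zero σ).1 (congrFun e0 i))]
      rfl
  choose T hT using h1
  have hd : (S : Set (Valuation K ℤᵐ⁰)).PairwiseDisjoint T := fun v hv w hw hne =>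
    Finset.disjoint_left.2 fun p h1 h2 =>
      hne ((((hT v hv).1 p).1 h1).symm.trans (((hT w hw).1 p).1 h2))
  have hout : ∀ p : GeomPoint k K, p ∉ S.biUnion T → ord p.v f = 0 := fun p hp =>
    hS p.v ⟨p.surj, fun c => (p.const c).1⟩ fun h =>
      hp (Finset.mem_biUnion.2 ⟨p.v, h, ((hT _ h).1 p).2 rfl⟩)
  have m1 : ∑ p ∈ S.biUnion T, Finsupp.single (φ p) (ord p.v f) ∈ ratTrivialOver k D.pts :=
    AddSubgroup.subset_closure ⟨K, _, _, hK, η, φ, f, _, hφ, hf, hout, rfl⟩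
  have m2 : ∑ p ∈ S.biUnion T, Finsupp.single (o D) (ord p.v f) ∈ ratTrivialOver k D.pts := by
    have hm : ∀ (p : GeomPoint k K) (i : Fin 5),
        (1 : K) * (![0, 0, 0, 1, 0] : Fin 5 → K) i ∈ p.v.valuationSubring := fun p i => by
      fin_cases i <;> simp
    have hv : ∀ p : GeomPoint k K, (fun i => p.ρ ⟨_, hm p i⟩) = ![0, 0, 0, 1, 0] := fun p => by
      funext i
      fin_cases i <;> simp
      exacts [map_zero p.ρ, map_zero p.ρ, map_zero p.ρ, map_one p.ρ, map_zero p.ρ]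
    refine AddSubgroup.subset_closure ⟨K, _, _, hK, ![0, 0, 0, 1, 0], fun _ => o D, f, _,
      fun p => ⟨1, hm p, by rw [hv]; exact (on_o D Qb).1, ?_⟩, hf, hout, rfl⟩
    simp only [hv]
    rfl
  rw [← (QuotientAddGroup.eq_zero_iff _).2 (sub_mem m1 m2), ← Finset.sum_sub_distrib,
    Finset.sum_biUnion hd, QuotientAddGroup.mk_sum]
  refine Finset.sum_congr rfl fun v hv => ?_
  rw [(hT v hv).2, ← QuotientAddGroup.mk_zsmul, Finset.smul_sum]
  congr 1
  refine Finset.sum_congr rfl fun p hp => ?_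
  rw [((hT v hv).1 p).1 hp, smul_sub, Finsupp.smul_single, Finsupp.smul_single, smul_eq_mul,
    mul_one]

end

end BrP

open BrP in
theorem p_br : S_Br := by
  intro k _ D
  refine ⟨⟨cl D, fun K K' _ _ _ _ _ j f ξ _ hf => ?_, fun K _ _ _ a ξ ha h => ?_, ?_,
    fun K _ _ hK η f S γ hη => div D hK η f S γ ((D.On_map η).1 hη)⟩, o D,
    fun K _ _ _ ξ x hx => ?_⟩
  · rw [cl, cl, ← QuotientAddGroup.mk_nsmul, smul_sub,
      ← sum_ext j f hf fun σ => Finsupp.single (ptf D fun i => σ (ξ i)) (1 : ℤ), hf, Nat.cast_mul,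
      mul_smul, natCast_zsmul]
    rfl
  · rw [cl, cl]
    congr 2
    refine finsum_congr fun σ => ?_
    rw [← ptf_smul D (on_hom D σ ((D.On_map ξ).1 h)) ((map_ne_zero σ).2 ha)]
    congr 2
    funext i
    simp
  · rw [cl, finsum_unique, finrank_self, Nat.cast_one, one_smul]
    have : (fun i => (default : k →ₐ[k] Qb) ((![0, 0, 0, 1, 0] : Fin 5 → k) i)) =
        ![0, 0, 0, 1, 0] := by
      funext i
      fin_cases i <;> simp
    rw [this, ptf, dif_pos (on_o D Qb), ← o, sub_self]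
    rfl
  · show cl D K ξ = _
    rw [cl, finsum_eq_sum_of_fintype]
    congr 2
    refine Finset.sum_congr rfl fun σ _ => ?_
    obtain ⟨a, ha, h⟩ := hx σ
    rw [ptf_eq D ha h]

end Pool.Agent.P.MP_b8021b_nt.CU
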