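import Pool.Agent.P.MP_b8021b_nt.CU.Basic

/-! Moving: the generic conditions. -/

namespace Pool.Agent.P.MP_b8021b_nt.CU

open MvPolynomial
open Pool.Agent.P.MP_b8021b_nt.CH (Qf dl)

namespace MGP

section Py

variable {Ω : Type} [Field Ω]

/-- polynomial functions -/
def Py (g : (Fin 5 → Ω) → Ω) : Prop := ∃ P : MvPolynomial (Fin 5) Ω, ∀ z, g z = eval z P

theorem Py.const (a : Ω) : Py fun _ => a := ⟨C a, fun _ => by simp⟩

theorem Py.coord (i : Fin 5) : Py fun z : Fin 5 → Ω => z i := ⟨X i, fun _ => by simp⟩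

theorem Py.add {f g : (Fin 5 → Ω) → Ω} (hf : Py f) (hg : Py g) : Py fun z => f z + g z := by
  obtain ⟨P, hP⟩ := hf
  obtain ⟨Q, hQ⟩ := hg
  exact ⟨P + Q, fun z => by simp [hP, hQ]⟩

theorem Py.sub {f g : (Fin 5 → Ω) → Ω} (hf : Py f) (hg : Py g) : Py fun z => f z - g z := by
  obtain ⟨P, hP⟩ := hf
  obtain ⟨Q, hQ⟩ := hg
  exact ⟨P - Q, fun z => by simp [hP, hQ]⟩

theorem Py.mul {f g : (Fin 5 → Ω) → Ω} (hf : Py f) (hg : Py g) : Py fun z => f z * g z := by
  obtain ⟨P, hP⟩ := hf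
  obtain ⟨Q, hQ⟩ := hg
  exact ⟨P * Q, fun z => by simp [hP, hQ]⟩

theorem Py.sum {ι : Type} (s : Finset ι) {f : ι → (Fin 5 → Ω) → Ω} (h : ∀ i, Py (f i)) :
    Py fun z => ∑ i ∈ s, f i z := by
  choose P hP using h
  exact ⟨∑ i ∈ s, P i, fun z => by simp [hP]⟩

variable {O : Type} [CommRing O] [Algebra O Ω] {n : ℕ}

theorem Py.aeval {w : (Fin 5 → Ω) → Fin n → Ω} (h : ∀ i, Py fun z => w z i)
    (f : MvPolynomial (Fin n) O) : Py fun z => aeval (w z) f := by
  induction f using MvPolynomial.induction_on with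
  | C a => simpa using Py.const _
  | add p q hp hq => simpa using hp.add hq
  | mul_X p l hp => simpa using hp.mul (h l)

theorem Py.pol {w w' : (Fin 5 → Ω) → Fin n → Ω} (h : ∀ i, Py fun z => w z i)
    (h' : ∀ i, Py fun z => w' z i) (f : MvPolynomial (Fin n) O) :
    Py fun z => pol f (w z) (w' z) :=
  Py.sum _ fun i => (Py.aeval h _).mul (h' i)

theorem Py.Dl (D : Dat O) (x : Fin 5 → Ω) {w : (Fin 5 → Ω) → Fin 5 → Ω}
    (h : ∀ i, Py fun z => w z i) : Py fun z => D.Dl x (w z) := by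
  have a := Py.pol h (fun i => Py.const (x i)) D.F
  simp only [Dat.Dl, sq]
  exact (a.mul a).sub (((Py.const 4).mul (Py.pol (fun i => Py.const (x i)) h D.F)).mul
    (Py.aeval h D.F))

/-- non-zero polynomial functions -/
def NZ (g : (Fin 5 → Ω) → Ω) : Prop :=
  ∃ P : MvPolynomial (Fin 5) Ω, P ≠ 0 ∧ ∀ z, g z = eval z P

theorem Py.nz {g : (Fin 5 → Ω) → Ω} (h : Py g) (z : Fin 5 → Ω) (hz : g z ≠ 0) : NZ g := by
  obtain ⟨P, hP⟩ := h
  exact ⟨P, fun e => hz (by rw [hP, e, map_zero]), hP⟩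

theorem NZ.mul {f g : (Fin 5 → Ω) → Ω} (hf : NZ f) (hg : NZ g) : NZ fun z => f z * g z := by
  obtain ⟨P, p, hP⟩ := hf
  obtain ⟨Q, q, hQ⟩ := hg
  exact ⟨P * Q, mul_ne_zero p q, fun z => by simp [hP, hQ]⟩

theorem NZ.prod {ι : Type} (s : Finset ι) {f : ι → (Fin 5 → Ω) → Ω} (h : ∀ i ∈ s, NZ (f i)) :
    NZ fun z => ∏ i ∈ s, f i z := by
  choose! P p hP using h
  exact ⟨∏ i ∈ s, P i, Finset.prod_ne_zero_iff.2 p, fun z => by
    rw [map_prod]
    exact Finset.prod_congr rfl fun i hi => hP i hi z⟩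

theorem NZ.pick {g : (Fin 5 → Ω) → Ω} (h : NZ g) {s : Fin 5 → Set Ω} (hs : ∀ i, (s i).Infinite) :
    ∃ z, (∀ i, z i ∈ s i) ∧ g z ≠ 0 := by
  obtain ⟨P, p, hP⟩ := h
  by_contra e
  refine p (funext_set s hs fun z hz => ?_)
  by_contra e'
  exact e ⟨z, fun i => hz i trivial, by rwa [hP, ← map_zero (eval z)]⟩

end Py

section Ch

variable {Ω : Type} [Field Ω] [CharZero Ω] {O : Type} [CommRing O] [Algebra O Ω]

theorem conic (D : Dat O) {b : Fin 3 → Ω} (h : ¬ D.Xi b) :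
    ∃ y₁ y₂ : Ω, D.Q b ![y₁, y₂, 1] ≠ 0 := by
  by_contra e
  push Not at e
  have e0 := e 0 0
  have e1 := e 1 0
  have e2 := e (-1) 0
  have e3 := e 0 1
  have e4 := e 0 (-1)
  have e5 := e 1 1
  simp only [Dat.Q, Qf, Matrix.cons_val_zero, Matrix.cons_val_one,
    Matrix.cons_val] at e0 e1 e2 e3 e4 e5
  have c : aeval b D.c = 0 := by linear_combination e0
  have l1 : aeval b D.l₁ = 0 := by linear_combination (e1 + e2) / 2 - e0
  have l3 : aeval b D.l₃ = 0 := by linear_combination (e3 + e4) / 2 - e0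
  have q1 : aeval b D.q₁ = 0 := by linear_combination (e1 - e2) / 2
  have q2 : aeval b D.q₂ = 0 := by linear_combination (e3 - e4) / 2
  have l2 : aeval b D.l₂ = 0 := by linear_combination e5 - e1 - e3 + e0
  refine h ⟨by simp [D.δ_eq, dl, c, l1, l2, l3], fun i => ?_⟩
  fin_cases i
  · simp [D.e0, q2, c]
  · simp [D.e1, q1, c]
  · simp [D.e2, l2, l1]

theorem exists_δ {f : MvPolynomial (Fin 3) O} {b : Fin 3 → Ω} (hb : b ≠ 0) (h : ¬ IsSing f b) :
    ∃ y : Fin 3 → Ω, aeval y f ≠ 0 := by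
  by_contra e
  push Not at e
  refine h ⟨hb, e b, fun i => ?_⟩
  have h1 : lp f b (Pi.single i 1) = 0 := Polynomial.funext fun r => by
    rw [lp_eval, e, Polynomial.eval_zero]
  have h2 := (lp_taylor f b (Pi.single i 1)).2
  rw [h1, Polynomial.coeff_zero] at h2
  simpa [pol, Pi.single_apply] using h2.symm

/-- the choice of the direction -/
theorem choice (D : Dat O) {x : Fin 5 → Ω} {s : Fin 5 → Set Ω} (hs : ∀ i, (s i).Infinite)
    (hF : aeval x D.F = 0) (hb : bs x ≠ 0) (hl : aeval (bs x) D.l₁ ≠ 0)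
    (hX : ∀ b : Fin 3 → Ω, b ≠ 0 → ¬ D.Xi b) (hδ : ∃ y : Fin 3 → Ω, aeval y D.δ ≠ 0)
    (hg : ∃ i, aeval x (pderiv i D.F) ≠ 0) :
    ∃ u : Fin 5 → Ω, (∀ i, u i ∈ s i) ∧ pol D.F x u ≠ 0 ∧ aeval u D.F ≠ 0 ∧ D.Dl x u ≠ 0 ∧
      ∀ τ : Ω, aeval (bs u + τ • bs x) D.δ = 0 → aeval (u + τ • x) D.F ≠ 0 := by
  classical
  obtain ⟨y, hy⟩ := hδ
  obtain ⟨k, hk⟩ := hg
  set a : Fin 5 → Ω := ![0, 0, 0, 1, 0] with ha
  have hc := Py.coord (Ω := Ω)
  have s2 : aeval ((1 : Ω) • x + (1 : Ω) • a) D.F + aeval ((1 : Ω) • x + (-1 : Ω) • a) D.F =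
      2 * aeval (bs x) D.l₁ := by
    have b1 : ∀ t : Ω, bs ((1 : Ω) • x + t • a) = bs x := fun t => by
      funext i
      fin_cases i <;> simp [bs, ha]
    rw [D.F_eq] at hF
    rw [D.F_eq, D.F_eq, b1, b1]
    simp only [Dat.Q, Qf, fb] at hF ⊢
    simp [ha] at hF ⊢
    linear_combination 2 * hF
  have Fa : aeval a D.F = 0 := by
    have : bs a = (0 : Ω) • bs a := by
      funext i
      fin_cases i <;> simp [bs, ha]
    rw [D.F_eq, this, fb, D.Q_smul, zero_mul]
  have n1 : NZ fun z : Fin 5 → Ω => aeval (bs z) D.δ :=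
    (Py.aeval (fun i => by fin_cases i <;> exact hc _) _).nz ![y 0, y 1, y 2, 0, 0]
      (by rwa [show bs ![y 0, y 1, y 2, 0, 0] = y from vec3 y])
  obtain ⟨i, j, hij, hi⟩ : ∃ i j : Fin 3, i ≠ j ∧ bs x i ≠ 0 := by
    obtain ⟨i, hi⟩ := Function.ne_iff.1 hb
    obtain ⟨j, hj⟩ := exists_ne i
    exact ⟨i, j, hj.symm, hi⟩
  have hbs : ∀ l : Fin 3, Py fun z : Fin 5 → Ω => bs z l := fun l => by
    fin_cases l <;> exact hc _
  have n2 : NZ fun z : Fin 5 → Ω => bs x i * bs z j - bs x j * bs z i := by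
    refine (((Py.const _).mul (hbs j)).sub ((Py.const _).mul (hbs i))).nz
      (pt (Pi.single j 1) ![0, 0, 1]) ?_
    simpa [bs_pt, Pi.single_apply, hij] using hi
  have n3 : NZ fun z : Fin 5 → Ω => pol D.F x z :=
    (Py.pol (fun i => Py.const (x i)) hc _).nz (Pi.single k 1)
      (by simpa [pol, Pi.single_apply] using hk)
  have n4 : NZ fun z : Fin 5 → Ω => aeval z D.F := by
    by_cases e : aeval ((1 : Ω) • x + (1 : Ω) • a) D.F = 0
    · refine (Py.aeval hc _).nz ((1 : Ω) • x + (-1 : Ω) • a) fun e' => hl ?_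
      linear_combination (e + e' - s2) / 2
    · exact (Py.aeval hc _).nz _ e
  have n5 : NZ fun z : Fin 5 → Ω => D.Dl x z := by
    refine (Py.Dl D x hc).nz a ?_
    rw [cubic_line D.hF, cubic_line D.hF] at s2
    have : pol D.F a x = aeval (bs x) D.l₁ := by linear_combination s2 / 2 - hF
    rw [Dat.Dl, Fa, this, mul_zero, sub_zero]
    exact pow_ne_zero 2 hl
  obtain ⟨v, hv, h1⟩ := ((((n1.mul n2).mul n3).mul n4).mul n5).pick hs
  simp only [mul_ne_zero_iff] at h1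
  obtain ⟨⟨⟨⟨v1, v2⟩, v3⟩, v4⟩, v5⟩ := h1
  set w : (Fin 5 → Ω) → Fin 5 → Ω := fun z => ![v 0, v 1, v 2, z 3, z 4] with hw
  have pw : ∀ l, Py fun z => w z l := fun l => by
    fin_cases l
    exacts [Py.const _, Py.const _, Py.const _, hc 3, hc 4]
  have wv : w v = v := by
    funext l
    fin_cases l <;> rfl
  have p0 : lp D.δ (bs v) (bs x) ≠ 0 := fun e => v1 (by
    rw [← (lp_taylor D.δ (bs v) (bs x)).1, e, Polynomial.coeff_zero])
  have m3 : NZ fun z => pol D.F x (w z) :=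
    (Py.pol (fun i => Py.const (x i)) pw _).nz v (by rwa [wv])
  have m4 : NZ fun z => aeval (w z) D.F := (Py.aeval pw _).nz v (by rwa [wv])
  have m5 : NZ fun z => D.Dl x (w z) := (Py.Dl D x pw).nz v (by rwa [wv])
  have m6 : ∀ τ : Ω, NZ fun z => aeval (w z + τ • x) D.F := fun τ => by
    obtain ⟨y₁, y₂, h⟩ := conic D (hX (bs v + τ • bs x) fun e => v2 (by
      have e1 := congrFun e i
      have e2 := congrFun e j
      simp only [Pi.add_apply, Pi.smul_apply, smul_eq_mul, Pi.zero_apply] at e1 e2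
      linear_combination bs x i * e2 - bs x j * e1))
    refine (Py.aeval (w := fun z => w z + τ • x) (fun l => (pw l).add (Py.const _)) _).nz
      ![0, 0, 0, y₁ - τ * x 3, y₂ - τ * x 4] ?_
    rw [D.F_eq]
    convert h using 2
    · funext l
      fin_cases l <;> simp [bs, hw]
    · funext l
      fin_cases l <;> simp [fb, hw]
  obtain ⟨z, hz, h1⟩ := (((m3.mul m4).mul m5).mul
    (NZ.prod (lp D.δ (bs v) (bs x)).roots.toFinset fun τ _ => m6 τ)).pick hs
  simp only [mul_ne_zero_iff, Finset.prod_ne_zero_iff] at h1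
  refine ⟨w z, fun l => ?_, h1.1.1.1, h1.1.1.2, h1.1.2, fun τ hτ => h1.2 τ ?_⟩
  · fin_cases l
    exacts [hv 0, hv 1, hv 2, hz 3, hz 4]
  · rw [Multiset.mem_toFinset, Polynomial.mem_roots p0, Polynomial.IsRoot, lp_eval]
    exact hτ

end Ch

end MGP

theorem p_mg (_hCho : S_Cho) (hRk : S_Rk) : S_MG := by
  intro O L _ _ _ _ D M N x u₀ hH hx hb hA
  let Ω := AlgebraicClosure L
  let j := IsScalarTower.toAlgHom O L Ω
  have ji : Function.Injective j := (algebraMap L Ω).injective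
  have M0 : M ≠ 0 := fun e => by simpa [e] using hH.odd
  have sm : ∀ y : Fin 3 → Ω, ¬ IsSing D.δ y := fun y => hH.sm Ω y (Nat.cast_ne_zero.2 M0)
  have bj : ∀ (R : Type) (f : L → R) (y : Fin 5 → L),
      (![f (y 0), f (y 1), f (y 2)] : Fin 3 → R) = fun i => f (bs y i) := fun R f y => by
    funext i
    fin_cases i <;> rfl
  have bj' : ∀ y : Fin 5 → L, bs (fun i => j (y i)) = fun i => j (bs y i) := bj Ω j
  have hb' : bs (fun i => j (x i)) ≠ 0 := fun e => hb (funext fun i => ji (by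
    rw [bj'] at e
    simpa using congrFun e i))
  have hF' : aeval (fun i => j (x i)) D.F = 0 := by rw [aeval_hom, hx.2, map_zero]
  obtain ⟨v, hv, v1, v2, v3, v4⟩ := MGP.choice D (x := fun i => j (x i))
    (s := fun i => Set.range fun z : ℤ => j (u₀ i + M * z))
    (fun i => Set.infinite_range_of_injective fun z z' e => by
      have := mul_left_cancel₀ (Nat.cast_ne_zero.2 M0) (add_left_cancel (ji e))
      exact_mod_cast this)
    hF' hb'
    (by
      rw [bj', aeval_hom, map_ne_zero_iff _ ji]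
      intro e
      exact one_ne_zero (hA 1 0 (by simp [Dat.Q, Qf, e])).1)
    (fun b h e => sm b ((hRk O Ω D b h).1 e)) (MGP.exists_δ hb' (sm _))
    (by
      by_contra e
      push Not at e
      exact sm _ ((hRk O Ω D _ hb').2.2 _ rfl hF' two_ne_zero e))
  choose z hz using hv
  obtain ⟨u, hu, rfl⟩ : ∃ u : Fin 5 → L, (∀ i, u i = u₀ i + M * z i) ∧ v = fun i => j (u i) :=
    ⟨fun i => u₀ i + M * z i, fun _ => rfl, funext fun i => (hz i).symm⟩
  have hA0 : pol D.F x u ≠ 0 := fun e => v1 (by rw [pol_hom, e, map_zero])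
  refine ⟨u, fun i => ⟨z i, hu i⟩, fun e => v2 (by rw [aeval_hom, e, map_zero]), fun e => v3 ?_,
    fun L' _ _ _ _ μ ν hμ hq => ?_⟩
  · rw [← map_zero j, ← e]
    simp only [Dat.Dl, pol_hom, aeval_hom, map_sub, map_mul, map_pow, map_ofNat]
  have co : IsCoprime (lp D.δ (bs u) (bs x)) (lp D.F u x) := by
    rw [Polynomial.isCoprime_iff_aeval_ne_zero_of_isAlgClosed L Ω]
    intro τ
    rw [lp_aeval, lp_aeval, or_iff_not_imp_left, not_not]
    intro e
    have := v4 τ (by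
      rw [bj', bj', ← e]
      exact congrArg (fun y => aeval y D.δ) (funext fun i => by simp [j, mul_comm]))
    exact fun e' => this ((congrArg (fun y => aeval y D.F)
      (funext fun i => by simp [j, mul_comm])).trans e')
  let j' := IsScalarTower.toAlgHom O L L'
  have ν0 : ν ≠ 0 := by
    rintro rfl
    have : algebraMap L L' (pol D.F x u) * μ ^ 2 = 0 := by linear_combination hq
    simp only [mul_eq_zero, map_eq_zero, hA0, false_or, pow_eq_zero_iff two_ne_zero] at this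
    simp [this] at hμ
  have h1 : Polynomial.aeval (μ / ν) (lp D.F u x) = 0 := by
    have e := cubic_line D.hF (fun i => j' (x i)) (fun i => j' (u i)) (μ / ν) 1
    rw [pol_hom, pol_hom, aeval_hom, aeval_hom, hx.2, map_zero] at e
    rw [lp_aeval]
    refine Eq.trans ?_ (e.trans ?_)
    · exact congrArg (fun y => aeval y D.F) (funext fun i => by simp [j', mul_comm, add_comm])
    · simp only [j', IsScalarTower.coe_toAlgHom']
      refine mul_left_cancel₀ (pow_ne_zero 2 ν0) (Eq.trans ?_ (hq.trans (mul_zero _).symm))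
      field_simp
      ring
  have h2 := (Polynomial.aeval_ne_zero_of_isCoprime co (μ / ν)).resolve_right (not_not.2 h1)
  rw [lp_aeval] at h2
  have h3 := mul_ne_zero (pow_ne_zero 5 ν0) h2
  rw [← aeval_smul D.hδ] at h3
  refine fun e => h3 ((congrArg (fun y => aeval y D.δ) (funext fun i => ?_)).trans e)
  simp only [Pi.smul_apply, smul_eq_mul]
  field_simp
  ring

end Pool.Agent.P.MP_b8021b_nt.CU
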