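import Pool.Agent.P.MP_b8021b_nt.CU.PBr

/-! An invariant cycle is a sum of closed points. -/

open scoped LinearAlgebra.Projectivization Classical

namespace Pool.Agent.P.MP_b8021b_nt.CU

open MvPolynomial NumberField Module BrP

namespace OrbP

variable {k : IntermediateField ℚ Qb} {D : Dat (𝓞 k)}

/-- conjugate points -/
def Cj (x y : D.pts) : Prop :=
  ∃ (s : Qb ≃ₐ[k] Qb) (a : Qb), ∀ i, y.1.rep i = a * s (x.1.rep i)

theorem Cj.trans {x y z : D.pts} (h : Cj x y) (h' : Cj y z) : Cj x z := by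
  obtain ⟨s, a, h⟩ := h
  obtain ⟨s', a', h'⟩ := h'
  exact ⟨s.trans s', a' * s' a, fun i => by rw [h', h, map_mul, mul_assoc]; rfl⟩

theorem Cj.symm {x y : D.pts} (h : Cj x y) : Cj y x := by
  obtain ⟨s, a, h⟩ := h
  have ha : a ≠ 0 := fun e => y.1.rep_nonzero (funext fun i => by simp [h, e])
  refine ⟨s.symm, (s.symm a)⁻¹, fun i => ?_⟩
  rw [h, map_mul, s.symm_apply_apply, inv_mul_cancel_left₀ ((map_ne_zero s.symm).2 ha)]

theorem rep_ptf {ξ : Fin 5 → Qb} (h : D.On ξ) :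
    ∃ a : Qb, a ≠ 0 ∧ ∀ i, (ptf D ξ).1.rep i = a * ξ i := by
  obtain ⟨c, hc⟩ := Projectivization.exists_smul_eq_mk_rep Qb ξ h.1
  have e : ptf D ξ = ⟨_, mk_mem D h⟩ := dif_pos h
  exact ⟨c, c.ne_zero, fun i => by rw [e]; exact (congrFun hc i).symm⟩

theorem orbit (x₀ : D.pts) : ∃ (K : Type) (_ : Field K) (_ : Algebra k K)
    (_ : FiniteDimensional k K) (ξ : Fin 5 → K) (x : (K →ₐ[k] Qb) → D.pts), D.On ξ ∧
    (∀ σ, ∃ a : Qb, a ≠ 0 ∧ ∀ i, (x σ).1.rep i = a * σ (ξ i)) ∧ Function.Injective x ∧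
    ∀ y, Cj x₀ y ↔ ∃ σ, x σ = y := by
  have : Algebra.IsAlgebraic ℚ Qb := AlgebraicClosure.isAlgebraic ℚ
  have : Algebra.IsAlgebraic k Qb := Algebra.IsAlgebraic.tower_top (K := ℚ) k
  have : IsAlgClosure k Qb := ⟨inferInstance, this⟩
  obtain ⟨i, hi⟩ := Function.ne_iff.mp x₀.1.rep_nonzero
  have hi : x₀.1.rep i ≠ 0 := hi
  let ξ' : Fin 5 → Qb := (x₀.1.rep i)⁻¹ • x₀.1.rep
  let K := IntermediateField.adjoin k (Set.range ξ')
  let ξ : Fin 5 → K := fun j => ⟨ξ' j, IntermediateField.subset_adjoin _ _ ⟨j, rfl⟩⟩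
  have h1 : ξ i = 1 := Subtype.ext (inv_mul_cancel₀ hi)
  have hon : D.On ξ := ⟨fun e => one_ne_zero (h1.symm.trans (congrFun e i)), by
    have a1 := aeval_hom (K.val.restrictScalars (𝓞 k)) ξ D.F
    have a2 : aeval ξ' D.F = 0 := by
      rw [aeval_smul D.hF, show aeval x₀.1.rep D.F = 0 from x₀.2, mul_zero]
    exact Subtype.ext (a1.symm.trans a2)⟩
  have hx := fun σ : K →ₐ[k] Qb => rep_ptf (on_hom D σ hon)
  refine ⟨K, inferInstance, inferInstance, IntermediateField.finiteDimensional_adjoin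
    fun _ _ => Algebra.IsIntegral.isIntegral _, ξ, fun σ => ptf D fun j => σ (ξ j), hon, hx,
    fun σ τ h => ?_, fun y => ⟨?_, ?_⟩⟩
  · obtain ⟨a, ha, e⟩ := hx σ
    obtain ⟨a', -, e'⟩ := hx τ
    have e2 : ∀ j, a * σ (ξ j) = a' * τ (ξ j) := fun j => by
      rw [← e, ← e']; exact congrArg (fun z : D.pts => z.1.rep j) h
    have e3 : a = a' := by simpa [h1] using e2 i
    refine IntermediateField.adjoin_algHom_ext k ?_
    rintro _ ⟨j, rfl⟩
    exact mul_left_cancel₀ ha (by rw [e2, e3])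
  · rintro ⟨s, a, h⟩
    have ha : a ≠ 0 := fun e => y.1.rep_nonzero (funext fun i => by simp [h, e])
    refine ⟨(s : Qb →ₐ[k] Qb).comp K.val, ptf_eq D (a := a * s (x₀.1.rep i))
      (mul_ne_zero ha ((map_ne_zero s).2 hi)) fun j => ?_⟩
    rw [h, mul_assoc]
    congr 1
    show _ = _ * s ((x₀.1.rep i)⁻¹ * x₀.1.rep j)
    rw [← map_mul, mul_inv_cancel_left₀ hi]
  · rintro ⟨σ, rfl⟩
    obtain ⟨a, -, e⟩ := hx σ
    let s := AlgEquiv.ofBijective (σ.liftNormal Qb) (Algebra.IsAlgebraic.algHom_bijective _)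
    refine ⟨s, a * s (x₀.1.rep i)⁻¹, fun j => ?_⟩
    rw [e, mul_assoc, ← map_mul]
    congr 1
    exact (σ.liftNormal_commutes Qb (ξ j)).symm

end OrbP

open OrbP in
theorem p_orb : S_Orb := by
  intro k _ D H o hH
  let dg : (D.pts →₀ ℤ) →+ ℤ := Finsupp.liftAddHom fun _ => AddMonoidHom.id ℤ
  have key : ∀ (n : ℕ) (Z : D.pts →₀ ℤ), Z.support.card = n → GaloisInvariant k Z →
      Z - dg Z • Finsupp.single o 1 ∈ H := by
    intro n
    induction n using Nat.strong_induction_on with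
    | _ n ih =>
      intro Z hn hZ
      rcases Z.support.eq_empty_or_nonempty with e | ⟨x₀, hx₀⟩
      · rw [Finsupp.support_eq_empty.1 e]
        simp
      obtain ⟨K, _, _, _, ξ, x, h1, h2, h3, h4⟩ := orbit x₀
      have : CharZero K := charZero_of_injective_algebraMap (algebraMap k K).injective
      have hm := hH K ξ x ((D.On_map ξ).2 h1) h2
      set Y : D.pts →₀ ℤ := ∑ σ, Finsupp.single (x σ) 1 with hY
      have hd : dg Y = finrank k K := by
        rw [hY, map_sum, ← AlgHom.card k K Qb]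
        simp [dg]
      have hv : ∀ y, (Z - Z x₀ • Y) y = if Cj x₀ y then 0 else Z y := fun y => by
        rw [Finsupp.sub_apply, Finsupp.smul_apply, hY, Finsupp.finsetSum_apply]
        split_ifs with h
        · obtain ⟨σ, rfl⟩ := (h4 y).1 h
          obtain ⟨s, h⟩ := h
          rw [Finset.sum_eq_single σ (fun τ _ hτ => Finsupp.single_eq_of_ne (h3.ne hτ.symm))
            (fun h => absurd (Finset.mem_univ σ) h), ← hZ s _ _ h]
          simp
        · rw [Finset.sum_eq_zero fun τ _ =>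
            Finsupp.single_eq_of_ne fun e => h ((h4 y).2 ⟨τ, e.symm⟩)]
          simp
      have hlt : (Z - Z x₀ • Y).support.card < n := by
        rw [← hn]
        refine Finset.card_lt_card ⟨fun y hy => ?_, fun h => ?_⟩
        · rw [Finsupp.mem_support_iff, hv] at hy
          exact Finsupp.mem_support_iff.2 fun e => hy (by simp [e])
        · have := Finsupp.mem_support_iff.1 (h hx₀)
          rw [hv, if_pos ⟨AlgEquiv.refl, 1, fun i => by simp⟩] at this
          exact this rfl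
      have := ih _ hlt _ rfl fun s y y' h => by
        have hc : Cj y y' := ⟨s, h⟩
        rw [hv, hv, hZ s y y' h]
        exact if_congr ⟨fun a => a.trans hc, fun a => a.trans hc.symm⟩ rfl rfl
      convert add_mem this (zsmul_mem hm (Z x₀)) using 1
      rw [map_sub, map_zsmul, hd, smul_eq_mul, sub_smul, smul_sub, mul_smul]
      abel
  intro Z hZ h0
  have := key _ Z rfl hZ
  rwa [show dg Z = 0 from h0, zero_smul, sub_zero] at this

end Pool.Agent.P.MP_b8021b_nt.CU
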