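import Pool.Agent.P.MP_b8021b_nt.CU.BasicV
import Pool.Agent.P.MP_b8021b_nt.CU.Quad

/-! Isotropy of the eight dimensional form kills the class of the parameter. -/

open scoped WithZero

namespace Pool.Agent.P.MP_b8021b_nt.CU

open WithZero Module MvPolynomial
open Pool.Agent.P.MP_b8021b_nt.CH (Qf dl)

namespace ThXP

theorem perp {O K : Type} [CommRing O] [Field K] [Algebra O K] (D : Dat O) (b x : Fin 3 → K) :
    ∃ f g : Fin 3 → K, f ≠ 0 ∧ D.B b f g = 0 ∧ D.Q b g = 4 * aeval b D.δ * D.Q b x * D.Q b f := by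
  obtain ⟨f, f0, hf⟩ : ∃ f : Fin 3 → K, f ≠ 0 ∧ D.B b x f = 0 := by
    by_cases h : D.B b x ![1, 0, 0] = 0
    · exact ⟨_, by simp, h⟩
    · refine ⟨![D.B b x ![0, 1, 0], -D.B b x ![1, 0, 0], 0], fun e => h ?_, ?_⟩
      · simpa using congrFun e 1
      · simp only [D.B_eq, Matrix.cons_val]; ring
  refine ⟨f, ![D.B b x ![0, 1, 0] * D.B b f ![0, 0, 1] - D.B b x ![0, 0, 1] * D.B b f ![0, 1, 0],
    D.B b x ![0, 0, 1] * D.B b f ![1, 0, 0] - D.B b x ![1, 0, 0] * D.B b f ![0, 0, 1],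
    D.B b x ![1, 0, 0] * D.B b f ![0, 1, 0] - D.B b x ![0, 1, 0] * D.B b f ![1, 0, 0]], f0, ?_, ?_⟩
  · simp only [D.B_eq, Matrix.cons_val]; ring
  · have e : ∀ a c : K, a = c - aeval b D.δ * D.B b x f ^ 2 → a = c := fun a c h => by
      rw [h, hf]; ring
    refine e _ _ ?_
    simp only [D.B_eq, D.δ_eq, Dat.Q, Qf, dl, Matrix.cons_val]
    ring

end ThXP

theorem p_thx (hTh : S_Th) (hRat : S_Rat) : S_ThX := by
  classical
  intro k A _ _ _ D C φ γ x x' z z' t hγ δ0 t0 hx h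
  obtain ⟨-, r2, -⟩ := hRat k
  have fin : ∀ f : RatFunc k, f ≠ 0 → (Function.support fun s : Valuation (RatFunc k) ℤᵐ⁰ =>
      if Plc k s then ord s f • γ s else 0).Finite := fun f hf => (r2 f hf).subset fun s hs => by
    by_cases hp : Plc k s
    · exact ⟨hp, fun e => hs (by simp [e])⟩
    · exact absurd (if_neg hp) hs
  have mul : ∀ f g : RatFunc k, f ≠ 0 → g ≠ 0 → Th γ (f * g) = Th γ f + Th γ g := fun f g hf hg => by
    rw [Th, Th, Th, ← finsum_add_distrib (fin f hf) (fin g hg)]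
    refine finsum_congr fun s => ?_
    split_ifs
    · rw [ord_mul s hf hg, add_smul]
    · rw [add_zero]
  have sq : ∀ f : RatFunc k, Th γ (f ^ 2) = 0 := fun f => by
    refine finsum_eq_zero_of_forall_eq_zero fun s => ?_
    split_ifs with hp
    · obtain ⟨κ, _, _, ρ, c, -, -, -, -, h2, -⟩ := hγ s hp
      rw [ord_pow, mul_comm, mul_smul, natCast_zsmul, h2, smul_zero]
    · rfl
  by_cases hi : ∃ y : Fin 3 → RatFunc k, y ≠ 0 ∧ D.Q φ y = 0
  · obtain ⟨y, y0, hy⟩ := hi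
    simpa using hTh k A D C φ γ hγ (RatFunc k) y t (by simp) y0 hy t0
  push Not at hi
  have Q0 : D.Q φ 0 = 0 := by simp [Dat.Q, Qf]
  have key : ∀ (x : Fin 3 → RatFunc k) (z : RatFunc k), x ≠ 0 ∨ z ≠ 0 →
      aeval φ D.δ * (D.Q φ x + aeval φ D.δ * z ^ 2) ≠ 0 ∧
        Th γ (aeval φ D.δ * (D.Q φ x + aeval φ D.δ * z ^ 2)) = 0 := fun x z hx => by
    by_cases x0 : x = 0
    · have e : aeval φ D.δ * (D.Q φ x + aeval φ D.δ * z ^ 2) = (aeval φ D.δ * z) ^ 2 := by
        rw [x0, Q0]; ring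
      rw [e]
      exact ⟨pow_ne_zero _ (mul_ne_zero δ0 (hx.resolve_left (not_not.2 x0))), sq _⟩
    obtain ⟨f, g, f0, h1, h2⟩ := ThXP.perp D φ x
    have N0 : -(aeval φ D.δ * D.Q φ x) ≠ 0 := neg_ne_zero.2 (mul_ne_zero δ0 (hi x x0))
    have zero : ∀ (K : Type) [Field K] [Algebra k K] (j : RatFunc k →ₐ[k] K) (ω : K),
        ω ^ 2 = j (-(aeval φ D.δ * D.Q φ x)) →
        ∃ y : Fin 3 → K, y ≠ 0 ∧ D.Q (fun i => j (φ i)) y = 0 := fun K _ _ j ω hω => by
      have : CharZero K := charZero_of_injective_algebraMap (algebraMap k K).injective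
      have ω0 : ω ≠ 0 := fun e => N0 (j.injective (by
        change j _ = j _
        rw [← hω, e, map_zero, zero_pow two_ne_zero]))
      refine ⟨(2 * ω) • (fun i => j (f i)) + (1 : K) • fun i => j (g i), fun e => ?_, ?_⟩
      · have a : D.B (fun i => j (φ i)) (fun i => j (f i))
            ((2 * ω) • (fun i => j (f i)) + (1 : K) • fun i => j (g i)) =
            4 * ω * D.Q (fun i => j (φ i)) (fun i => j (f i)) +
              D.B (fun i => j (φ i)) (fun i => j (f i)) fun i => j (g i) := by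
          simp only [D.B_eq, Dat.Q, Qf, Pi.add_apply, Pi.smul_apply, smul_eq_mul]; ring
        rw [e, D.Q_hom, D.B_hom, h1, map_zero, add_zero] at a
        refine mul_ne_zero (mul_ne_zero (by norm_num : (4 : K) ≠ 0) ω0)
          ((map_ne_zero j).2 (hi f f0)) (a.symm.trans ?_)
        simp [D.B_eq]
      · rw [D.Q_lin, D.Q_hom, D.Q_hom, D.B_hom, h1, h2, mul_pow, hω]
        simp only [map_mul, map_neg, map_zero, map_ofNat]
        ring
    obtain ⟨K, _, _, _, _, _, ω, a1, a2, a3, -⟩ := quad_ext k (RatFunc k)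
      (-(aeval φ D.δ * D.Q φ x)) fun r hr => by
        obtain ⟨y, y0, hy⟩ := zero (RatFunc k) (AlgHom.id k _) r hr
        exact hi y y0 hy
    obtain ⟨y, y0, hy⟩ := zero K (IsScalarTower.toAlgHom k (RatFunc k) K) ω a2
    have e : Algebra.norm (RatFunc k) (algebraMap _ K (aeval φ D.δ * z) +
        algebraMap (RatFunc k) K 1 * ω) =
        aeval φ D.δ * (D.Q φ x + aeval φ D.δ * z ^ 2) := by rw [a3]; ring
    have n0 : aeval φ D.δ * (D.Q φ x + aeval φ D.δ * z ^ 2) ≠ 0 := fun e' => by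
      obtain ⟨y, y0, hy⟩ := zero (RatFunc k) (AlgHom.id k _) (aeval φ D.δ * z) (by
        change _ = -_
        linear_combination e')
      exact hi y y0 hy
    refine ⟨n0, e ▸ hTh k A D C φ γ hγ K y _ a1.le y0 hy fun e' => n0 ?_⟩
    rw [← e, e', Algebra.norm_zero]
  have e : aeval φ D.δ * (D.Q φ x + aeval φ D.δ * z ^ 2) =
      t * (aeval φ D.δ * (D.Q φ x' + aeval φ D.δ * z' ^ 2)) := by rw [h]; ring
  have h1 : x' ≠ 0 ∨ z' ≠ 0 := by
    by_contra hc
    push Not at hc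
    refine (key x z (by tauto)).1 ?_
    rw [e, hc.1, hc.2, Q0]; ring
  have h2 : x ≠ 0 ∨ z ≠ 0 := by
    by_contra hc
    push Not at hc
    refine mul_ne_zero t0 (key x' z' h1).1 ?_
    rw [← e, hc.1, hc.2, Q0]; ring
  have := (key x z h2).2
  rwa [e, mul _ _ t0 (key x' z' h1).1, (key x' z' h1).2, add_zero] at this

end Pool.Agent.P.MP_b8021b_nt.CU
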