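import Pool.Agent.P.MP_b8021b_nt.CU.Defs
import Pool.Agent.P.MP_b8021b_nt.CH.St

/-! Working definitions and the statements of the geometric and global packages. -/

open scoped WithZero

namespace Pool.Agent.P.MP_b8021b_nt.CU

open MvPolynomial NumberField IsDedekindDomain Module WithZero
open Pool.Agent.P.MP_b8021b_nt.CH (Qf dl Nf OK IQc)

noncomputable section

/-! ### algebra -/

section Alg

variable {O : Type} [CommRing O] {R : Type} [CommRing R] [Algebra O R]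

/-- change of the coefficient ring -/
def Dat.map {O' : Type} [CommRing O'] (D : Dat O) (f : O →+* O') : Dat O' :=
  ⟨MvPolynomial.map f D.l₁, MvPolynomial.map f D.l₂, MvPolynomial.map f D.l₃,
    MvPolynomial.map f D.q₁, MvPolynomial.map f D.q₂, MvPolynomial.map f D.c,
    D.hl₁.map f, D.hl₂.map f, D.hl₃.map f, D.hq₁.map f, D.hq₂.map f, D.hc.map f⟩

/-- the conic over the point `b` of the plane -/
def Dat.Q (D : Dat O) (b y : Fin 3 → R) : R :=
  Qf (aeval b D.l₁) (aeval b D.l₂) (aeval b D.l₃) (aeval b D.q₁) (aeval b D.q₂) (aeval b D.c)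
    (y 0) (y 1) (y 2)

/-- its polar form -/
def Dat.B (D : Dat O) (b y y' : Fin 3 → R) : R := D.Q b (y + y') - D.Q b y - D.Q b y'

/-- the three binary discriminants -/
def Dat.e (D : Dat O) : Fin 3 → MvPolynomial (Fin 3) O :=
  ![D.q₂ ^ 2 - 4 * D.l₃ * D.c, D.q₁ ^ 2 - 4 * D.l₁ * D.c, D.l₂ ^ 2 - 4 * D.l₁ * D.l₃]

/-- the point of the cubic that belongs to a point of the conic over `b` -/
def pt (b y : Fin 3 → R) : Fin 5 → R := ![y 2 * b 0, y 2 * b 1, y 2 * b 2, y 0, y 1]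

/-- the projection from the line -/
def bs (ξ : Fin 5 → R) : Fin 3 → R := ![ξ 0, ξ 1, ξ 2]

/-- the fibre coordinates -/
def fb (ξ : Fin 5 → R) : Fin 3 → R := ![ξ 3, ξ 4, 1]

/-- derivative of `f` at `x` in the direction `u` -/
def pol {n : ℕ} (f : MvPolynomial (Fin n) O) (x u : Fin n → R) : R :=
  ∑ i, aeval x (pderiv i f) * u i

/-- the Hessian form of `f` at `x` -/
def hs {n : ℕ} (f : MvPolynomial (Fin n) O) (x u u' : Fin n → R) : R :=
  ∑ i, ∑ j, aeval x (pderiv i (pderiv j f)) * u i * u' j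

/-- the restriction of `f` to the line through `x` with direction `u` -/
def lp {n : ℕ} (f : MvPolynomial (Fin n) O) (x u : Fin n → R) : Polynomial R :=
  aeval (fun i => Polynomial.C (x i) + Polynomial.C (u i) * Polynomial.X) f

/-- a point of the cubic -/
def Dat.On (D : Dat O) (ξ : Fin 5 → R) : Prop := ξ ≠ 0 ∧ aeval ξ D.F = 0

/-- discriminant of the residual intersection of the line through `x` with direction `u` -/
def Dat.Dl (D : Dat O) (x u : Fin 5 → R) : R :=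
  pol D.F u x ^ 2 - 4 * pol D.F x u * aeval u D.F

/-- the residual point that belongs to a square root `ω` of the discriminant -/
def Dat.res (D : Dat O) (x u : Fin 5 → R) (ω : R) : Fin 5 → R :=
  fun i => 2 * aeval u D.F * x i - pol D.F u x * u i + ω * u i

/-- the binary part of the conic over `b` is anisotropic -/
def Dat.Ani (D : Dat O) (b : Fin 3 → R) : Prop :=
  ∀ y₁ y₂ : R, D.Q b ![y₁, y₂, 0] = 0 → y₁ = 0 ∧ y₂ = 0

/-- double lines (the zero vector included) -/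
def Dat.Xi (D : Dat O) (x : Fin 3 → R) : Prop := aeval x D.δ = 0 ∧ ∀ i, aeval x (D.e i) = 0

end Alg

/-- the hypotheses on the quintic in working form -/
structure Hyp {O : Type} [CommRing O] (D : Dat O) (M N : ℕ) : Prop where
  odd : Odd M
  fin : ∀ (Ω : Type) [Field Ω] [IsAlgClosed Ω] [Algebra O Ω], ∃ S : Finset (Fin 3 → Ω),
    S.card ≤ N ∧ (∀ s ∈ S, IsSing D.δ s) ∧ ∀ x, IsSing D.δ x → ∃ s ∈ S, ∃ a : Ω, x = a • s
  mn : ∀ (κ : Type) [Field κ] [Algebra O κ] (x : Fin 3 → κ), IsSing D.δ x → ∃ i j i' j',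
    aeval x (pderiv i (pderiv j D.δ)) * aeval x (pderiv i' (pderiv j' D.δ)) ≠
      aeval x (pderiv i (pderiv j' D.δ)) * aeval x (pderiv i' (pderiv j D.δ))
  sm : ∀ (κ : Type) [Field κ] [Algebra O κ] (x : Fin 3 → κ), (M : κ) ≠ 0 → ¬ IsSing D.δ x

/-! ### valuations -/

/-- a normalised discrete valuation with a residue map -/
structure Red (O : Type) [CommRing O] {K κ : Type} [Field K] [Field κ] [Algebra O K] [Algebra O κ]
    (v : Valuation K ℤᵐ⁰) (ρ : K → κ) : Prop where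
  onto : Function.Surjective v
  int : ∀ c : O, v (algebraMap O K c) ≤ 1
  const : ∀ c : O, ρ (algebraMap O K c) = algebraMap O κ c
  add : ∀ a b, v a ≤ 1 → v b ≤ 1 → ρ (a + b) = ρ a + ρ b
  mul : ∀ a b, v a ≤ 1 → v b ≤ 1 → ρ (a * b) = ρ a * ρ b
  ker : ∀ a, v a ≤ 1 → (ρ a = 0 ↔ v a < 1)
  surj : ∀ y, ∃ a, v a ≤ 1 ∧ ρ a = y

/-- a place of `K` over `k` -/
def Plc (k : Type) {K : Type} [Field k] [Field K] [Algebra k K] (v : Valuation K ℤᵐ⁰) : Prop :=
  Function.Surjective v ∧ ∀ c : k, v (algebraMap k K c) ≤ 1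

/-- `v` lies over `s` -/
def Ov {K₀ K : Type} [Field K₀] [Field K] [Algebra K₀ K] (s : Valuation K₀ ℤᵐ⁰)
    (v : Valuation K ℤᵐ⁰) : Prop :=
  ∃ e : ℕ, 1 ≤ e ∧ ∀ x, v (algebraMap K₀ K x) = s x ^ e

/-- an integral vector -/
def Int {K : Type} [Field K] {n : ℕ} (v : Valuation K ℤᵐ⁰) (x : Fin n → K) : Prop :=
  ∀ i, v (x i) ≤ 1

/-- after scaling, the point `b` does not reduce to a double line -/
def Dat.NX {O K : Type} [CommRing O] [Field K] [Algebra O K] (D : Dat O) (v : Valuation K ℤᵐ⁰)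
    (b : Fin 3 → K) : Prop :=
  ∃ a : K, Int v (a • b) ∧ (v (aeval (a • b) D.δ) = 1 ∨ ∃ i, v (aeval (a • b) (D.e i)) = 1)

/-- all residue fields have more than `n` elements -/
def Big (L : Type) [Field L] (n : ℕ) : Prop := ∃ a : L, a ^ (n.factorial + 1) - a + 1 = 0

/-- the finite places -/
abbrev Pl (L : Type) [Field L] := HeightOneSpectrum (𝓞 L)

/-! ### class functions -/

/-- functions on points with coordinates in extensions of `k` -/
abbrev Cl (k A : Type) [Field k] := ∀ (K : Type) [Field K] [Algebra k K], (Fin 5 → K) → A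

/-- `a` is the class of the value of `η` at `v` -/
def Sp {k A K : Type} [Field k] [Field K] [Algebra k K] (cl : Cl k A) (v : Valuation K ℤᵐ⁰)
    (η : Fin 5 → K) (a : A) : Prop :=
  ∃ (κ : Type) (_ : Field κ) (_ : Algebra k κ) (ρ : K → κ) (c : K), FiniteDimensional k κ ∧
    Red k v ρ ∧ Int v (c • η) ∧ (fun i => ρ (c * η i)) ≠ 0 ∧ a = cl κ fun i => ρ (c * η i)

/-- the class `[x] - deg x [o]` of a closed point, axiomatised -/
structure CF {k : Type} [Field k] (D : Dat k) (A : Type) [AddCommGroup A] where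
  /-- the class -/
  cl : Cl k A
  ext : ∀ (K K' : Type) [Field K] [Field K'] [Algebra k K] [Algebra k K'] [FiniteDimensional k K']
    (j : K →ₐ[k] K') (f : ℕ) (ξ : Fin 5 → K), D.On ξ → finrank k K' = f * finrank k K →
    cl K' (fun i => j (ξ i)) = f • cl K ξ
  smul : ∀ (K : Type) [Field K] [Algebra k K] [FiniteDimensional k K] (a : K) (ξ : Fin 5 → K),
    a ≠ 0 → D.On ξ → cl K (a • ξ) = cl K ξ
  base : cl k ![0, 0, 0, 1, 0] = 0
  div : ∀ (K : Type) [Field K] [Algebra k K], CurveField k K → ∀ (η : Fin 5 → K) (f : K)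
    (S : Finset (Valuation K ℤᵐ⁰)) (γ : Valuation K ℤᵐ⁰ → A), D.On η → f ≠ 0 →
    (∀ v, Plc k v → v ∉ S → ord v f = 0) → (∀ v ∈ S, Sp cl v η (γ v)) →
    ∑ v ∈ S, ord v f • γ v = 0

section

variable {k A : Type} [Field k] [AddCommGroup A] {D : Dat k}

/-- `a` is the class of the pair of points `ξ₀ ± √Δ ξ₁` -/
def CF.Pair (C : CF D A) (Δ : k) (ξ₀ ξ₁ : Fin 5 → k) (a : A) : Prop :=
  (∀ r : k, r ^ 2 = Δ → a = C.cl k (ξ₀ + r • ξ₁) + C.cl k (ξ₀ - r • ξ₁)) ∧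
    ∀ (K : Type) [Field K] [Algebra k K] (ω : K), finrank k K = 2 → ω ^ 2 = algebraMap k K Δ →
      (∀ r : k, r ^ 2 ≠ Δ) →
      a = C.cl K fun i => algebraMap k K (ξ₀ i) + ω * algebraMap k K (ξ₁ i)

/-- `a` is the class of the fibre over the point `b` with coordinates in `κ` -/
def CF.Fib (C : CF D A) (κ : Type) [Field κ] [Algebra k κ] (b : Fin 3 → κ) (a : A) : Prop :=
  2 • a = 0 ∧ ∀ (K : Type) [Field K] [Algebra k K] [FiniteDimensional k K] (j : κ →ₐ[k] K) (f : ℕ)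
    (y : Fin 3 → K), f ≤ 2 → finrank k K = f * finrank k κ → y ≠ 0 →
    D.Q (fun i => j (b i)) y = 0 → C.cl K (pt (fun i => j (b i)) y) = f • a

/-- `a` is the class of the fibre over the value of `φ` at `s` -/
def CF.FibAt (C : CF D A) {K : Type} [Field K] [Algebra k K] (φ : Fin 3 → K)
    (s : Valuation K ℤᵐ⁰) (a : A) : Prop :=
  ∃ (κ : Type) (_ : Field κ) (_ : Algebra k κ) (ρ : K → κ) (c : K), FiniteDimensional k κ ∧
    Red k s ρ ∧ Int s (c • φ) ∧ (fun i => ρ (c * φ i)) ≠ 0 ∧ C.Fib κ (fun i => ρ (c * φ i)) a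

open Classical in
/-- the sum of the classes `γ s` with the orders of `f` -/
def Th (γ : Valuation (RatFunc k) ℤᵐ⁰ → A) (f : RatFunc k) : A :=
  ∑ᶠ s, if Plc k s then ord s f • γ s else 0

end

/-! ### statements: bridge -/

/-- the class function of the group of cycles -/
def S_Br : Prop :=
  ∀ (k : IntermediateField ℚ (AlgebraicClosure ℚ)) [FiniteDimensional ℚ k] (D : Dat (𝓞 k)),
    ∃ (C : CF (D.map (algebraMap (𝓞 k) k)) ((D.pts →₀ ℤ) ⧸ ratTrivialOver k D.pts)) (o : D.pts),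
      ∀ (K : Type) [Field K] [Algebra k K] [FiniteDimensional k K] (ξ : Fin 5 → K)
        (x : (K →ₐ[k] AlgebraicClosure ℚ) → D.pts),
        (∀ σ, ∃ a : AlgebraicClosure ℚ, a ≠ 0 ∧ ∀ i, (x σ).1.rep i = a * σ (ξ i)) →
        C.cl K ξ = QuotientAddGroup.mk
          (∑ σ, Finsupp.single (x σ) 1 - (finrank k K : ℤ) • Finsupp.single o 1)

/-- an invariant cycle is a sum of closed points -/
def S_Orb : Prop :=
  ∀ (k : IntermediateField ℚ (AlgebraicClosure ℚ)) [FiniteDimensional ℚ k] (D : Dat (𝓞 k))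
    (H : AddSubgroup (D.pts →₀ ℤ)) (o : D.pts),
    (∀ (K : Type) [Field K] [Algebra k K] [FiniteDimensional k K] (ξ : Fin 5 → K)
        (x : (K →ₐ[k] AlgebraicClosure ℚ) → D.pts), (D.map (algebraMap (𝓞 k) k)).On ξ →
        (∀ σ, ∃ a : AlgebraicClosure ℚ, a ≠ 0 ∧ ∀ i, (x σ).1.rep i = a * σ (ξ i)) →
        ∑ σ, Finsupp.single (x σ) 1 - (finrank k K : ℤ) • Finsupp.single o 1 ∈ H) →
    ∀ Z : D.pts →₀ ℤ, GaloisInvariant k Z → (Z.sum fun _ m => m) = 0 → Z ∈ H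

/-- change of the base field -/
def S_Base : Prop :=
  ∀ (k L A : Type) [Field k] [Field L] [Algebra k L] [FiniteDimensional k L] [AddCommGroup A]
    (D : Dat k) (C : CF D A), ∃ C' : CF (D.map (algebraMap k L)) A,
      ∀ (K : Type) [Field K] [Algebra k K] [Algebra L K] [IsScalarTower k L K] (ξ : Fin 5 → K),
        C'.cl K ξ = C.cl K ξ

/-- the hypotheses of the theorem give the working form -/
def S_Hy : Prop :=
  ∀ (O : Type) [CommRing O] (D : Dat O) (M N : ℕ), Odd M →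
    (∀ (Ω : Type) [Field Ω] [IsAlgClosed Ω] [Algebra O Ω],
      Nodal D.δ N Ω ∧ ((M : Ω) ≠ 0 → ∀ x : Fin 3 → Ω, ¬ IsSing D.δ x)) → Hyp D M N

/-! ### statements: places -/

/-- the places over a place, and the order of a norm -/
def S_NF : Prop :=
  ∀ (k K₀ K κ₀ : Type) [Field k] [CharZero k] [Field K₀] [Field K] [Field κ₀] [Algebra k K₀]
    [Algebra K₀ K] [Algebra k K] [IsScalarTower k K₀ K] [FiniteDimensional K₀ K] [Algebra k κ₀]
    [FiniteDimensional k κ₀] (s : Valuation K₀ ℤᵐ⁰) (ρ₀ : K₀ → κ₀), Red k s ρ₀ →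
    ∃ (T : Finset (Valuation K ℤᵐ⁰)) (f : Valuation K ℤᵐ⁰ → ℕ),
      (∀ v : Valuation K ℤᵐ⁰, Function.Surjective v → Ov s v → v ∈ T) ∧
      (∀ α : K, α ≠ 0 → ord s (Algebra.norm K₀ α) = ∑ v ∈ T, f v * ord v α) ∧
      ∀ v ∈ T, Ov s v ∧ 1 ≤ f v ∧ ∃ (κ : Type) (_ : Field κ) (_ : Algebra k κ) (ρ : K → κ)
        (j : κ₀ →ₐ[k] κ), FiniteDimensional k κ ∧ Red k v ρ ∧
        (∀ x, s x ≤ 1 → ρ (algebraMap K₀ K x) = j (ρ₀ x)) ∧ finrank k κ = f v * finrank k κ₀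

/-- the places of the rational function field -/
def S_Rat : Prop :=
  ∀ (k : Type) [Field k],
    (∀ s : Valuation (RatFunc k) ℤᵐ⁰, Plc k s → ∃ (κ : Type) (_ : Field κ) (_ : Algebra k κ)
      (ρ : RatFunc k → κ), FiniteDimensional k κ ∧ Red k s ρ) ∧
    (∀ f : RatFunc k, f ≠ 0 → {s : Valuation (RatFunc k) ℤᵐ⁰ | Plc k s ∧ ord s f ≠ 0}.Finite) ∧
    (∀ a : k, ∃ (s : Valuation (RatFunc k) ℤᵐ⁰) (ρ : RatFunc k → k), Red k s ρ ∧
      (∀ p : Polynomial k, s (algebraMap _ _ p) ≤ 1 ∧ ρ (algebraMap _ _ p) = p.eval a) ∧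
      s (RatFunc.X - RatFunc.C a) = exp (-1) ∧
      ∀ s', Plc k s' → s' (RatFunc.X - RatFunc.C a) < 1 → s' = s) ∧
    ∃ (s : Valuation (RatFunc k) ℤᵐ⁰) (ρ : RatFunc k → k), Red k s ρ ∧
      (∀ (m : ℕ) (p : Polynomial k), p.natDegree ≤ m →
        s (algebraMap _ _ p / RatFunc.X ^ m) ≤ 1 ∧
          ρ (algebraMap _ _ p / RatFunc.X ^ m) = p.coeff m) ∧
      s RatFunc.X = exp 1 ∧ ∀ s', Plc k s' → 1 < s' RatFunc.X → s' = s

/-- restriction of places -/
def S_Rst : Prop :=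
  ∀ (k K : Type) [Field k] [Field K] [Algebra k K] [Algebra (RatFunc k) K]
    [IsScalarTower k (RatFunc k) K] [FiniteDimensional (RatFunc k) K],
    CurveField k K ∧ ∀ v : Valuation K ℤᵐ⁰, Plc k v →
      ∃ s : Valuation (RatFunc k) ℤᵐ⁰, Plc k s ∧ Ov s v

/-! ### statements: geometry -/

/-- two rational points of a rational curve -/
def S_R1 : Prop :=
  ∀ (k A : Type) [Field k] [CharZero k] [AddCommGroup A] (D : Dat k) (C : CF D A)
    (η : Fin 5 → Polynomial k), aeval η D.F = 0 → (fun i => (η i).eval 0) ≠ 0 →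
    (fun i => (η i).eval 1) ≠ 0 → C.cl k (fun i => (η i).eval 0) = C.cl k fun i => (η i).eval 1

/-- two fibres of a double cover of the line -/
def S_QF : Prop :=
  ∀ (k A : Type) [Field k] [CharZero k] [AddCommGroup A] (D : Dat k) (C : CF D A)
    (Δ : Polynomial k) (ξ₀ ξ₁ : Fin 5 → Polynomial k),
    (∀ (K : Type) [Field K] [Algebra k K] (τ ω : K), ω ^ 2 = Polynomial.aeval τ Δ →
      aeval (fun i => Polynomial.aeval τ (ξ₀ i) + ω * Polynomial.aeval τ (ξ₁ i)) D.F = 0) →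
    (∀ a : k, a = 0 ∨ a = 1 → Δ.eval a ≠ 0 ∧
      ∃ i j, (ξ₀ i).eval a * (ξ₁ j).eval a ≠ (ξ₀ j).eval a * (ξ₁ i).eval a) →
    ∃ γ : A, C.Pair (Δ.eval 0) (fun i => (ξ₀ i).eval 0) (fun i => (ξ₁ i).eval 0) γ ∧
      C.Pair (Δ.eval 1) (fun i => (ξ₀ i).eval 1) (fun i => (ξ₁ i).eval 1) γ

/-- points of the line, and two points of one conic -/
def S_F2 : Prop :=
  ∀ (k A : Type) [Field k] [CharZero k] [AddCommGroup A] (D : Dat k) (C : CF D A)
    (K : Type) [Field K] [Algebra k K] [FiniteDimensional k K],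
    (∀ ξ : Fin 5 → K, ξ ≠ 0 → bs ξ = 0 → C.cl K ξ = 0) ∧
    ∀ b y y' : Fin 3 → K, b ≠ 0 → y ≠ 0 → y' ≠ 0 → D.Q b y = 0 → D.Q b y' = 0 →
      C.cl K (pt b y) = C.cl K (pt b y')

/-- a quadratic point of a conic, and twice a rational point -/
def S_F3 : Prop :=
  ∀ (k A : Type) [Field k] [CharZero k] [AddCommGroup A] (D : Dat k) (C : CF D A) (b : Fin 3 → k),
    b ≠ 0 → (∀ y : Fin 3 → k, y ≠ 0 → D.Q b y = 0 → 2 • C.cl k (pt b y) = 0) ∧
      ∀ (K : Type) [Field K] [Algebra k K] (y : Fin 3 → K), finrank k K = 2 → y ≠ 0 →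
        D.Q (fun i => algebraMap k K (b i)) y = 0 →
        C.cl K (pt (fun i => algebraMap k K (b i)) y) = 0

/-- the class of a fibre -/
def S_Fib : Prop :=
  ∀ (k A : Type) [Field k] [CharZero k] [AddCommGroup A] (D : Dat k) (C : CF D A)
    (κ : Type) [Field κ] [Algebra k κ] [FiniteDimensional k κ] (b : Fin 3 → κ), b ≠ 0 →
    (∃ a, C.Fib κ b a) ∧ ∀ y : Fin 3 → κ, y ≠ 0 → D.Q b y = 0 → C.Fib κ b (C.cl κ (pt b y))

/-- a point is equivalent to the residual pair of a line through it -/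
def S_LS : Prop :=
  ∀ (k A : Type) [Field k] [CharZero k] [AddCommGroup A] (D : Dat k) (C : CF D A)
    (x u : Fin 5 → k), D.On x → bs x ≠ 0 → D.Ani (bs x) → aeval u D.F ≠ 0 → D.Dl x u ≠ 0 →
    C.Pair (D.Dl x u) (D.res x u 0) u (C.cl k x)

/-- norms from a field of degree at most two that splits the conic -/
def S_Th : Prop :=
  ∀ (k A : Type) [Field k] [CharZero k] [AddCommGroup A] (D : Dat k) (C : CF D A)
    (φ : Fin 3 → RatFunc k) (γ : Valuation (RatFunc k) ℤᵐ⁰ → A),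
    (∀ s, Plc k s → C.FibAt φ s (γ s)) →
    ∀ (K : Type) [Field K] [Algebra k K] [Algebra (RatFunc k) K] [IsScalarTower k (RatFunc k) K]
      [FiniteDimensional (RatFunc k) K] (y : Fin 3 → K) (α : K), finrank (RatFunc k) K ≤ 2 →
      y ≠ 0 → D.Q (fun i => algebraMap (RatFunc k) K (φ i)) y = 0 → α ≠ 0 →
      Th γ (Algebra.norm (RatFunc k) α) = 0

/-- isotropy of the eight dimensional form kills the class of `t` -/
def S_ThX : Prop :=
  ∀ (k A : Type) [Field k] [CharZero k] [AddCommGroup A] (D : Dat k) (C : CF D A)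
    (φ : Fin 3 → RatFunc k) (γ : Valuation (RatFunc k) ℤᵐ⁰ → A) (x x' : Fin 3 → RatFunc k)
    (z z' t : RatFunc k), (∀ s, Plc k s → C.FibAt φ s (γ s)) → aeval φ D.δ ≠ 0 → t ≠ 0 →
    (x ≠ 0 ∨ z ≠ 0 ∨ x' ≠ 0 ∨ z' ≠ 0) →
    D.Q φ x + aeval φ D.δ * z ^ 2 = t * (D.Q φ x' + aeval φ D.δ * z' ^ 2) → Th γ t = 0

/-- the two ends of the curve -/
def S_GT : Prop :=
  ∀ (k A : Type) [Field k] [CharZero k] [AddCommGroup A] (D : Dat k) (C : CF D A)
    (φ : Fin 3 → Polynomial k) (m : ℕ) (y p : Fin 3 → k) (x x' : Fin 4 → Polynomial k),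
    (∀ i, (φ i).natDegree ≤ m) → y ≠ 0 → D.Q (fun i => (φ i).eval 0) y = 0 →
    aeval (fun i => (φ i).eval 0) D.δ ≠ 0 → (fun i => (φ i).coeff m) ≠ 0 → p ≠ 0 → p 2 = 0 →
    D.Q (fun i => (φ i).coeff m) p = 0 → (x ≠ 0 ∨ x' ≠ 0) →
    Nf (aeval φ D.l₁) (aeval φ D.l₂) (aeval φ D.l₃) (aeval φ D.q₁) (aeval φ D.q₂) (aeval φ D.c) x =
      Polynomial.X * Nf (aeval φ D.l₁) (aeval φ D.l₂) (aeval φ D.l₃) (aeval φ D.q₁) (aeval φ D.q₂)
        (aeval φ D.c) x' →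
    C.cl k (pt (fun i => (φ i).eval 0) y) = 0

/-! ### statements: arithmetic -/

/-- a choice that avoids a hypersurface and finitely many hyperplanes -/
def S_Cho : Prop :=
  ∀ (Ω : Type) [Field Ω] (n d : ℕ) (T : Fin n → Finset Ω) (P : MvPolynomial (Fin n) Ω)
    (A : Finset ((Fin n → Ω) × Ω)), (∀ i, d < (T i).card) → P ≠ 0 → P.totalDegree + A.card ≤ d →
    (∀ a ∈ A, a.1 ≠ 0 ∨ a.2 ≠ 0) →
    ∃ x : Fin n → Ω, (∀ i, x i ∈ T i) ∧ eval x P ≠ 0 ∧ ∀ a ∈ A, a.1 ⬝ᵥ x + a.2 ≠ 0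

/-- residue fields of number fields, and approximation -/
def S_LF : Prop :=
  ∀ (k L : Type) [Field k] [NumberField k] [Field L] [NumberField L] [Algebra k L],
    (∀ w : Pl L, ∃ (κ : Type) (_ : Field κ) (_ : Finite κ) (_ : Algebra (𝓞 k) κ) (ρ : L → κ),
      Red (𝓞 k) (w.valuation L) ρ) ∧
    (∀ (L' : Type) [Field L'] [NumberField L'] [Algebra L L'],
      (∀ w' : Pl L', ∃ w : Pl L, Ov (w.valuation L) (w'.valuation L')) ∧
      ∀ w : Pl L, ∃ w' : Pl L', Ov (w.valuation L) (w'.valuation L')) ∧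
    (∀ a : L, a ≠ 0 → {w : Pl L | w.valuation L a ≠ 1}.Finite) ∧
    ∀ (S : Finset (Pl L)) (x : Pl L → L) (n : ℕ), (∀ w ∈ S, w.valuation L (x w) ≤ 1) →
      ∃ a : 𝓞 L, ∀ w ∈ S, w.valuation L (a - x w) ≤ exp (-(n : ℤ))

/-- the curve through `b` all of whose degenerate fibres are harmless (sections 3 and 4) -/
def S_Phi : Prop :=
  ∀ (k L : Type) [Field k] [NumberField k] [Field L] [NumberField L] [Algebra k L]
    (D : Dat (𝓞 k)) (M N : ℕ) (b y : Fin 3 → L), Hyp D M N → Big L (4 * N + 40) → y ≠ 0 →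
    D.Q b y = 0 → aeval b D.δ ≠ 0 → (∀ w : Pl L, D.NX (w.valuation L) b) →
    ∃ (m : ℕ) (φ : Fin 3 → Polynomial L) (a : L) (p : Fin 3 → L), (∀ i, (φ i).natDegree ≤ m) ∧
      a ≠ 0 ∧ (fun i => (φ i).eval 0) = a • b ∧ (fun i => (φ i).coeff m) ≠ 0 ∧ p ≠ 0 ∧ p 2 = 0 ∧
      D.Q (fun i => (φ i).coeff m) p = 0 ∧
      ∀ (F : Type) [Field F] [NumberField F] [Algebra L F] [Algebra k F] [IsScalarTower k L F]
        (θ : F), aeval (fun i => Polynomial.aeval θ (φ i)) D.δ = 0 → ∀ w : Pl F, ∃ i,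
        OK (w.valuation F) θ (aeval (fun i => Polynomial.aeval θ (φ i)) (D.e i))

/-- the cubic is smooth along a double line; double lines are singular points -/
def S_Rk : Prop :=
  ∀ (O κ : Type) [CommRing O] [Field κ] [Algebra O κ] (D : Dat O) (b : Fin 3 → κ), b ≠ 0 →
    (D.Xi b → IsSing D.δ b) ∧
    (∀ y : Fin 3 → κ, (2 : κ) ≠ 0 → y ≠ 0 → D.Q b y = 0 → D.Xi b →
      (∀ i, aeval (pt b y) (pderiv i D.F) = 0) → ∀ i j i' j',
      aeval b (pderiv i (pderiv j D.δ)) * aeval b (pderiv i' (pderiv j' D.δ)) =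
        aeval b (pderiv i (pderiv j' D.δ)) * aeval b (pderiv i' (pderiv j D.δ))) ∧
    ∀ ξ : Fin 5 → κ, bs ξ = b → aeval ξ D.F = 0 → (2 : κ) ≠ 0 →
      (∀ i, aeval ξ (pderiv i D.F) = 0) → IsSing D.δ b

/-- moving, one place -/
def S_ML : Prop :=
  ∀ (O L κ : Type) [CommRing O] [Field L] [Field κ] [Finite κ] [Algebra O L] [Algebra O κ]
    (v : Valuation L ℤᵐ⁰) (ρ : L → κ) (D : Dat O) (M N : ℕ) (x : Fin 5 → L), Red O v ρ →
    Hyp D M N → N + 20 ≤ Nat.card κ → D.On x → bs x ≠ 0 →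
    ∃ u₀ : Fin 5 → L, Int v u₀ ∧ ∀ u : Fin 5 → L, (∀ i, v (u i - u₀ i) < 1) →
      ∀ (L' κ' : Type) [Field L'] [Field κ'] [Finite κ'] [Algebra O L'] [Algebra O κ']
        [Algebra L L'] [IsScalarTower O L L'] (v' : Valuation L' ℤᵐ⁰) (ρ' : L' → κ') (μ ν : L'),
        Red O v' ρ' → Ov v v' → (μ ≠ 0 ∨ ν ≠ 0) →
        algebraMap L L' (pol D.F x u) * μ ^ 2 + algebraMap L L' (pol D.F u x) * μ * ν
          + algebraMap L L' (aeval u D.F) * ν ^ 2 = 0 →
        D.NX v' fun i => μ * algebraMap L L' (bs x i) + ν * algebraMap L L' (bs u i)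

/-- moving, the generic conditions -/
def S_MG : Prop :=
  ∀ (O L : Type) [CommRing O] [Field L] [CharZero L] [Algebra O L] (D : Dat O) (M N : ℕ)
    (x u₀ : Fin 5 → L), Hyp D M N → D.On x → bs x ≠ 0 → D.Ani (bs x) →
    ∃ u : Fin 5 → L, (∀ i, ∃ z : ℤ, u i = u₀ i + M * z) ∧ aeval u D.F ≠ 0 ∧ D.Dl x u ≠ 0 ∧
      ∀ (L' : Type) [Field L'] [Algebra O L'] [Algebra L L'] [IsScalarTower O L L'] (μ ν : L'),
        (μ ≠ 0 ∨ ν ≠ 0) →
        algebraMap L L' (pol D.F x u) * μ ^ 2 + algebraMap L L' (pol D.F u x) * μ * ν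
          + algebraMap L L' (aeval u D.F) * ν ^ 2 = 0 →
        aeval (fun i => μ * algebraMap L L' (bs x i) + ν * algebraMap L L' (bs u i)) D.δ ≠ 0

/-- moving -/
def S_Mov : Prop :=
  ∀ (k L : Type) [Field k] [NumberField k] [Field L] [NumberField L] [Algebra k L]
    (D : Dat (𝓞 k)) (M N : ℕ) (x : Fin 5 → L), Hyp D M N → Big L (N + 20) → D.On x → bs x ≠ 0 →
    D.Ani (bs x) → ∃ u : Fin 5 → L, aeval u D.F ≠ 0 ∧ D.Dl x u ≠ 0 ∧
      ∀ (F : Type) [Field F] [NumberField F] [Algebra L F] [Algebra k F] [IsScalarTower k L F]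
        (ω : F), ω ^ 2 = algebraMap L F (D.Dl x u) → ∀ ξ : Fin 5 → F,
        (ξ = fun i => algebraMap L F (D.res x u 0 i) + ω * algebraMap L F (u i)) →
        aeval ξ D.F = 0 ∧ aeval (bs ξ) D.δ ≠ 0 ∧ ∀ w : Pl F, D.NX (w.valuation F) (bs ξ)

/-- a good point has class zero -/
def S_MT : Prop :=
  ∀ (k L A : Type) [Field k] [NumberField k] [Field L] [NumberField L] [Algebra k L]
    [AddCommGroup A] (D : Dat (𝓞 k)) (C : CF (D.map (algebraMap (𝓞 k) k)) A) (M N : ℕ)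
    (ξ : Fin 5 → L), IQc k → Hyp D M N → Big L (4 * N + 40) → aeval ξ D.F = 0 →
    aeval (bs ξ) D.δ ≠ 0 → (∀ w : Pl L, D.NX (w.valuation L) (bs ξ)) → C.cl L ξ = 0

/-- every point has class zero -/
def S_All : Prop :=
  ∀ (k K A : Type) [Field k] [NumberField k] [Field K] [Algebra k K] [FiniteDimensional k K]
    [AddCommGroup A] (D : Dat (𝓞 k)) (C : CF (D.map (algebraMap (𝓞 k) k)) A) (M N : ℕ)
    (ξ : Fin 5 → K), IQc k → Hyp D M N → D.On ξ → C.cl K ξ = 0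

end

end Pool.Agent.P.MP_b8021b_nt.CU
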