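import Pool.Agent.P.MP_b8021b_nt.CU.St

/-! The local part: teeth and chains. -/

open scoped WithZero Matrix

namespace Pool.Agent.P.MP_b8021b_nt.CU

open MvPolynomial NumberField IsDedekindDomain Module WithZero
open Pool.Agent.P.MP_b8021b_nt.CH (Qf dl Nf OK IQc)

noncomputable section

/-- a discrete valuation with finite residue field -/
structure LF (O L : Type) [CommRing O] [Field L] [Algebra O L] where
  /-- the residue field -/
  κ : Type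
  [fκ : Field κ]
  [fin : Finite κ]
  [aκ : Algebra O κ]
  /-- the valuation -/
  v : Valuation L ℤᵐ⁰
  /-- the residue map -/
  ρ : L → κ
  red : Red O v ρ

attribute [instance] LF.fκ LF.fin LF.aκ

variable {O L : Type} [CommRing O] [Field L] [Algebra O L]

/-- an extension of valued fields -/
structure Ext {L' : Type} [Field L'] [Algebra O L'] (W : LF O L) (W' : LF O L') where
  /-- the embedding -/
  ι : L →ₐ[O] L'
  /-- the ramification index -/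
  e : ℕ
  he : 1 ≤ e
  val : ∀ x, W'.v (ι x) = W.v x ^ e

/-- the root `r` at the degenerate fibre over `b` is harmless -/
def Dat.Ok (D : Dat O) (v : Valuation L ℤᵐ⁰) (b : Fin 3 → L) (r : L) : Prop :=
  ∃ i, OK v r (aeval b (D.e i))

/-- all degenerate fibres near the line `c + r c'` are harmless -/
def Dat.Tooth (D : Dat O) (W : LF O L) (c c' : Fin 3 → L) : Prop :=
  ∃ N : ℕ, ∀ (L' : Type) [Field L'] [Algebra O L'] (W' : LF O L') (E : Ext W W') (r : L')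
    (b : Fin 3 → L'), r ≠ 0 → aeval b D.δ = 0 →
    (∀ i, W'.v (b i - (E.ι (c i) + r * E.ι (c' i))) ≤ exp (-((N * E.e : ℕ) : ℤ)) * max 1 (W'.v r)) →
    D.Ok W'.v b r

/-- a chain of `m` teeth from `x` to `o` -/
def Dat.Reach (D : Dat O) (W : LF O L) (o : Fin 3 → L) (m : ℕ) (x : Fin 3 → L) : Prop :=
  ∃ c : ℕ → Fin 3 → L, c 0 = x ∧ c m = o ∧ ∀ i < m, D.Tooth W (c i) (c (i + 1))

/-- the reduced line through `c` and `c'` misses the double lines -/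
def Dat.Miss (D : Dat O) (W : LF O L) (c c' : Fin 3 → L) : Prop :=
  ∀ (L' : Type) [Field L'] [Algebra O L'] (W' : LF O L') (E : Ext W W') (α β : L')
    (b : Fin 3 → L'), W'.v α ≤ 1 → W'.v β ≤ 1 → (W'.v α = 1 ∨ W'.v β = 1) →
    (∀ i, W'.v (b i - (α * E.ι (c i) + β * E.ι (c' i))) < 1) → W'.v (aeval b D.δ) < 1 →
    ∃ i, W'.v (aeval b (D.e i)) = 1

/-- the reduced conic has a smooth rational point -/
def Dat.Split (D : Dat O) (v : Valuation L ℤᵐ⁰) (c : Fin 3 → L) : Prop :=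
  ∃ g g' : Fin 3 → L, Int v g ∧ Int v g' ∧ v (D.Q c g) < 1 ∧ v (D.B c g g') = 1

/-- the condition at one end of a tooth of scale `σ` and direction `n` -/
def Dat.End (D : Dat O) (v : Valuation L ℤᵐ⁰) (σ : ℕ) (x n : Fin 3 → L) : Prop :=
  (v (aeval x D.δ) = exp (-(2 * σ : ℤ)) ∧ v (pol D.δ x n) ≤ exp (-(σ : ℤ))) ∨
    (v (pol D.δ x n) = exp (-(σ : ℤ)) ∧ aeval x D.δ ≠ 0 ∧ Even (ord v (aeval x D.δ))) ∨ D.Split v x

/-- the coefficient vector of a linear form -/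
def cf (L : Type) [Field L] [Algebra O L] (l : MvPolynomial (Fin 3) O) : Fin 3 → L :=
  fun i => aeval (Pi.single i (1 : L) : Fin 3 → L) l

/-- the linear form whose zeros are the conics through the point `(1 : j : 0)` -/
def Dat.n₁ (D : Dat O) (L : Type) [Field L] [Algebra O L] (j : ℕ) : Fin 3 → L :=
  cf L D.l₁ + (j : L) • cf L D.l₂ + (j : L) ^ 2 • cf L D.l₃

/-- the second linear form after the shear -/
def Dat.n₂ (D : Dat O) (L : Type) [Field L] [Algebra O L] (j : ℕ) : Fin 3 → L :=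
  cf L D.l₂ + (2 * j : L) • cf L D.l₃

/-- nonzero iff `(1 : j : 0)` is not a vertex of a conic of the family -/
def Dat.Rs (D : Dat O) (L : Type) [Field L] [Algebra O L] (j : ℕ) : L :=
  aeval (D.n₁ L j ⨯₃ D.n₂ L j) D.q₁ + j * aeval (D.n₁ L j ⨯₃ D.n₂ L j) D.q₂

/-! ### statements -/

/-- change of discriminant, scaling, splitting -/
def S_Ok : Prop :=
  ∀ (O L : Type) [CommRing O] [Field L] [Algebra O L] (D : Dat O),
    (∀ (v : Valuation L ℤᵐ⁰) (b g g' : Fin 3 → L) (r : L), aeval b D.δ = 0 → (2 : L) ≠ 0 →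
      OK v r (D.B b g g' ^ 2 - 4 * D.Q b g * D.Q b g') → D.Ok v b r) ∧
    (∀ (v : Valuation L ℤᵐ⁰) (b : Fin 3 → L) (r a u : L), Function.Surjective v → a ≠ 0 →
      u ≠ 0 → Even (ord v u) → D.Ok v b r → D.Ok v (a • b) (u * r) ∧ D.Ok v b r⁻¹) ∧
    (∀ (W : LF O L) (b : Fin 3 → L) (r : L), Int W.v b → r ≠ 0 → Even (ord W.v r) →
      (∃ i, W.v (aeval b (D.e i)) = 1) → D.Ok W.v b r) ∧
    (∀ (v : Valuation L ℤᵐ⁰) (r d s : L), v 2 ≤ 1 → v (d - s ^ 2) < v (4 * s ^ 2) → OK v r d) ∧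
    (∀ (W : LF O L) (c c' : Fin 3 → L) (a : L), a ≠ 0 → D.Tooth W c c' →
      D.Tooth W (a • c) (a • c')) ∧
    ∀ (W : LF O L) (o x y : Fin 3 → L) (m : ℕ), D.Tooth W x y → D.Reach W o m y →
      D.Reach W o (m + 1) x

/-- residue fields of extensions; the line misses the double lines -/
def S_Ms : Prop :=
  ∀ (O L : Type) [CommRing O] [Field L] [Algebra O L] (W : LF O L),
    (∀ (L' : Type) [Field L'] [Algebra O L'] (W' : LF O L') (E : Ext W W'),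
      ∃ j : W.κ →ₐ[O] W'.κ, ∀ x, W.v x ≤ 1 → W'.ρ (E.ι x) = j (W.ρ x)) ∧
    (∀ n : ℕ, Big L n → n < Nat.card W.κ) ∧
    ∀ (D : Dat O) (c c' : Fin 3 → L), Int W.v c → Int W.v c' →
      (fun i => W.ρ (c i)) ⨯₃ (fun i => W.ρ (c' i)) ≠ 0 →
      (∀ ξ : Fin 3 → AlgebraicClosure W.κ, ξ ≠ 0 → D.Xi ξ →
        ((fun i => algebraMap W.κ _ (W.ρ (c i))) ⨯₃ fun i => algebraMap W.κ _ (W.ρ (c' i))) ⬝ᵥ ξ
          ≠ 0) → D.Miss W c c'

/-- the chain lemma -/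
def S_Ch : Prop :=
  ∀ (O L : Type) [CommRing O] [Field L] [Algebra O L] (D : Dat O) (W : LF O L) (m : ℕ)
    (x o : Fin 3 → L), 1 ≤ m → D.Reach W o m x →
    ∃ (g : ℕ → Fin 3 → L) (N : ℕ), g 0 = x ∧ g m = o ∧ ∀ β : ℕ → Fin 3 → L,
      (∀ i ≤ m, ∀ j, W.v (β i j - g i j) ≤ exp (-(N : ℤ))) →
      ∀ (L' : Type) [Field L'] [Algebra O L'] (W' : LF O L') (E : Ext W W') (θ : L'), θ ≠ 0 →
        aeval (fun j => ∑ i ∈ Finset.range (m + 1), E.ι (β i j) * θ ^ i) D.δ = 0 →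
        D.Ok W'.v (fun j => ∑ i ∈ Finset.range (m + 1), E.ι (β i j) * θ ^ i) θ

/-- the general tooth -/
def S_TG : Prop :=
  ∀ (O L : Type) [CommRing O] [Field L] [CharZero L] [Algebra O L] (D : Dat O) (W : LF O L) (π : L)
    (b n : Fin 3 → L) (σ : ℕ), W.v π = exp (-1) → Int W.v b → Int W.v n → D.Miss W b n →
    D.End W.v σ b n → D.End W.v σ (b + π ^ σ • n) n → D.Tooth W b (b + π ^ σ • n)

/-- the parity lemma -/
def S_Par : Prop :=
  ∀ (O L : Type) [CommRing O] [Field L] [Algebra O L] (D : Dat O) (W : LF O L) (c y : Fin 3 → L),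
    Int W.v c → aeval c D.δ ≠ 0 → y ≠ 0 → D.Q c y = 0 → (∃ i, W.v (aeval c (D.e i)) = 1) →
    D.Split W.v c ∨ Even (ord W.v (aeval c D.δ))

/-- teeth inside the line of conics through `(1 : j : 0)` -/
def S_TL : Prop :=
  ∀ (O L : Type) [CommRing O] [Field L] [CharZero L] [Algebra O L] (D : Dat O) (W : LF O L) (j : ℕ),
    D.Rs L j ≠ 0 → (∀ c c' : Fin 3 → L, D.n₁ L j ⬝ᵥ c = 0 → D.n₁ L j ⬝ᵥ c' = 0 → c ⨯₃ c' ≠ 0 →
      D.Tooth W c c') ∧
    ∀ (o c : Fin 3 → L) (m : ℕ), D.n₁ L j ⬝ᵥ o = 0 → D.n₁ L j ⬝ᵥ c = 0 → o ≠ 0 → c ≠ 0 → 2 ≤ m →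
      D.Reach W o m c

/-- the shear, and a good point on the line -/
def S_Sh : Prop :=
  ∀ (O L : Type) [CommRing O] [Field L] [CharZero L] [Algebra O L] (D : Dat O),
    (∀ x : Fin 3 → AlgebraicClosure L, ¬ IsSing D.δ x) →
    (∀ n : Fin 3 → L, n ≠ 0 → ∃ o : Fin 3 → L, n ⬝ᵥ o = 0 ∧ aeval o D.δ ≠ 0) ∧
    (∀ (j : ℕ) (b : Fin 3 → L), D.Q b ![1, j, 0] = D.n₁ L j ⬝ᵥ b) ∧ ∃ j : ℕ, D.Rs L j ≠ 0

/-- the centre of a node -/
def S_NC : Prop :=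
  ∀ (O L : Type) [CommRing O] [Field L] [CharZero L] [Algebra O L] (D : Dat O) (W : LF O L)
    (M N : ℕ) (b : Fin 3 → L) (i₀ : Fin 3), Hyp D M N → Int W.v b → W.v (b i₀) = 1 →
    W.v (aeval b D.δ) < 1 → (∀ i, W.v (aeval b (pderiv i D.δ)) < 1) →
    ∃ c : Fin 3 → L, c i₀ = b i₀ ∧ (∀ i, W.v (c i - b i) < 1) ∧ aeval c D.δ ≠ 0 ∧
      ∀ i, W.v (aeval c (pderiv i D.δ)) ^ 2 < W.v (aeval c D.δ)

/-- the tooth that leaves a node along a line with harmless near roots -/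
def S_SL : Prop :=
  ∀ (O L : Type) [CommRing O] [Field L] [CharZero L] [Algebra O L] (D : Dat O) (W : LF O L) (π τ : L)
    (z c : Fin 3 → L) (σ : ℕ), W.v π = exp (-1) → W.v 2 = 1 → Int W.v z → Int W.v c →
    W.v (aeval z D.δ) < 1 → (∀ i, W.v (aeval z (pderiv i D.δ)) ^ 2 < W.v (aeval z D.δ)) →
    (∃ i, W.v (aeval z (D.e i)) = 1) → W.v (hs D.δ z c c) = 1 → D.Miss W z c →
    W.v (aeval (z + c) D.δ) = 1 → 1 ≤ σ → W.v τ = 1 →
    (Odd (ord W.v (aeval z D.δ)) → 2 * (σ : ℤ) < ord W.v (aeval z D.δ) →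
      D.Tooth W (z + (π ^ σ * τ) • c) (z + c)) ∧
    ∀ (t : ℕ) (m : Fin 3 → L), ord W.v (aeval z D.δ) = 2 * t → Int W.v m →
      ¬ IsSquare (W.ρ (hs D.δ z m c ^ 2
        - hs D.δ z c c * (2 * (aeval z D.δ / π ^ (2 * t)) + hs D.δ z m m))) →
      D.Tooth W (z + π ^ t • m + (π ^ σ * τ) • c) (z + π ^ t • m + c)

/-- a nonsquare value -/
def S_Nsq : Prop :=
  ∀ (κ : Type) [Field κ] [Finite κ] (α β : κ), (2 : κ) ≠ 0 → 3 < Nat.card κ → α ≠ 0 → β ≠ 0 →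
    ∃ x : κ, ¬ IsSquare (α * x ^ 2 - β)

/-- two teeth from a point that reduces to a node -/
def S_Nd : Prop :=
  ∀ (O L : Type) [CommRing O] [Field L] [CharZero L] [Algebra O L] (D : Dat O) (W : LF O L)
    (M N : ℕ) (b : Fin 3 → L), Hyp D M N → N + 20 ≤ Nat.card W.κ → Int W.v b →
    W.v (aeval b D.δ) < 1 → (∀ i, W.v (aeval b (pderiv i D.δ)) < 1) →
    (∃ i, W.v (aeval b (D.e i)) = 1) → aeval b D.δ ≠ 0 → Even (ord W.v (aeval b D.δ)) →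
    ∃ b' c : Fin 3 → L, D.Tooth W b b' ∧ D.Tooth W b' c ∧ Int W.v c ∧ W.v (aeval c D.δ) = 1

/-- one tooth from any other point, to a point off the quintic and off a given line -/
def S_NN : Prop :=
  ∀ (O L : Type) [CommRing O] [Field L] [CharZero L] [Algebra O L] (D : Dat O) (W : LF O L)
    (M N : ℕ) (x : Fin 3 → L) (n : Fin 3 → W.κ), Hyp D M N → N + 20 ≤ Nat.card W.κ → Int W.v x →
    n ≠ 0 → (W.v (aeval x D.δ) = 1 ∨ ((∃ i, W.v (aeval x (D.e i)) = 1) ∧ (D.Split W.v x ∨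
      ((∃ i, W.v (aeval x (pderiv i D.δ)) = 1) ∧ aeval x D.δ ≠ 0 ∧
        Even (ord W.v (aeval x D.δ)))))) →
    ∃ c : Fin 3 → L, D.Tooth W x c ∧ Int W.v c ∧ W.v (aeval c D.δ) = 1 ∧
      n ⬝ᵥ (fun i => W.ρ (c i)) ≠ 0

/-- two teeth from a point off the quintic to the line -/
def S_Lam : Prop :=
  ∀ (O L : Type) [CommRing O] [Field L] [CharZero L] [Algebra O L] (D : Dat O) (W : LF O L)
    (M N j : ℕ) (x o : Fin 3 → L), Hyp D M N → N + 20 ≤ Nat.card W.κ → Int W.v x →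
    W.v (aeval x D.δ) = 1 → D.n₁ L j ≠ 0 → D.n₁ L j ⬝ᵥ o = 0 → aeval o D.δ ≠ 0 →
    ∃ c c' : Fin 3 → L, D.Tooth W x c ∧ D.Tooth W c c' ∧ c' ≠ 0 ∧ D.n₁ L j ⬝ᵥ c' = 0

/-- the chain at one place -/
def S_Six : Prop :=
  ∀ (O L : Type) [CommRing O] [Field L] [CharZero L] [Algebra O L] (D : Dat O) (W : LF O L)
    (M N j : ℕ) (b y o : Fin 3 → L), Hyp D M N → N + 20 ≤ Nat.card W.κ → y ≠ 0 → D.Q b y = 0 →
    aeval b D.δ ≠ 0 → D.NX W.v b → D.Rs L j ≠ 0 → D.n₁ L j ⬝ᵥ o = 0 → aeval o D.δ ≠ 0 →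
    D.Reach W o 6 b

end

end Pool.Agent.P.MP_b8021b_nt.CU
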